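import Mathlib

/-! Linear Noether normalisation, for algebras and for cones. -/

open Set MvPolynomial

noncomputable section

namespace Pool.Agent.Lib.S3K

namespace Noe

/-- The polynomial has degree at most `e` and coefficient `a` in degree `e`. -/
def Ld {S : Type*} [CommRing S] (p : Polynomial S) (e : ℕ) (a : S) : Prop :=
  p.natDegree ≤ e ∧ p.coeff e = a

theorem Ld.mul {S : Type*} [CommRing S] {p q : Polynomial S} {e f : ℕ} {a b : S} (h : Ld p e a)
    (h' : Ld q f b) : Ld (p * q) (e + f) (a * b) :=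
  ⟨Polynomial.natDegree_mul_le.trans (add_le_add h.1 h'.1), by
    rw [Polynomial.coeff_mul_add_eq_of_natDegree_le h.1 h'.1, h.2, h'.2]⟩

theorem Ld.one {S : Type*} [CommRing S] : Ld (1 : Polynomial S) 0 1 := ⟨by simp, by simp⟩

theorem Ld.pow {S : Type*} [CommRing S] {p : Polynomial S} {a : S} (h : Ld p 1 a) (k : ℕ) :
    Ld (p ^ k) k (a ^ k) := by
  induction k with
  | zero => simpa using Ld.one
  | succ k ih => rw [pow_succ, pow_succ]; exact ih.mul h

theorem Ld.prod {S ι : Type*} [CommRing S] (s : Finset ι) {p : ι → Polynomial S} {e : ι → ℕ}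
    {a : ι → S} (h : ∀ i, Ld (p i) (e i) (a i)) :
    Ld (∏ i ∈ s, p i) (∑ i ∈ s, e i) (∏ i ∈ s, a i) := by
  classical
  induction s using Finset.induction_on with
  | empty => simpa using Ld.one
  | insert i s hi ih =>
    rw [Finset.prod_insert hi, Finset.sum_insert hi, Finset.prod_insert hi]
    exact (h i).mul ih

/-- The leading term of a polynomial along a line. -/
theorem lead {σ S : Type*} [CommRing S] [Algebra ℂ S] (w : σ → S) (c : σ → ℂ)
    (R : MvPolynomial σ ℂ) :
    Ld (aeval (fun i => Polynomial.C (w i) + Polynomial.C (algebraMap ℂ S (c i)) * Polynomial.X) R)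
      R.totalDegree (algebraMap ℂ S (eval c (homogeneousComponent R.totalDegree R))) := by
  classical
  set g : σ → Polynomial S :=
    fun i => Polynomial.C (w i) + Polynomial.C (algebraMap ℂ S (c i)) * Polynomial.X with hg
  have h1 : ∀ i, Ld (g i) 1 (algebraMap ℂ S (c i)) := fun i =>
    ⟨by rw [hg]; beta_reduce; compute_degree, by simp [hg, Polynomial.coeff_C]⟩
  have h2 : ∀ (m : σ →₀ ℕ) (a : ℂ), Ld (aeval g (monomial m a)) m.degree
      (algebraMap ℂ S (eval c (monomial m a))) := by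
    intro m a
    have h3 : Ld (algebraMap ℂ (Polynomial S) a) 0 (algebraMap ℂ S a) :=
      ⟨by simp [Polynomial.algebraMap_apply], by simp [Polynomial.algebraMap_apply]⟩
    have h4 := h3.mul (Ld.prod m.support fun i => (h1 i).pow (m i))
    rw [zero_add] at h4
    rw [aeval_monomial, eval_monomial, map_mul, Finsupp.prod, Finsupp.prod, map_prod]
    simp only [map_pow]
    exact h4
  have h5 : ∀ m ∈ R.support, m.degree ≤ R.totalDegree := fun m hm => le_totalDegree hm
  constructor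
  · conv_lhs => rw [R.as_sum, map_sum]
    exact Polynomial.natDegree_sum_le_of_forall_le _ _ fun m hm => (h2 m _).1.trans (h5 m hm)
  · rw [homogeneousComponent_apply, map_sum, map_sum, Finset.sum_filter]
    conv_lhs => rw [R.as_sum, map_sum]
    simp only [Polynomial.finsetSum_coeff]
    rw [← R.as_sum]
    refine Finset.sum_congr rfl fun m hm => ?_
    split_ifs with h
    · rw [← h]
      exact (h2 m _).2
    · exact Polynomial.coeff_eq_zero_of_natDegree_lt
        ((h2 m _).1.trans_lt (lt_of_le_of_ne (h5 m hm) h))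

theorem top_ne {σ : Type*} {R : MvPolynomial σ ℂ} (h : R ≠ 0) :
    homogeneousComponent R.totalDegree R ≠ 0 := by
  classical
  obtain ⟨m, hm, he⟩ := Finset.exists_mem_eq_sup R.support (support_nonempty.2 h)
    fun s : σ →₀ ℕ => s.sum fun _ e => e
  intro h0
  have h1 := coeff_homogeneousComponent R.totalDegree R m
  rw [h0, if_pos (show m.degree = R.totalDegree from he.symm)] at h1
  exact mem_support_iff.1 hm h1.symm

theorem trans_int {B : Type*} [CommRing B] [Algebra ℂ B] {S S' : Subalgebra ℂ B}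
    (h : ∀ s ∈ S', IsIntegral S s) {t : B} (ht : IsIntegral S' t) : IsIntegral S t := by
  let φ : S' →+* integralClosure S B :=
    (algebraMap S' B).codRestrict (integralClosure S B) fun s => h s s.2
  have h1 : IsIntegral (integralClosure S B) t :=
    ht.map_of_comp_eq φ (RingHom.id B) (by ext; rfl)
  exact isIntegral_trans t h1

theorem adj_int {B ι : Type*} [CommRing B] [Algebra ℂ B] {S : Subalgebra ℂ B} {x : ι → B}
    (h : ∀ i, IsIntegral S (x i)) : ∀ s ∈ Algebra.adjoin ℂ (range x), IsIntegral S s := by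
  have : Algebra.adjoin ℂ (range x) ≤ (integralClosure S B).restrictScalars ℂ :=
    Algebra.adjoin_le (range_subset_iff.2 h)
  exact fun s hs => this hs

theorem ln_fin {B : Type*} [CommRing B] [Nontrivial B] [Algebra ℂ B] (n : ℕ) :
    ∀ x : Fin n → B, ∃ (r : ℕ) (y : Fin r → B), (∀ i, y i ∈ Submodule.span ℂ (range x)) ∧
      AlgebraicIndependent ℂ y ∧ ∀ s, IsIntegral (Algebra.adjoin ℂ (range y)) (x s) := by
  induction n with
  | zero =>
    intro x
    exact ⟨0, x, fun i => i.elim0,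
      algebraicIndependent_empty_type_iff.2 (algebraMap ℂ B).injective, fun i => i.elim0⟩
  | succ n ih =>
    intro x
    by_cases hx : AlgebraicIndependent ℂ x
    · exact ⟨_, x, fun i => Submodule.subset_span ⟨i, rfl⟩, hx, fun s =>
        isIntegral_algebraMap (x := (⟨x s, Algebra.subset_adjoin ⟨s, rfl⟩⟩ :
          Algebra.adjoin ℂ (range x)))⟩
    obtain ⟨R, hR, hR0⟩ : ∃ R : MvPolynomial (Fin (n + 1)) ℂ, aeval x R = 0 ∧ R ≠ 0 := by
      simpa [algebraicIndependent_iff] using hx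
    obtain ⟨c, hc⟩ : ∃ c : Fin (n + 1) → ℂ,
        eval c (homogeneousComponent R.totalDegree R * X 0) ≠ 0 := by
      by_contra hcon
      push Not at hcon
      exact mul_ne_zero (top_ne hR0) (X_ne_zero 0) (MvPolynomial.funext fun c => by
        rw [hcon c, map_zero])
    rw [map_mul, eval_X] at hc
    have hc0 : c 0 ≠ 0 := right_ne_zero_of_mul hc
    set t : B := (c 0)⁻¹ • x 0 with ht
    set x' : Fin n → B := fun i => x i.succ - c i.succ • t with hx'
    set S := Algebra.adjoin ℂ (range x') with hS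
    have hw : ∀ i, x i - c i • t ∈ S := by
      refine Fin.cases ?_ fun i => Algebra.subset_adjoin ⟨i, rfl⟩
      rw [ht, smul_smul, mul_inv_cancel₀ hc0, one_smul, sub_self]
      exact zero_mem _
    have hL := lead (fun i => (⟨_, hw i⟩ : S)) c R
    set p := aeval (fun i => Polynomial.C (⟨_, hw i⟩ : S) +
      Polynomial.C (algebraMap ℂ S (c i)) * Polynomial.X) R with hp
    have hpt : Polynomial.aeval t p = 0 := by
      have h1 := comp_aeval_apply (fun i => Polynomial.C (⟨_, hw i⟩ : S) +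
        Polynomial.C (algebraMap ℂ S (c i)) * Polynomial.X)
        ((Polynomial.aeval t).restrictScalars ℂ) R
      refine h1.trans (Eq.trans ?_ hR)
      congr 2
      funext i
      simp [Algebra.smul_def]
    have hti : IsIntegral S t := by
      set a := eval c (homogeneousComponent R.totalDegree R) with ha
      have ha0 : a ≠ 0 := left_ne_zero_of_mul hc
      refine ⟨Polynomial.C (algebraMap ℂ S a⁻¹) * p,
        Polynomial.monic_of_natDegree_le_of_coeff_eq_one R.totalDegree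
          ((Polynomial.natDegree_C_mul_le _ _).trans hL.1) ?_, ?_⟩
      · rw [Polynomial.coeff_C_mul, hL.2, ← map_mul, inv_mul_cancel₀ ha0, map_one]
      · rw [← Polynomial.aeval_def, map_mul, hpt, mul_zero]
    obtain ⟨r, y, h1, h2, h3⟩ := ih x'
    refine ⟨r, y, fun i => ?_, h2, fun s => trans_int (adj_int h3) ?_⟩
    · refine (Submodule.span_le.2 (range_subset_iff.2 fun j => ?_)) (h1 i)
      exact sub_mem (Submodule.subset_span ⟨_, rfl⟩) (Submodule.smul_mem _ _
        (Submodule.smul_mem _ _ (Submodule.subset_span ⟨_, rfl⟩)))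
    · have h4 : x s = algebraMap S B ⟨_, hw s⟩ + algebraMap S B (algebraMap ℂ S (c s)) * t := by
        simp [Algebra.smul_def]
      rw [h4]
      exact isIntegral_algebraMap.add (isIntegral_algebraMap.mul hti)

end Noe

/-- Linear Noether normalisation. -/
theorem lin_noether {B σ : Type*} [CommRing B] [Nontrivial B] [Algebra ℂ B] [Fintype σ]
    (x : σ → B) : ∃ (r : ℕ) (c : Fin r → σ → ℂ),
      (AlgebraicIndependent ℂ fun i => ∑ s, c i s • x s) ∧
      ∀ s, ∃ m : Polynomial (MvPolynomial (Fin r) ℂ), m.Monic ∧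
        m.eval₂ (aeval fun i => ∑ s, c i s • x s : MvPolynomial (Fin r) ℂ →ₐ[ℂ] B) (x s) = 0 := by
  obtain ⟨r, y, h1, h2, h3⟩ := Noe.ln_fin _ (x ∘ (Fintype.equivFin σ).symm)
  rw [(Fintype.equivFin σ).symm.surjective.range_comp] at h1
  choose c hc using fun i => (Submodule.mem_span_range_iff_exists_fun ℂ).1 (h1 i)
  obtain rfl : y = fun i => ∑ s, c i s • x s := (funext hc).symm
  refine ⟨r, c, h2, fun s => ?_⟩
  obtain ⟨m, hm, hm0⟩ := h3 (Fintype.equivFin σ s)
  refine ⟨m.map h2.aevalEquiv.symm.toAlgHom.toRingHom, hm.map _, ?_⟩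
  rw [Polynomial.eval₂_map]
  simp only [Function.comp_apply, Equiv.symm_apply_apply] at hm0
  refine Eq.trans ?_ hm0
  congr 1
  refine RingHom.ext fun z => ?_
  obtain ⟨q, rfl⟩ := h2.aevalEquiv.surjective z
  simp

/-- A set stable under scalar multiplication. -/
def IsCone {E : Type*} [SMul ℂ E] (V : Set E) : Prop := ∀ (a : ℂ), ∀ p ∈ V, a • p ∈ V

/-- The linear map with matrix `c`. -/
def lm {σ : Type*} [Fintype σ] {r : ℕ} (c : Fin r → σ → ℂ) : (σ → ℂ) →L[ℂ] (Fin r → ℂ) :=
  ContinuousLinearMap.pi fun i => ∑ s, c i s • ContinuousLinearMap.proj s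

theorem lm_apply {σ : Type*} [Fintype σ] {r : ℕ} (c : Fin r → σ → ℂ) (p : σ → ℂ) (i : Fin r) :
    lm c p i = ∑ s, c i s * p s := by
  simp [lm]

/-- Monic equations for the coordinates bound the norm on a cone. -/
theorem cone_bound {σ : Type*} [Fintype σ] {r : ℕ} {V : Set (σ → ℂ)} (hV : IsCone V)
    (y : (σ → ℂ) →L[ℂ] (Fin r → ℂ)) (h : ∀ s, ∃ m : Polynomial (MvPolynomial (Fin r) ℂ),
      m.Monic ∧ ∀ p ∈ V, m.eval₂ (eval (y p)) (p s) = 0) :
    ∃ C, 0 < C ∧ ∀ p ∈ V, ‖p‖ ≤ C * ‖y p‖ := by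
  choose m hm hm0 using h
  have h1 : ∀ s, ∃ C, 0 < C ∧ ∀ p ∈ V, ‖y p‖ ≤ 1 → ‖p s‖ ≤ C := by
    intro s
    obtain ⟨A, hA⟩ := (isCompact_closedBall (0 : Fin r → ℂ) 1).exists_bound_of_continuousOn
      (f := fun z => ∑ k ∈ Finset.range (m s).natDegree, ‖eval z ((m s).coeff k)‖)
      (continuous_finsetSum _ fun k _ => (continuous_eval _).norm).continuousOn
    refine ⟨max 1 A, lt_max_of_lt_left one_pos, fun p hp hy => ?_⟩
    by_contra hcon
    obtain ⟨h2, h3⟩ := max_lt_iff.1 (not_le.1 hcon)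
    have h4 := hm0 s p hp
    rw [Polynomial.eval₂_eq_sum_range, Finset.sum_range_succ, (hm s).coeff_natDegree, map_one,
      one_mul, add_eq_zero_iff_eq_neg'] at h4
    have h5 := (Real.le_norm_self _).trans (hA (y p) (mem_closedBall_zero_iff.2 hy))
    set d := (m s).natDegree
    have h6 : ‖p s‖ ^ d ≤ A * ‖p s‖ ^ (d - 1) := by
      rw [← norm_pow, h4, norm_neg]
      refine (norm_sum_le _ _).trans (le_trans ?_
        (mul_le_mul_of_nonneg_right h5 (by positivity)))
      rw [Finset.sum_mul]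
      refine Finset.sum_le_sum fun k hk => ?_
      rw [norm_mul, norm_pow]
      have := Finset.mem_range.1 hk
      exact mul_le_mul_of_nonneg_left (pow_le_pow_right₀ h2.le (by omega)) (norm_nonneg _)
    rcases Nat.eq_zero_or_pos d with h7 | h7
    · simp [h7] at h4
    · obtain ⟨e, he⟩ : ∃ e, d = e + 1 := ⟨d - 1, by omega⟩
      rw [he, Nat.add_sub_cancel, pow_succ'] at h6
      exact absurd (le_of_mul_le_mul_right h6 (by positivity)) (not_le.2 h3)
  choose C hC hC' using h1
  have h2 : ∀ p ∈ V, ‖y p‖ ≤ 1 → ‖p‖ ≤ 1 + ∑ s, C s := fun p hp hy =>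
    (pi_norm_le_iff_of_nonneg (add_nonneg zero_le_one
      (Finset.sum_nonneg fun s _ => (hC s).le))).2 fun s => (hC' s p hp hy).trans
        (le_add_of_nonneg_of_le zero_le_one
          (Finset.single_le_sum (fun s _ => (hC s).le) (Finset.mem_univ s)))
  have h3 : 0 < 1 + ∑ s, C s :=
    add_pos_of_pos_of_nonneg one_pos (Finset.sum_nonneg fun s _ => (hC s).le)
  refine ⟨_, h3, fun p hp => le_of_forall_pos_le_add fun ε hε => ?_⟩
  have h4 : 0 < ‖y p‖ + ε / (1 + ∑ s, C s) := by positivity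
  have h5 := h2 _ (hV ((‖y p‖ + ε / (1 + ∑ s, C s) : ℝ) : ℂ)⁻¹ p hp) (by
    rw [map_smul, norm_smul, norm_inv, Complex.norm_real, Real.norm_of_nonneg h4.le,
      inv_mul_le_iff₀ h4, mul_one]
    exact le_add_of_nonneg_right (by positivity))
  rw [norm_smul, norm_inv, Complex.norm_real, Real.norm_of_nonneg h4.le, inv_mul_le_iff₀ h4,
    add_mul, div_mul_cancel₀ _ h3.ne', mul_comm] at h5
  exact h5

/-- Linear Noether normalisation of a cone. -/
theorem noe_cone {σ : Type*} [Fintype σ] {V : Set (σ → ℂ)} (hV : IsCone V) (hne : V.Nonempty) :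
    ∃ (r : ℕ) (c : Fin r → σ → ℂ) (C : ℝ), 0 < C ∧ (∀ p ∈ V, ‖p‖ ≤ C * ‖lm c p‖) ∧
      (∀ Q : MvPolynomial (Fin r) ℂ, (∀ p ∈ V, eval (lm c p) Q = 0) → Q = 0) ∧
      ∀ s, ∃ m : Polynomial (MvPolynomial (Fin r) ℂ), m.Monic ∧
        ∀ p ∈ V, m.eval₂ (eval (lm c p)) (p s) = 0 := by
  have := hne.to_subtype
  obtain ⟨r, c, h1, h2⟩ := lin_noether fun (s : σ) (p : V) => p.1 s
  have key : ∀ p : V, (Pi.evalAlgHom ℂ (fun _ : V => ℂ) p).comp
      (aeval fun i => ∑ s, c i s • fun p : V => p.1 s) = aeval (lm c p) := fun p =>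
    MvPolynomial.algHom_ext fun i => by simp [lm_apply]
  have h3 : ∀ s, ∃ m : Polynomial (MvPolynomial (Fin r) ℂ), m.Monic ∧
      ∀ p ∈ V, m.eval₂ (eval (lm c p)) (p s) = 0 := by
    intro s
    obtain ⟨m, hm, hm0⟩ := h2 s
    refine ⟨m, hm, fun p hp => ?_⟩
    have h4 := congrArg (Pi.evalAlgHom ℂ (fun _ : V => ℂ) ⟨p, hp⟩).toRingHom hm0
    rw [Polynomial.hom_eval₂, map_zero] at h4
    refine Eq.trans ?_ h4
    congr 1
    refine RingHom.ext fun q => ?_
    exact (DFunLike.congr_fun (key ⟨p, hp⟩) q).symm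
  obtain ⟨C, hC, hC'⟩ := cone_bound hV (lm c) h3
  refine ⟨r, c, C, hC, hC', fun Q hQ => algebraicIndependent_iff.1 h1 Q (funext fun p => ?_), h3⟩
  exact (DFunLike.congr_fun (key p) Q).trans (hQ p p.2)

theorem eval_smul_hom {σ : Type*} {Q : MvPolynomial σ ℂ} {d : ℕ} (hQ : Q.IsHomogeneous d) (a : ℂ)
    (p : σ → ℂ) : eval (a • p) Q = a ^ d * eval p Q := by
  rw [eval_eq, eval_eq, Finset.mul_sum]
  refine Finset.sum_congr rfl fun m hm => ?_
  have h1 : ∑ i ∈ m.support, m i = d := (hQ.degree_eq_sum_deg_support hm).symm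
  simp only [Pi.smul_apply, smul_eq_mul, mul_pow]
  rw [Finset.prod_mul_distrib, Finset.prod_pow_eq_pow_sum, h1]
  ring

/-- The homogeneous components of a polynomial that vanishes on a cone vanish on it. -/
theorem hom_comp_zero {σ : Type*} {S : Set (σ → ℂ)} (hS : ∀ a : ℂ, a ≠ 0 → ∀ p ∈ S, a • p ∈ S)
    {Q : MvPolynomial σ ℂ} (hQ : ∀ p ∈ S, eval p Q = 0) (d : ℕ) :
    ∀ p ∈ S, eval p (homogeneousComponent d Q) = 0 := by
  intro p hp
  by_cases hd : Q.totalDegree < d
  · rw [homogeneousComponent_eq_zero d Q hd, map_zero]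
  set f : Polynomial ℂ := ∑ i ∈ Finset.range (Q.totalDegree + 1),
    Polynomial.monomial i (eval p (homogeneousComponent i Q)) with hf
  have h1 : f = 0 := by
    refine Polynomial.eq_zero_of_infinite_isRoot f
      (Set.Infinite.mono (s := ({0} : Set ℂ)ᶜ) (fun a ha => ?_) (Set.finite_singleton 0).infinite_compl)
    have h2 := hQ _ (hS a ha p hp)
    rw [← sum_homogeneousComponent Q, map_sum] at h2
    rw [mem_ofPred, Polynomial.IsRoot, hf, Polynomial.eval_finsetSum, ← h2]
    refine Finset.sum_congr rfl fun i _ => ?_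
    rw [Polynomial.eval_monomial, eval_smul_hom (homogeneousComponent_isHomogeneous i Q), mul_comm]
  have h3 := congrArg (Polynomial.coeff · d) h1
  simpa [hf, Polynomial.coeff_monomial, Nat.lt_succ_iff, not_lt.1 hd] using h3

/-- A non-zero polynomial that vanishes on a cone can be taken homogeneous. -/
theorem homc {σ : Type*} {S : Set (σ → ℂ)} (hS : ∀ a : ℂ, a ≠ 0 → ∀ p ∈ S, a • p ∈ S)
    {Q : MvPolynomial σ ℂ} (h0 : Q ≠ 0) (hQ : ∀ p ∈ S, eval p Q = 0) :
    ∃ (d : ℕ) (Q' : MvPolynomial σ ℂ), Q' ≠ 0 ∧ Q'.IsHomogeneous d ∧ ∀ p ∈ S, eval p Q' = 0 :=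
  ⟨_, _, Noe.top_ne h0, homogeneousComponent_isHomogeneous _ _, hom_comp_zero hS hQ _⟩

end Pool.Agent.Lib.S3K
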