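import Mathlib

/-! Simultaneous approximation for numbers of modulus one; points of positive density. -/

open scoped Classical Topology ENNReal
open Set Metric Filter MeasureTheory Module

noncomputable section

namespace Pool.Agent.Lib.S3K

/-- The theorem of Dirichlet, with a bound that does not depend on the numbers. -/
theorem dirichlet (κ : Type) [Finite κ] {δ : ℝ} (hδ : 0 < δ) (x : ℕ) : ∃ n₀ : ℕ,
    ∀ ζ : κ → ℂ, (∀ j, ‖ζ j‖ = 1) → ∃ n, x < n ∧ n ≤ n₀ ∧ ∀ j, ‖ζ j ^ n - 1‖ < δ := by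
  have := Fintype.ofFinite κ
  obtain ⟨t, -, ht, hc⟩ := finite_cover_balls_of_compact
    (isCompact_closedBall (0 : κ → ℂ) 1) (half_pos hδ)
  refine ⟨(x + 1) * ht.toFinset.card, fun ζ hζ => ?_⟩
  have h1 : ∀ i : ℕ, ∃ c ∈ ht.toFinset, (fun j => ζ j ^ ((x + 1) * i)) ∈ ball c (δ / 2) := fun i => by
    have h2 : (fun j => ζ j ^ ((x + 1) * i)) ∈ closedBall (0 : κ → ℂ) 1 := by
      rw [mem_closedBall_zero_iff, pi_norm_le_iff_of_nonneg zero_le_one]
      intro j
      rw [norm_pow, hζ, one_pow]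
    simpa using hc h2
  choose c hc1 hc2 using h1
  have key : ∀ i i' : ℕ, i < i' → i' ≤ ht.toFinset.card → c i = c i' →
      ∃ n, x < n ∧ n ≤ (x + 1) * ht.toFinset.card ∧ ∀ j, ‖ζ j ^ n - 1‖ < δ := by
    intro i i' hi hi' he
    obtain ⟨k, rfl⟩ := Nat.exists_eq_add_of_lt hi
    refine ⟨(x + 1) * (k + 1), by nlinarith, Nat.mul_le_mul_left _ (by omega), fun j => ?_⟩
    have h3 := (dist_triangle_right _ _ (c i)).trans_lt
      (add_lt_add (he ▸ hc2 (i + k + 1)) (hc2 i))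
    have h4 := (dist_le_pi_dist _ _ j).trans_lt h3
    rw [add_halves, dist_eq_norm, add_assoc, mul_add, pow_add, ← mul_sub_one, norm_mul, norm_pow,
      hζ, one_pow, one_mul] at h4
    exact h4
  obtain ⟨i, hi, i', hi', hne, he⟩ := Finset.exists_ne_map_eq_of_card_lt_of_maps_to
    (s := Finset.range (ht.toFinset.card + 1)) (t := ht.toFinset) (by simp) fun i _ => hc1 i
  rw [Finset.mem_range, Nat.lt_succ_iff] at hi hi'
  rcases lt_or_gt_of_ne hne with h | h
  · exact key i i' h hi' he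
  · exact key i' i h hi he.symm

/-- Almost every point has positive lower density. -/
theorem dens {V : Type} [NormedAddCommGroup V] [NormedSpace ℝ V] [FiniteDimensional ℝ V]
    [MeasurableSpace V] [BorelSpace V] (ν : Measure V) [IsFiniteMeasure ν] :
    ∀ᵐ z ∂ν, ∃ c : ℝ, 0 < c ∧ ∀ᶠ r in 𝓝[>] (0 : ℝ),
      c * r ^ finrank ℝ V ≤ ν.real (closedBall z r) := by
  let μ : Measure V := Measure.addHaar
  filter_upwards [Besicovitch.ae_tendsto_rnDeriv μ ν, Measure.rnDeriv_lt_top μ ν] with z h1 h2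
  have h3 : μ.rnDeriv ν z + 1 ≠ ∞ := by simp [h2.ne]
  have h4 : 0 < μ.real (ball 0 1) :=
    ENNReal.toReal_pos (measure_ball_pos μ _ one_pos).ne' measure_ball_lt_top.ne
  have h5 : 0 < (μ.rnDeriv ν z + 1).toReal := ENNReal.toReal_pos (by simp) h3
  refine ⟨μ.real (ball 0 1) / (μ.rnDeriv ν z + 1).toReal, div_pos h4 h5, ?_⟩
  filter_upwards [h1.eventually (gt_mem_nhds (ENNReal.lt_add_right h2.ne one_ne_zero)),
    self_mem_nhdsWithin] with r h6 hr
  have h7 := ENNReal.toReal_mono (ENNReal.mul_ne_top h3 (measure_ne_top ν _))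
    ((ENNReal.div_le_iff_le_mul (Or.inr h3) (Or.inr (by simp))).1 h6.le)
  rw [Measure.addHaar_closedBall μ z (le_of_lt hr), ENNReal.toReal_mul, ENNReal.toReal_mul,
    ENNReal.toReal_ofReal (pow_nonneg (le_of_lt hr) _)] at h7
  rw [div_mul_eq_mul_div, div_le_iff₀ h5, mul_comm, mul_comm (ν.real _)]
  exact h7

end Pool.Agent.Lib.S3K
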