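import Pool.Agent.Lib.S3K.Sheet
import Pool.Agent.Lib.S3K.Noe

/-! Project S3, kit: a combination that vanishes to a high order along a fibre. -/

open Finset MvPolynomial

noncomputable section

namespace Pool.Agent.Lib.S3K

/-- A polynomial without small monomials. -/
theorem small {w N : ℕ} (B : MvPolynomial (Fin w) ℂ)
    (h : ∀ α : Fin w → Fin N, coeff (Finsupp.equivFunOnFinite.symm fun i => (α i : ℕ)) B = 0) :
    ∃ C, 0 ≤ C ∧ ∀ u : Fin w → ℂ, ‖u‖ ≤ 1 → ‖eval u B‖ ≤ C * ‖u‖ ^ N := by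
  classical
  refine ⟨∑ m ∈ B.support, ‖coeff m B‖, sum_nonneg fun _ _ => norm_nonneg _, fun u hu => ?_⟩
  rw [eval_eq', Finset.sum_mul]
  refine (norm_sum_le _ _).trans (sum_le_sum fun m hm => ?_)
  rw [norm_mul, norm_prod]
  refine mul_le_mul_of_nonneg_left ?_ (norm_nonneg _)
  have : ∃ i, N ≤ m i := by
    by_contra hc
    push Not at hc
    refine mem_support_iff.1 hm ?_
    have e : m = Finsupp.equivFunOnFinite.symm fun i => ((⟨m i, hc i⟩ : Fin N) : ℕ) := by
      ext i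
      simp
    rw [e]
    exact h fun i => ⟨m i, hc i⟩
  obtain ⟨i, hi⟩ := this
  rw [← mul_prod_erase _ _ (mem_univ i), norm_pow]
  have h1 : ∏ j ∈ univ.erase i, ‖u j ^ m j‖ ≤ 1 := prod_le_one (fun _ _ => norm_nonneg _)
    fun j _ => by
      rw [norm_pow]
      exact pow_le_one₀ (norm_nonneg _) ((norm_le_pi_norm u j).trans hu)
  calc ‖u i‖ ^ m i * ∏ j ∈ univ.erase i, ‖u j ^ m j‖ ≤ ‖u‖ ^ m i * 1 :=
        mul_le_mul (pow_le_pow_left₀ (norm_nonneg _) (norm_le_pi_norm u i) _) h1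
          (prod_nonneg fun _ _ => norm_nonneg _) (by positivity)
    _ ≤ ‖u‖ ^ N := by
        rw [mul_one]
        exact pow_le_pow_of_le_one (norm_nonneg _) hu hi

/-- The ring of functions on `V` is a finite module over the polynomials in `y`. -/
theorem fin_gen {σ : Type} [Fintype σ] {V : Set (σ → ℂ)} {r : ℕ} (c : Fin r → σ → ℂ)
    (hI : ∀ s, ∃ m : Polynomial (MvPolynomial (Fin r) ℂ), m.Monic ∧
      ∀ p ∈ V, m.eval₂ (eval (lm c p)) (p s) = 0) :
    ∃ (e : ℕ) (g : Fin e → MvPolynomial σ ℂ), ∀ P : MvPolynomial σ ℂ,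
      ∃ A : Fin e → MvPolynomial (Fin r) ℂ, ∀ x ∈ V,
        eval x P = ∑ t, eval (lm c x) (A t) * eval x (g t) := by
  classical
  let I : Ideal (MvPolynomial σ ℂ) := ⨅ x ∈ V, RingHom.ker (eval x)
  have mem : ∀ f, f ∈ I ↔ ∀ x ∈ V, eval x f = 0 := fun f => by
    simp [I, RingHom.mem_ker]
  let y : Fin r → MvPolynomial σ ℂ := fun i => ∑ s, C (c i s) * X s
  have hy : ∀ x Q, eval x (aeval y Q) = eval (lm c x) Q := fun x Q => by
    have : (fun i => eval x (y i)) = lm c x := funext fun i => by simp [y, lm_apply]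
    rw [← this, map_aeval]
    exact congrArg (fun φ => eval₂Hom φ (fun i => eval x (y i)) Q) (RingHom.ext fun t => by simp)
  let _ := ((Ideal.Quotient.mk I).comp (aeval (R := ℂ) y).toRingHom).toAlgebra
  have : Module.Finite (MvPolynomial (Fin r) ℂ) (MvPolynomial σ ℂ ⧸ I) := Sheet.fin I y fun s => by
    obtain ⟨m, h1, h2⟩ := hI s
    refine ⟨m, h1, (mem _).2 fun x hx => ?_⟩
    rw [Polynomial.hom_eval₂, ← h2 x hx, eval_X]
    exact congrArg (fun φ => Polynomial.eval₂ φ (x s) m) (RingHom.ext fun Q => hy x Q)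
  obtain ⟨e, s, hs⟩ := Module.Finite.exists_fin (R := MvPolynomial (Fin r) ℂ)
    (M := MvPolynomial σ ℂ ⧸ I)
  choose g hg using fun t => Ideal.Quotient.mk_surjective (s t)
  refine ⟨e, g, fun P => ?_⟩
  obtain ⟨A, hA⟩ := (Submodule.mem_span_range_iff_exists_fun _).1
    (hs ▸ Submodule.mem_top : Ideal.Quotient.mk I P ∈ _)
  refine ⟨A, fun x hx => ?_⟩
  have h1 : P - ∑ t, aeval y (A t) * g t ∈ I := by
    refine Ideal.Quotient.eq.1 ?_
    rw [← hA, map_sum]
    refine sum_congr rfl fun t _ => ?_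
    rw [map_mul, hg, Algebra.smul_def]
    rfl
  have h2 := (mem _).1 h1 x hx
  simp only [map_sub, map_sum, map_mul, hy] at h2
  exact sub_eq_zero.1 h2

/-- The count of jets along a fibre. -/
theorem jet {σ : Type} [Fintype σ] {V : Set (σ → ℂ)} {w : ℕ} (c : Fin (w + 1) → σ → ℂ)
    (hI : ∀ s, ∃ m : Polynomial (MvPolynomial (Fin (w + 1)) ℂ), m.Monic ∧
      ∀ p ∈ V, m.eval₂ (eval (lm c p)) (p s) = 0) :
    ∃ e : ℕ, ∀ (N : ℕ) (J : Type) [Fintype J] (P : J → MvPolynomial σ ℂ) (Y : Fin w → ℂ),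
      e * N ^ w < Fintype.card J → ∃ t : J → ℂ, t ≠ 0 ∧ ∀ R : ℝ, ∃ C, 0 < C ∧ ∀ x ∈ V, ‖x‖ ≤ R →
        lm c x 0 = 1 → ‖Fin.tail (lm c x) - Y‖ ≤ 1 →
        ‖∑ j, t j * eval x (P j)‖ ≤ C * ‖Fin.tail (lm c x) - Y‖ ^ N := by
  classical
  obtain ⟨e, g, hg⟩ := fin_gen c hI
  refine ⟨e, fun N J _ P Y hJ => ?_⟩
  choose A hA using fun j => hg (P j)
  let z : Fin (w + 1) → MvPolynomial (Fin w) ℂ := Fin.cons 1 fun i => X i + C (Y i)
  let B : J → Fin e → MvPolynomial (Fin w) ℂ := fun j t => aeval z (A j t)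
  let Φ : (J → ℂ) →ₗ[ℂ] (Fin e × (Fin w → Fin N) → ℂ) := LinearMap.pi fun p =>
    ∑ j, coeff (Finsupp.equivFunOnFinite.symm fun i => (p.2 i : ℕ)) (B j p.1) • LinearMap.proj j
  have hk : LinearMap.ker Φ ≠ ⊥ := LinearMap.ker_ne_bot_of_finrank_lt (by simpa using hJ)
  obtain ⟨t, ht, ht0⟩ := (Submodule.ne_bot_iff _).1 hk
  refine ⟨t, ht0, fun R => ?_⟩
  choose K hK0 hK using fun s : Fin e => small (N := N) (∑ j, C (t j) * B j s) fun α => by
    have := congrFun (LinearMap.mem_ker.1 ht) (s, α)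
    simpa [Φ, coeff_sum, mul_comm] using this
  obtain ⟨M, hM⟩ := (isCompact_closedBall (0 : σ → ℂ) R).exists_bound_of_continuousOn
    (f := fun x s => eval x (g s)) (continuous_pi fun s => continuous_eval _).continuousOn
  refine ⟨∑ s, K s * |M| + 1, add_pos_of_nonneg_of_pos
    (sum_nonneg fun s _ => mul_nonneg (hK0 s) (abs_nonneg _)) one_pos, fun x hx hR h0 h1 => ?_⟩
  set u := Fin.tail (lm c x) - Y with hu
  have hB : ∀ j s, eval u (B j s) = eval (lm c x) (A j s) := fun j s => by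
    have : (fun i => eval u (z i)) = lm c x := funext fun i => by
      refine Fin.cases ?_ (fun i => ?_) i
      · simp [z, h0]
      · simp [z, hu, Fin.tail]
    rw [← this, map_aeval]
    exact congrArg (fun φ => eval₂Hom φ (fun i => eval u (z i)) (A j s))
      (RingHom.ext fun t => by simp)
  have e1 : ∑ j, t j * eval x (P j) = ∑ s, eval u (∑ j, C (t j) * B j s) * eval x (g s) := by
    simp only [hA _ x hx, map_sum, map_mul, eval_C, hB, Finset.mul_sum, Finset.sum_mul, mul_assoc]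
    exact sum_comm
  rw [e1, add_mul, Finset.sum_mul]
  refine (norm_sum_le _ _).trans ((sum_le_sum fun s _ => ?_).trans
    (le_add_of_nonneg_right (by positivity)))
  rw [norm_mul, mul_right_comm]
  refine mul_le_mul (hK s u h1) ?_ (norm_nonneg _) (mul_nonneg (hK0 s) (by positivity))
  exact ((norm_le_pi_norm (fun s => eval x (g s)) s).trans
    (hM x (by simpa using hR))).trans (le_abs_self _)

end Pool.Agent.Lib.S3K
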