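import Mathlib

/-! A variety that is finite over an affine space is a union of sheets off a hypersurface. -/

open scoped Topology nonZeroDivisors Polynomial IntermediateField
open Filter Metric

noncomputable section

namespace Pool.Agent.Lib.S3K

namespace Sheet

section alg

variable {R A : Type} [CommRing R] [CommRing A] [IsDomain R] [IsDomain A] [Algebra R A]
  [FaithfulSMul R A]

omit [FaithfulSMul R A] in
theorem norm (a : A) (a0 : a ≠ 0) (ha : IsIntegral R a) :
    ∃ N : R, N ≠ 0 ∧ ∃ b, algebraMap R A N = a * b := by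
  obtain ⟨N, h1, h2⟩ := (Submodule.ne_bot_iff _).1 (Ideal.comap_ne_bot_of_integral_mem (R := R) a0
    (Ideal.mem_span_singleton_self a) ha)
  exact ⟨N, h2, Ideal.mem_span_singleton.1 h1⟩

theorem prim [CharZero R] [Module.Finite R A] :
    ∃ u : A, ∀ a : A, ∃ s : R, s ≠ 0 ∧ ∃ q : R[X], algebraMap R A s * a = Polynomial.aeval u q := by
  let K := FractionRing R
  let L := FractionRing A
  let _ : Algebra K L := FractionRing.liftAlgebra R L
  have : IsScalarTower R K L := FractionRing.isScalarTower_liftAlgebra R L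
  have : FiniteDimensional K L := .of_isLocalization R A R⁰
  obtain ⟨α, hα⟩ := Field.exists_primitive_element K L
  obtain ⟨⟨u, _, s, hs, rfl⟩, e⟩ := IsLocalization.surj (Algebra.algebraMapSubmonoid A R⁰) α
  refine ⟨u, fun a => ?_⟩
  have s0 : algebraMap R K s ≠ 0 :=
    (map_ne_zero_iff _ (IsFractionRing.injective R K)).2 (nonZeroDivisors.ne_zero hs)
  have e' : α = Polynomial.aeval (algebraMap A L u) (Polynomial.C (algebraMap R K s)⁻¹ * .X) := by
    simp only [map_mul, Polynomial.aeval_C, Polynomial.aeval_X, ← e, map_inv₀,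
      ← IsScalarTower.algebraMap_apply]
    rw [mul_comm α, inv_mul_cancel_left₀]
    rw [IsScalarTower.algebraMap_apply R K L]
    exact (map_ne_zero _).2 s0
  have h : algebraMap A L a ∈ (K⟮α⟯).toSubalgebra := by rw [hα]; trivial
  rw [IntermediateField.adjoin_simple_toSubalgebra_of_isAlgebraic (Algebra.IsAlgebraic.isAlgebraic α),
    Algebra.adjoin_singleton_eq_range_aeval] at h
  obtain ⟨p, hp⟩ := h
  obtain ⟨b, hb, eb⟩ := IsLocalization.integerNormalization_spec R⁰
    (p.comp (Polynomial.C (algebraMap R K s)⁻¹ * .X))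
  generalize IsLocalization.integerNormalization (S := K) R⁰ _ = q at eb
  refine ⟨b, nonZeroDivisors.ne_zero hb, q, IsFractionRing.injective A L ?_⟩
  · rw [← Polynomial.aeval_algebraMap_apply, ← Polynomial.aeval_map_algebraMap K, eb,
      ← IsScalarTower.algebraMap_smul K b, map_smul, Polynomial.aeval_comp, ← e', map_mul,
      Algebra.smul_def, ← IsScalarTower.algebraMap_apply, ← IsScalarTower.algebraMap_apply]
    exact congrArg _ hp.symm

theorem sep [CharZero R] [IsIntegrallyClosed R] (u : A) (hu : IsIntegral R u) :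
    ∃ N : R, N ≠ 0 ∧ ∃ p q : R[X],
      p * minpoly R u + q * (minpoly R u).derivative = Polynomial.C N := by
  have d0 : (minpoly R u).derivative ≠ 0 := fun h => by
    have := Polynomial.derivative_eq_zero.1 h
    have := minpoly.natDegree_pos hu
    omega
  let v : Algebra.adjoin R {u} := ⟨u, Algebra.self_mem_adjoin_singleton R u⟩
  have hv : ∀ p : R[X], (Polynomial.aeval v p : Algebra.adjoin R {u}).1 = Polynomial.aeval u p :=
    fun p => (Polynomial.aeval_algHom_apply (Algebra.adjoin R {u}).val v p).symm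
  have : Algebra.IsIntegral R (Algebra.adjoin R {u}) :=
    Algebra.IsIntegral.adjoin fun x hx => by rwa [Set.mem_singleton_iff.1 hx]
  obtain ⟨N, N0, ⟨b, hb⟩, e⟩ := norm (R := R) (Polynomial.aeval v (minpoly R u).derivative)
    (fun h => by
      have h1 := congrArg Subtype.val h
      rw [hv] at h1
      exact (Polynomial.degree_le_of_dvd (minpoly.isIntegrallyClosed_dvd hu h1) d0).not_gt
        (Polynomial.degree_derivative_lt (minpoly.ne_zero hu)))
    (Algebra.IsIntegral.isIntegral _)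
  rw [Algebra.adjoin_singleton_eq_range_aeval] at hb
  obtain ⟨q, rfl⟩ := hb
  have e1 := congrArg Subtype.val e
  obtain ⟨p, hp⟩ := minpoly.isIntegrallyClosed_dvd hu
    (p := Polynomial.C N - q * (minpoly R u).derivative) (by
      rw [map_sub, map_mul, Polynomial.aeval_C, mul_comm, ← hv (minpoly R u).derivative]
      exact sub_eq_zero.2 e1)
  exact ⟨N, N0, p, q, by linear_combination -hp⟩

end alg

variable {τ : Type} [Fintype τ]

theorem cd (q : (MvPolynomial τ ℂ)[X]) :
    ContDiff ℂ 1 fun v : (τ → ℂ) × ℂ => (q.map (MvPolynomial.eval v.1)).eval v.2 := by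
  induction q using Polynomial.induction_on' with
  | add p q hp hq => simpa only [Polynomial.map_add, Polynomial.eval_add] using hp.add hq
  | monomial n a =>
    simp only [Polynomial.map_monomial, Polynomial.eval_monomial]
    exact ((AnalyticOnNhd.eval_mvPolynomial a).contDiff.comp contDiff_fst).mul (contDiff_snd.pow n)

theorem root (P : (MvPolynomial τ ℂ)[X]) (y₀ : τ → ℂ) (w : ℂ)
    (h0 : (P.map (MvPolynomial.eval y₀)).eval w = 0)
    (h1 : (P.map (MvPolynomial.eval y₀)).derivative.eval w ≠ 0) : ∃ t : (τ → ℂ) → ℂ, t y₀ = w ∧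
      ∀ᶠ y in 𝓝 y₀, DifferentiableAt ℂ t y ∧ (P.map (MvPolynomial.eval y)).eval (t y) = 0 := by
  have c := (cd P).contDiffAt (x := (y₀, w))
  have i : (fderiv ℂ (fun v : (τ → ℂ) × ℂ => (P.map (MvPolynomial.eval v.1)).eval v.2) (y₀, w) ∘L
      .inr ℂ (τ → ℂ) ℂ).IsInvertible := by
    refine ⟨ContinuousLinearEquiv.unitsEquivAut ℂ (Units.mk0 _ h1), ?_⟩
    have d := (c.differentiableAt one_ne_zero).hasFDerivAt.comp w (hasFDerivAt_prodMk_right y₀ w)
    rw [d.unique ((P.map (MvPolynomial.eval y₀)).hasDerivAt w).hasFDerivAt]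
    ext
    simp
  refine ⟨c.implicitFunction one_ne_zero i, c.implicitFunction_apply_self _ i,
    (((c.contDiffAt_implicitFunction one_ne_zero i).eventually (by simp)).and
      (c.eventually_apply_implicitFunction one_ne_zero i)).mono fun y e =>
      ⟨e.1.differentiableAt one_ne_zero, e.2.trans h0⟩⟩

theorem roots (P : (MvPolynomial τ ℂ)[X]) (hP : P.Monic) (y₀ : τ → ℂ)
    (hs : (P.map (MvPolynomial.eval y₀)).Separable) : ∃ t : Fin P.natDegree → (τ → ℂ) → ℂ,
      ∀ᶠ y in 𝓝 y₀, (∀ a, DifferentiableAt ℂ (t a) y) ∧ Function.Injective (t · y) ∧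
        ∀ w, (P.map (MvPolynomial.eval y)).eval w = 0 ↔ ∃ a, w = t a y := by
  classical
  have c0 : (P.map (MvPolynomial.eval y₀)).roots.toFinset.card = P.natDegree := by
    rw [Multiset.toFinset_card_of_nodup (Polynomial.nodup_roots hs),
      ← (IsAlgClosed.splits _).natDegree_eq_card_roots, hP.natDegree_map]
  let e := (Finset.equivFinOfCardEq c0).symm
  have he : ∀ a, (P.map (MvPolynomial.eval y₀)).eval (e a).1 = 0 := fun a =>
    Polynomial.isRoot_of_mem_roots (Multiset.mem_toFinset.1 (e a).2)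
  choose t t0 ht using fun a => root P y₀ (e a).1 (he a)
    (by simpa using hs.aeval_derivative_ne_zero (x := (e a).1) (by simpa using he a))
  have ne : ∀ a b, ∀ᶠ y in 𝓝 y₀, t a y = t b y → a = b := fun a b => by
    by_cases h : a = b
    · exact .of_forall fun _ _ => h
    · refine (((ht a).self_of_nhds.1.continuousAt.sub
        (ht b).self_of_nhds.1.continuousAt).eventually_ne (y := 0) ?_).mono fun y ey h => ?_
      · rw [Pi.sub_apply, t0, t0, sub_ne_zero]
        exact fun c => h (e.injective (Subtype.ext c))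
      · exact (ey (sub_eq_zero.2 h)).elim
  refine ⟨t, ((eventually_all.2 ht).and (eventually_all.2 fun a => eventually_all.2 (ne a))).mono
    fun y ey => ⟨fun a => (ey.1 a).1, ey.2, fun w => ⟨fun hw => ?_, ?_⟩⟩⟩
  · have n0 := (hP.map (MvPolynomial.eval y)).ne_zero
    have := Finset.eq_of_subset_of_card_le (s := Finset.univ.image (t · y))
      (t := (P.map (MvPolynomial.eval y)).roots.toFinset) (fun x hx => by
        obtain ⟨a, -, rfl⟩ := Finset.mem_image.1 hx
        exact Multiset.mem_toFinset.2 ((Polynomial.mem_roots n0).2 (ey.1 a).2)) (by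
        rw [Finset.card_image_of_injective _ ey.2, Finset.card_univ, Fintype.card_fin]
        exact (Multiset.toFinset_card_le _).trans
          ((Polynomial.card_roots' _).trans (hP.natDegree_map _).le))
    obtain ⟨a, -, ha⟩ := Finset.mem_image.1
      (this ▸ Multiset.mem_toFinset.2 ((Polynomial.mem_roots n0).2 hw))
    exact ⟨a, ha.symm⟩
  · rintro ⟨a, rfl⟩
    exact (ey.1 a).2

variable {σ : Type} [Fintype σ]

theorem core {A : Type} [CommRing A] [IsDomain A] [Algebra (MvPolynomial τ ℂ) A]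
    [FaithfulSMul (MvPolynomial τ ℂ) A] [Module.Finite (MvPolynomial τ ℂ) A]
    (π : MvPolynomial σ ℂ →+* A) (hπ : Function.Surjective π)
    (hc : ∀ c, π (.C c) = algebraMap (MvPolynomial τ ℂ) A (.C c)) (y : τ → MvPolynomial σ ℂ)
    (hy : ∀ j, π (y j) = algebraMap (MvPolynomial τ ℂ) A (.X j)) :
    ∃ Δ : MvPolynomial τ ℂ, Δ ≠ 0 ∧ ∃ d, 0 < d ∧ ∀ v₀, MvPolynomial.eval v₀ Δ ≠ 0 →
      ∃ r : Fin d → (τ → ℂ) → σ → ℂ, ∀ᶠ v in 𝓝 v₀, (∀ a, DifferentiableAt ℂ (r a) v) ∧
        Function.Injective (r · v) ∧ ∀ z, ((∀ f, π f = 0 → MvPolynomial.eval z f = 0) ∧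
          ∀ j, MvPolynomial.eval z (y j) = v j) ↔ ∃ a, z = r a v := by
  obtain ⟨u, hu⟩ := prim (R := MvPolynomial τ ℂ) (A := A)
  obtain ⟨u', rfl⟩ := hπ u
  choose s s0 q hq using fun i => hu (π (.X i))
  have iu : IsIntegral (MvPolynomial τ ℂ) (π u') := Algebra.IsIntegral.isIntegral _
  obtain ⟨N, N0, p, p', hN⟩ := sep _ iu
  refine ⟨N * ∏ i, s i, mul_ne_zero N0 (Finset.prod_ne_zero_iff.2 fun i _ => s0 i), _,
    minpoly.natDegree_pos iu, fun v₀ h0 => ?_⟩
  rw [map_mul, map_prod, mul_ne_zero_iff, Finset.prod_ne_zero_iff] at h0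
  obtain ⟨t, ht⟩ := roots _ (minpoly.monic iu) v₀ (by
    have := congrArg (Polynomial.map (MvPolynomial.eval v₀)) hN
    simp only [Polynomial.map_add, Polynomial.map_mul, Polynomial.map_C,
      ← Polynomial.derivative_map] at this
    refine ⟨.C (MvPolynomial.eval v₀ N)⁻¹ * p.map (MvPolynomial.eval v₀),
      .C (MvPolynomial.eval v₀ N)⁻¹ * p'.map (MvPolynomial.eval v₀), ?_⟩
    rw [mul_assoc, mul_assoc, ← mul_add, this, ← map_mul, inv_mul_cancel₀ h0.1, map_one])
  have ds : ∀ i v, DifferentiableAt ℂ (fun v : τ → ℂ => MvPolynomial.eval v (s i)) v := fun i v =>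
    (AnalyticOnNhd.eval_mvPolynomial (s i) v trivial).differentiableAt
  refine ⟨fun a v i => ((q i).map (MvPolynomial.eval v)).eval (t a v) / MvPolynomial.eval v (s i),
    (ht.and (eventually_all.2 fun i =>
      (ds i v₀).continuousAt.eventually_ne (h0.2 i (Finset.mem_univ _)))).mono
        fun v ⟨⟨h1, h2, h3⟩, h4⟩ => ?_⟩
  have key : ∀ a f g, π f = Polynomial.aeval (π u') g → MvPolynomial.eval
      (fun i => ((q i).map (MvPolynomial.eval v)).eval (t a v) / MvPolynomial.eval v (s i)) f =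
      (g.map (MvPolynomial.eval v)).eval (t a v) := by
    intro a f g e
    generalize hz : (fun i => ((q i).map (MvPolynomial.eval v)).eval (t a v) /
      MvPolynomial.eval v (s i)) = z
    have ind : ∀ f, ∃ (b : MvPolynomial τ ℂ) (g : (MvPolynomial τ ℂ)[X]),
        MvPolynomial.eval v b ≠ 0 ∧ algebraMap _ A b * π f = Polynomial.aeval (π u') g ∧
        (g.map (MvPolynomial.eval v)).eval (t a v) = MvPolynomial.eval v b * MvPolynomial.eval z f := by
      intro f
      induction f using MvPolynomial.induction_on with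
      | C c => exact ⟨1, .C (.C c), by simp, by simp [hc], by simp⟩
      | add f f' h h' =>
        obtain ⟨b, g, b0, e, e1⟩ := h
        obtain ⟨b', g', b0', e', e1'⟩ := h'
        refine ⟨b * b', .C b' * g + .C b * g', by simp [b0, b0'], ?_, ?_⟩
        · simp only [map_mul, map_add, Polynomial.aeval_C, ← e, ← e']; ring
        · simp only [map_mul, map_add, Polynomial.map_add, Polynomial.map_mul, Polynomial.map_C,
            Polynomial.eval_add, Polynomial.eval_mul, Polynomial.eval_C, e1, e1']; ring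
      | mul_X f i h =>
        obtain ⟨b, g, b0, e, e1⟩ := h
        refine ⟨b * s i, g * q i, by simp [b0, h4 i], ?_, ?_⟩
        · simp only [map_mul, ← e, ← hq]; ring
        · have := h4 i
          simp only [map_mul, Polynomial.map_mul, Polynomial.eval_mul, e1, MvPolynomial.eval_X,
            ← congrFun hz i]
          field_simp
    obtain ⟨b, g', b0, e', e1⟩ := ind f
    obtain ⟨w, hw⟩ := minpoly.isIntegrallyClosed_dvd iu (p := .C b * g - g') (by
      rw [map_sub, map_mul, Polynomial.aeval_C, ← e, e', sub_self])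
    have := congrArg (fun g => (g.map (MvPolynomial.eval v)).eval (t a v)) hw
    simp only [Polynomial.map_sub, Polynomial.map_mul, Polynomial.map_C, Polynomial.eval_sub,
      Polynomial.eval_mul, Polynomial.eval_C, e1, (h3 _).2 ⟨a, rfl⟩, zero_mul] at this
    exact mul_left_cancel₀ b0 (sub_eq_zero.1 this).symm
  refine ⟨fun a => differentiableAt_pi.2 fun i => ?_, fun a b e => h2 ?_,
    fun z => ⟨fun ⟨hz, hv⟩ => ?_, ?_⟩⟩
  · simp only [div_eq_mul_inv]
    exact (((cd (q i)).differentiable one_ne_zero _).comp v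
      (differentiableAt_id.prodMk (h1 a))).mul ((ds i v).inv (h4 i))
  · have := (key a u' .X (by simp)).symm.trans
      ((congrArg (MvPolynomial.eval · u') e).trans (key b u' .X (by simp)))
    simpa using this
  · let χ : A →+* ℂ := π.liftOfSurjective hπ ⟨MvPolynomial.eval z, hz⟩
    have c1 : ∀ f, χ (π f) = MvPolynomial.eval z f := fun f =>
      π.liftOfSurjective_comp_apply hπ _ f
    have c2 : χ.comp (algebraMap _ A) = MvPolynomial.eval v := MvPolynomial.ringHom_ext
      (fun c => by simp [← hc, c1]) fun j => by simp [← hy, c1, hv]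
    have c3 : ∀ g : (MvPolynomial τ ℂ)[X], χ (Polynomial.aeval (π u') g) =
        (g.map (MvPolynomial.eval v)).eval (χ (π u')) := fun g => by
      rw [Polynomial.aeval_def, Polynomial.hom_eval₂, c2, Polynomial.eval_map]
    obtain ⟨a, ha⟩ := (h3 (χ (π u'))).1 (by rw [← c3, minpoly.aeval, map_zero])
    refine ⟨a, funext fun i => ?_⟩
    rw [eq_div_iff (h4 i), ← ha, ← c3, ← hq, map_mul, c1, MvPolynomial.eval_X, ← c2, mul_comm]
    rfl
  · rintro ⟨a, rfl⟩
    exact ⟨fun f h => (key a f 0 (by simpa using h)).trans (by simp),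
      fun j => (key a _ (.C (.X j)) (by simp [hy])).trans (by simp)⟩

omit [Fintype τ] in
theorem fin (I : Ideal (MvPolynomial σ ℂ)) (y : τ → MvPolynomial σ ℂ)
    (hI : ∀ i, ∃ p : (MvPolynomial τ ℂ)[X], p.Monic ∧
      p.eval₂ (MvPolynomial.aeval (R := ℂ) y).toRingHom (.X i) ∈ I) :
    ((Ideal.Quotient.mk I).comp (MvPolynomial.aeval (R := ℂ) y).toRingHom).Finite := by
  let _ := ((Ideal.Quotient.mk I).comp (MvPolynomial.aeval (R := ℂ) y).toRingHom).toAlgebra
  have h := fg_adjoin_of_finite (R := MvPolynomial τ ℂ)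
    (Set.finite_range fun i => Ideal.Quotient.mk I (.X i)) (by
      rintro _ ⟨i, rfl⟩
      obtain ⟨p, h1, h2⟩ := hI i
      refine ⟨p, h1, ?_⟩
      rw [← Ideal.Quotient.eq_zero_iff_mem, Polynomial.hom_eval₂] at h2
      exact h2)
  refine ⟨Eq.subst (motive := Submodule.FG) (eq_top_iff.2 fun a _ => ?_) h⟩
  obtain ⟨f, rfl⟩ := Ideal.Quotient.mk_surjective a
  change _ ∈ Algebra.adjoin _ _
  induction f using MvPolynomial.induction_on with
  | C c =>
    have : Ideal.Quotient.mk I (.C c) = algebraMap (MvPolynomial τ ℂ) _ (.C c) := by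
      simp [RingHom.algebraMap_toAlgebra]
    exact this ▸ Subalgebra.algebraMap_mem _ _
  | add f g hf hg => rw [map_add]; exact add_mem (hf trivial) (hg trivial)
  | mul_X f i hf => rw [map_mul]; exact mul_mem (hf trivial) (Algebra.subset_adjoin ⟨i, rfl⟩)

end Sheet

variable {σ τ : Type} [Fintype σ] [Fintype τ]

/-- The sheets. -/
theorem sheets (I : Ideal (MvPolynomial σ ℂ)) (hp : I.IsPrime) (y : τ → MvPolynomial σ ℂ)
    (hi : ∀ Q : MvPolynomial τ ℂ, MvPolynomial.aeval y Q ∈ I → Q = 0)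
    (hI : ∀ i, ∃ p : (MvPolynomial τ ℂ)[X], p.Monic ∧
      p.eval₂ (MvPolynomial.aeval (R := ℂ) y).toRingHom (.X i) ∈ I) :
    ∃ Δ : MvPolynomial τ ℂ, Δ ≠ 0 ∧ ∃ d, 0 < d ∧ ∀ v₀, MvPolynomial.eval v₀ Δ ≠ 0 →
      ∃ r : Fin d → (τ → ℂ) → σ → ℂ, ∀ᶠ v in 𝓝 v₀, (∀ a, DifferentiableAt ℂ (r a) v) ∧
        Function.Injective (r · v) ∧ ∀ z, ((∀ f ∈ I, MvPolynomial.eval z f = 0) ∧
          ∀ j, MvPolynomial.eval z (y j) = v j) ↔ ∃ a, z = r a v := by
  let _ := ((Ideal.Quotient.mk I).comp (MvPolynomial.aeval (R := ℂ) y).toRingHom).toAlgebra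
  have : Module.Finite (MvPolynomial τ ℂ) (MvPolynomial σ ℂ ⧸ I) := Sheet.fin I y hI
  have : FaithfulSMul (MvPolynomial τ ℂ) (MvPolynomial σ ℂ ⧸ I) :=
    (faithfulSMul_iff_algebraMap_injective _ _).2 ((injective_iff_map_eq_zero _).2 fun Q h =>
      hi Q (Ideal.Quotient.eq_zero_iff_mem.1 h))
  simpa only [Ideal.Quotient.eq_zero_iff_mem] using Sheet.core (Ideal.Quotient.mk I)
    Ideal.Quotient.mk_surjective (fun c => by simp [RingHom.algebraMap_toAlgebra]) y
    fun j => by simp [RingHom.algebraMap_toAlgebra]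

omit [Fintype τ] in
/-- The norm. -/
theorem norm_dvd (I : Ideal (MvPolynomial σ ℂ)) (hp : I.IsPrime) (y : τ → MvPolynomial σ ℂ)
    (hI : ∀ i, ∃ p : (MvPolynomial τ ℂ)[X], p.Monic ∧
      p.eval₂ (MvPolynomial.aeval (R := ℂ) y).toRingHom (.X i) ∈ I)
    (f : MvPolynomial σ ℂ) (hf : f ∉ I) : ∃ N : MvPolynomial τ ℂ, N ≠ 0 ∧
      ∃ g, MvPolynomial.aeval y N - f * g ∈ I := by
  let _ := ((Ideal.Quotient.mk I).comp (MvPolynomial.aeval (R := ℂ) y).toRingHom).toAlgebra
  have : Module.Finite (MvPolynomial τ ℂ) (MvPolynomial σ ℂ ⧸ I) := Sheet.fin I y hI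
  obtain ⟨N, N0, b, e⟩ := Sheet.norm (R := MvPolynomial τ ℂ) (Ideal.Quotient.mk I f)
    (mt Ideal.Quotient.eq_zero_iff_mem.1 hf) (Algebra.IsIntegral.isIntegral _)
  obtain ⟨g, rfl⟩ := Ideal.Quotient.mk_surjective b
  exact ⟨N, N0, g, Ideal.Quotient.eq.1 e⟩

end Pool.Agent.Lib.S3K
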