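import Mathlib

/-! Ratios of forms with a relation of bounded degree are ratios of forms of a fixed degree. -/

namespace Pool.Agent.Lib.S3K

open MvPolynomial
open scoped nonZeroDivisors

namespace Rat

/-- the conductor of the normalisation of an affine domain is not zero -/
theorem cond (A : Type) [CommRing A] [IsDomain A] [Algebra ℂ A] [Algebra.FiniteType ℂ A] :
    ∃ Δ : A, Δ ≠ 0 ∧ ∀ z : FractionRing A, IsIntegral A z →
      ∃ p : A, algebraMap A (FractionRing A) p = algebraMap A (FractionRing A) Δ * z := by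
  obtain ⟨s, g, hg, hf⟩ := exists_finite_inj_algHom_of_fg ℂ A
  let R := MvPolynomial (Fin s) ℂ
  let _ : Algebra R A := g.toRingHom.toAlgebra
  have : Module.Finite R A := hf
  have : FaithfulSMul R A := (faithfulSMul_iff_algebraMap_injective R A).2 hg
  let K := FractionRing R
  let L := FractionRing A
  let _ : Algebra K L := FractionRing.liftAlgebra R L
  have : IsScalarTower R K L := FractionRing.isScalarTower_liftAlgebra R L
  have : FiniteDimensional K L := .of_isLocalization R A R⁰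
  have : Module.Finite R (integralClosure R L) := IsIntegralClosure.finite R K L _
  obtain ⟨S, hS⟩ := Module.Finite.fg_top (R := R) (M := integralClosure R L)
  classical
  obtain ⟨b, hb⟩ := IsLocalization.exist_integer_multiples_of_finset A⁰
    (S.image fun w : integralClosure R L => (w : L))
  refine ⟨b, nonZeroDivisors.coe_ne_zero b, fun z hz => ?_⟩
  have h1 : ∀ w ∈ Submodule.span R (S : Set (integralClosure R L)),
      ∃ p : A, algebraMap A L p = algebraMap A L b * (w : L) := by
    intro w hw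
    induction hw using Submodule.span_induction with
    | mem w hw =>
      obtain ⟨p, hp⟩ := hb w (Finset.mem_image_of_mem _ hw)
      exact ⟨p, hp.trans (Algebra.smul_def _ _)⟩
    | zero => exact ⟨0, by simp⟩
    | add u v _ _ hu hv =>
      obtain ⟨p, hp⟩ := hu
      obtain ⟨q, hq⟩ := hv
      exact ⟨p + q, by rw [map_add, hp, hq, Subalgebra.coe_add, mul_add]⟩
    | smul c u _ hu =>
      obtain ⟨p, hp⟩ := hu
      refine ⟨algebraMap R A c * p, ?_⟩
      rw [map_mul, hp, Subalgebra.coe_smul, Algebra.smul_def,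
        ← IsScalarTower.algebraMap_apply R A L, mul_left_comm]
  exact h1 ⟨z, isIntegral_trans (A := A) z hz⟩ (hS ▸ Submodule.mem_top)

variable {σ : Type}

theorem comp_mul (f : MvPolynomial σ ℂ) {g : MvPolynomial σ ℂ} {j : ℕ} (hg : g.IsHomogeneous j)
    (i : ℕ) : homogeneousComponent (i + j) (f * g) = homogeneousComponent i f * g := by
  classical
  let _ := gradedAlgebra (σ := σ) (R := ℂ)
  have h := DirectSum.coe_decompose_mul_add_of_right_mem (homogeneousSubmodule σ ℂ) (a := f)
    (i := i) ((mem_homogeneousSubmodule j g).2 hg)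
  rwa [← decomposition.decompose'_apply, ← decomposition.decompose'_apply]

theorem comp_ne {I : Ideal (MvPolynomial σ ℂ)} {f : MvPolynomial σ ℂ} (hf : f ∉ I) :
    ∃ d, homogeneousComponent d f ∉ I := by
  by_contra h
  push Not at h
  exact hf (sum_homogeneousComponent f ▸ I.sum_mem fun d _ => h d)

/-- the top coefficient of a relation times the ratio is integral -/
theorem top {A L : Type} [CommRing A] [Field L] [Algebra A L] (u v : A)
    (hv : algebraMap A L v ≠ 0) (k : ℕ) (a : ℕ → A) (ha : ∃ l ≤ k, a l ≠ 0)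
    (h : ∑ l ∈ Finset.range (k + 1), a l * u ^ l * v ^ (k - l) = 0) :
    ∃ l ≤ k, a l ≠ 0 ∧
      IsIntegral A (algebraMap A L (a l) * (algebraMap A L u / algebraMap A L v)) := by
  set p : Polynomial A := ∑ l ∈ Finset.range (k + 1), Polynomial.monomial l (a l) with hp
  have hc : ∀ l, p.coeff l = if l ≤ k then a l else 0 := fun l => by
    simp [hp, Polynomial.coeff_monomial]
  have h0 : p ≠ 0 := by
    obtain ⟨l, hl, h1⟩ := ha
    intro h2
    have := hc l
    rw [h2, if_pos hl, Polynomial.coeff_zero] at this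
    exact h1 this.symm
  have h1 : Polynomial.aeval (algebraMap A L u / algebraMap A L v) p = 0 := by
    apply mul_right_cancel₀ (pow_ne_zero k hv)
    have h2 := congrArg (algebraMap A L) h
    rw [map_sum, map_zero] at h2
    rw [zero_mul, ← h2, hp, map_sum, Finset.sum_mul]
    refine Finset.sum_congr rfl fun l hl => ?_
    obtain ⟨j, rfl⟩ := Nat.exists_eq_add_of_le (Nat.lt_succ_iff.1 (Finset.mem_range.1 hl))
    rw [Polynomial.aeval_monomial, map_mul, map_mul, map_pow, map_pow, Nat.add_sub_cancel_left,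
      pow_add, div_pow]
    have := pow_ne_zero l hv
    field_simp
  have h2 := isIntegral_leadingCoeff_smul p _ h1
  have h3 : p.leadingCoeff ≠ 0 := Polynomial.leadingCoeff_ne_zero.2 h0
  have h4 := hc p.natDegree
  rw [Polynomial.coeff_natDegree] at h4
  by_cases h5 : p.natDegree ≤ k
  · rw [if_pos h5] at h4
    exact ⟨_, h5, h4 ▸ h3, by rwa [← h4, ← Algebra.smul_def]⟩
  · rw [if_neg h5] at h4
    exact absurd h4 h3

end Rat

/-- a relation with coefficients of degree `m` makes the ratio a ratio of forms of degree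
`d₀ + m` -/
theorem rat {σ : Type} [Finite σ] (I : Ideal (MvPolynomial σ ℂ)) (hp : I.IsPrime)
    (hh : ∀ f ∈ I, ∀ k, homogeneousComponent k f ∈ I) :
    ∃ d₀ : ℕ, ∀ (m n k : ℕ) (A A' : MvPolynomial σ ℂ) (a : ℕ → MvPolynomial σ ℂ),
      A.IsHomogeneous n → A'.IsHomogeneous n → A' ∉ I → (∀ l ≤ k, (a l).IsHomogeneous m) →
      (∃ l ≤ k, a l ∉ I) → ∑ l ∈ Finset.range (k + 1), a l * A ^ l * A' ^ (k - l) ∈ I →
      ∃ P P' : MvPolynomial σ ℂ, P.IsHomogeneous (d₀ + m) ∧ P'.IsHomogeneous (d₀ + m) ∧ P' ∉ I ∧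
        P * A' - P' * A ∈ I := by
  obtain ⟨Δ, h0, hΔ⟩ := Rat.cond (MvPolynomial σ ℂ ⧸ I)
  obtain ⟨Δ, rfl⟩ := Ideal.Quotient.mk_surjective Δ
  obtain ⟨d, hd⟩ := Rat.comp_ne (mt Ideal.Quotient.eq_zero_iff_mem.2 h0)
  refine ⟨d, fun m n k A A' a hA hA' h1 ha h2 h3 => ?_⟩
  have hi := IsFractionRing.injective (MvPolynomial σ ℂ ⧸ I) (FractionRing (MvPolynomial σ ℂ ⧸ I))
  have hv : algebraMap _ (FractionRing (MvPolynomial σ ℂ ⧸ I)) (Ideal.Quotient.mk I A') ≠ 0 :=
    (map_ne_zero_iff _ hi).2 (mt Ideal.Quotient.eq_zero_iff_mem.1 h1)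
  obtain ⟨l, hl, h4, h5⟩ := Rat.top (Ideal.Quotient.mk I A) (Ideal.Quotient.mk I A') hv k
    (fun l => Ideal.Quotient.mk I (a l))
    (h2.imp fun l h => ⟨h.1, mt Ideal.Quotient.eq_zero_iff_mem.1 h.2⟩) (by
      have := Ideal.Quotient.eq_zero_iff_mem.2 h3
      simpa only [map_sum, map_mul, map_pow] using this)
  obtain ⟨P, hP⟩ := hΔ _ h5
  obtain ⟨P, rfl⟩ := Ideal.Quotient.mk_surjective P
  have h6 : P * A' - Δ * (a l * A) ∈ I := by
    rw [← Ideal.Quotient.eq_zero_iff_mem, map_sub, sub_eq_zero]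
    apply hi
    simp only [map_mul]
    rw [hP]
    field_simp
  have h7 := hh _ h6 (d + m + n)
  rw [map_sub, Rat.comp_mul P hA', add_assoc, Rat.comp_mul Δ ((ha l hl).mul hA), ← mul_assoc] at h7
  refine ⟨_, _, homogeneousComponent_isHomogeneous _ _,
    (homogeneousComponent_isHomogeneous d Δ).mul (ha l hl), fun h => ?_, h7⟩
  exact (hp.mem_or_mem h).elim hd (mt Ideal.Quotient.eq_zero_iff_mem.2 h4)

end Pool.Agent.Lib.S3K
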