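import Pool.Agent.Lib.S3K.Rule

/-! The concentration rule for a compact family of functions. -/

open scoped Classical Topology ENNReal
open Set Metric Filter MeasureTheory

noncomputable section

namespace Pool.Agent.Lib.S3K

variable {Z : Type} [MetricSpace Z] [CompactSpace Z] [MeasurableSpace Z] [BorelSpace Z]

/-- Uniform convergence of functions and weak convergence of measures. -/
theorem tendsto_int {α : Type} {L : Filter α} {g : α → C(Z, ℝ)} {g₀ : C(Z, ℝ)}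
    {μ : α → ProbabilityMeasure Z} {μ₀ : ProbabilityMeasure Z} (hg : Tendsto g L (𝓝 g₀))
    (hμ : Tendsto μ L (𝓝 μ₀)) :
    Tendsto (fun k => ∫ p, g k p ∂(μ k : Measure Z)) L (𝓝 (∫ p, g₀ p ∂(μ₀ : Measure Z))) := by
  have h1 := ((cont_int g₀.continuous).tendsto μ₀).comp hμ
  have h2 : Tendsto (fun k => ∫ p, g k p ∂(μ k : Measure Z) - ∫ p, g₀ p ∂(μ k : Measure Z)) L
      (𝓝 0) := by
    refine squeeze_zero_norm (fun k => ?_) (tendsto_iff_norm_sub_tendsto_zero.1 hg)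
    rw [← integral_sub (intc (g k).continuous _) (intc g₀.continuous _)]
    simpa using norm_integral_le_of_norm_le_const (μ := (μ k : Measure Z))
      (Eventually.of_forall fun p => (g k - g₀).norm_coe_le_norm p)
  simpa using h2.add h1

theorem int_pow_le {f : Z → ℝ} {t η R : ℝ} (hf : Continuous f) (h0 : ∀ p, 0 ≤ f p) (ht : 0 < t)
    (ν : ProbabilityMeasure Z) (hη : 0 < η) (hR : 0 < R)
    (h : R ≤ ∫ p, (f p + η) ^ (-t) ∂(ν : Measure Z)) :
    ∫ p, f p ^ t ∂(tl (lgt f t η) ν : Measure Z) ≤ 1 / R := by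
  have hc : Continuous fun p => f p ^ t := hf.rpow_const fun _ => Or.inr ht.le
  rw [tl_int (lgt_cont hf h0 t hη)]
  simp only [exp_lgt h0 t hη]
  refine div_le_div₀ zero_le_one ?_ hR h
  refine (integral_mono (intc ((pw_cont hf h0 t hη).mul hc) _) (integrable_const 1)
    fun p => ?_).trans (by simp)
  have h7 : 0 < f p + η := by linarith [h0 p]
  change (f p + η) ^ (-t) * f p ^ t ≤ 1
  rw [Real.rpow_neg h7.le, inv_mul_le_iff₀ (Real.rpow_pos_of_pos h7 t), mul_one]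
  exact Real.rpow_le_rpow (h0 p) (by linarith) ht.le

/-- The rule for a compact family: a uniform bound, or concentration on one zero set. -/
theorem rule_fam {T : Type} [TopologicalSpace T] [CompactSpace T] {f : T → Z → ℝ} {t : ℝ}
    (hf : Continuous fun x : T × Z => f x.1 x.2) (h0 : ∀ τ p, 0 ≤ f τ p) (ht : 0 < t)
    (ν : ProbabilityMeasure Z) :
    (∃ C, ∀ τ η, 0 < η → ∫ p, (f τ p + η) ^ (-t) ∂(ν : Measure Z) ≤ C) ∨
    ∃ τ, ∃ ν' ∈ closure {μ | ∃ σ η, 0 < η ∧ μ = tl (lgt (f σ) t η) ν},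
      (ν' : Measure Z) {p | f τ p ≠ 0} = 0 ∧
      ∀ U, IsOpen U → (ν : Measure Z) U = 0 → (ν' : Measure Z) U = 0 := by
  refine or_iff_not_imp_left.2 fun hB => ?_
  have hB' : ∀ k : ℕ, ∃ τ η, 0 < η ∧ (k : ℝ) + 1 ≤ ∫ p, (f τ p + η) ^ (-t) ∂(ν : Measure Z) := by
    intro k
    by_contra hc
    exact hB ⟨k + 1, fun τ η hη => le_of_not_gt fun h => hc ⟨τ, η, hη, h.le⟩⟩
  choose σ η h1 h2 using hB'
  have hc : ∀ τ, Continuous (f τ) := fun τ => hf.comp (Continuous.prodMk_right τ)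
  obtain ⟨ν', -, h3⟩ := isCompact_univ.ultrafilter_le_nhds
    ((hyperfilter ℕ).map fun k => tl (lgt (f (σ k)) t (η k)) ν) (by simp)
  obtain ⟨τ, -, h3'⟩ := isCompact_univ.ultrafilter_le_nhds ((hyperfilter ℕ).map σ) (by simp)
  have h4 : Tendsto (fun k => tl (lgt (f (σ k)) t (η k)) ν) (hyperfilter ℕ) (𝓝 ν') := h3
  have h4' : Tendsto σ (hyperfilter ℕ) (𝓝 τ) := h3'
  have h5 : ν' ∈ closure {μ | ∃ σ η, 0 < η ∧ μ = tl (lgt (f σ) t η) ν} :=
    mem_closure_of_tendsto h4 (Eventually.of_forall fun k => ⟨σ k, η k, h1 k, rfl⟩)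
  refine ⟨τ, ν', h5, ?_, fun U hU hν => closure_minimal (t := {μ : ProbabilityMeasure Z |
    (μ : Measure Z) U = 0}) ?_ (closed_null hU) h5⟩
  · let G : C(T × Z, ℝ) := ⟨fun x => f x.1 x.2 ^ t, hf.rpow_const fun _ => Or.inr ht.le⟩
    have hn : ∀ p, 0 ≤ f τ p ^ t := fun p => Real.rpow_nonneg (h0 τ p) t
    have h8 : ∫ p, f τ p ^ t ∂(ν' : Measure Z) ≤ 0 :=
      le_of_tendsto_of_tendsto' (tendsto_int ((G.curry.continuous.tendsto τ).comp h4') h4)
        (tendsto_one_div_add_atTop_nhds_zero_nat.mono_left Nat.hyperfilter_le_atTop)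
        fun k => int_pow_le (hc _) (h0 _) ht ν (h1 k) (by positivity) (h2 k)
    have h9 := (integral_eq_zero_iff_of_nonneg hn
      (intc ((hc τ).rpow_const fun _ => Or.inr ht.le) _)).1 (le_antisymm h8 (integral_nonneg hn))
    refine measure_mono_null (fun p hp => ?_) (ae_iff.1 h9)
    exact (Real.rpow_pos_of_pos (lt_of_le_of_ne (h0 τ p) (Ne.symm hp)) t).ne'
  · rintro _ ⟨s, e, he, rfl⟩
    exact (tl_null (lgt_cont (hc s) (h0 s) t he) ν U).2 hν

end Pool.Agent.Lib.S3K
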