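import Pool.Agent.Lib.NV2.B_KEY
import Pool.Agent.Lib.NV2.B_LIM
import Pool.Agent.Lib.ZQ.HqO

/-! Division by a family of sections with square integrable bounds. -/

open scoped Classical Topology ContDiff ENNReal
open Set MeasureTheory Complex Metric Filter

noncomputable section

namespace Pool.Agent.Lib.S3K.SKO

open Pool.Agent.Lib.SV (E nsq nsq_nonneg)
open Pool.Agent.Lib.HS32 Pool.Agent.Lib.EX Pool.Agent.Lib.EXS Pool.Agent.Lib.ZL Pool.Agent.Lib.NV2
open Pool.Agent.Lib.EXS.K32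
open Pool.Agent.Lib.ZQ (HqO offz)

section abs

variable {Y : Type} [MeasurableSpace Y] {μ : Measure Y}

/-- The lemma of Fatou. -/
theorem fatou {g : ℕ → Y → ℝ} {G : Y → ℝ} {A : ℕ → ℝ≥0∞} {B : ℝ≥0∞}
    (hm : ∀ ν, AEMeasurable (g ν) μ) (ht : ∀ᵐ x ∂μ, Tendsto (g · x) atTop (𝓝 (G x)))
    (h : ∀ ν, ∫⁻ x, ENNReal.ofReal (g ν x) ∂μ ≤ A ν) (hA : Tendsto A atTop (𝓝 B)) :
    ∫⁻ x, ENNReal.ofReal (G x) ∂μ ≤ B := by
  calc _ = ∫⁻ x, liminf (fun ν => ENNReal.ofReal (g ν x)) atTop ∂μ :=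
        lintegral_congr_ae (ht.mono fun x hx => (ENNReal.tendsto_ofReal hx).liminf_eq.symm)
    _ ≤ liminf (fun ν => ∫⁻ x, ENNReal.ofReal (g ν x) ∂μ) atTop :=
        lintegral_liminf_le' fun ν => (hm ν).ennreal_ofReal
    _ ≤ liminf A atTop := liminf_le_liminf (.of_forall h)
    _ = B := hA.liminf_eq

theorem t_nsq {κ : Type} [Fintype κ] {u : ℕ → κ → ℂ} {b : κ → ℂ}
    (h : ∀ i, Tendsto (u · i) atTop (𝓝 (b i))) : Tendsto (fun ν => nsq (u ν)) atTop (𝓝 (nsq b)) :=
  tendsto_finsetSum _ fun i _ => (continuous_normSq.tendsto _).comp (h i)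

theorem m_nsq {κ : Type} [Fintype κ] {b : κ → Y → ℂ} (hb : ∀ i, AEMeasurable (b i) μ) :
    AEMeasurable (fun x => nsq (b · x)) μ :=
  Finset.aemeasurable_fun_sum _ fun i _ => continuous_normSq.measurable.comp_aemeasurable (hb i)

/-- A bounded sequence in a space of finite dimension has a convergent subsequence. -/
theorem cmp {κ : Type} [Fintype κ] (V : Submodule ℂ (κ → Y → ℂ)) [FiniteDimensional ℂ V]
    {w : Y → ℝ} (mw : AEMeasurable w μ) (p : ∀ᵐ x ∂μ, 0 < w x)
    (mV : ∀ b ∈ V, ∀ i, AEMeasurable (b i) μ)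
    (inj : ∀ b ∈ V, (∀ i, ∀ᵐ x ∂μ, b i x = 0) → b = 0) {η : ℕ → κ → Y → ℂ} (hη : ∀ ν, η ν ∈ V)
    {A : ℝ≥0∞} (hA : A ≠ ⊤) (bd : ∀ ν, ∫⁻ x, ENNReal.ofReal (nsq (η ν · x) * w x) ∂μ ≤ A) :
    ∃ b ∈ V, ∃ φ : ℕ → ℕ, StrictMono φ ∧ ∀ i x, Tendsto (fun ν => η (φ ν) i x) atTop (𝓝 (b i x)) := by
  let e := (Module.finBasis ℂ V).equivFun
  let v : ℕ → V := fun ν => ⟨η ν, hη ν⟩
  let s : ℕ → ℝ := fun ν => (1 + ‖e (v ν)‖)⁻¹
  have s0 : ∀ ν, 0 < s ν := fun ν => by positivity
  have s1 : ∀ ν, s ν + ‖e ((s ν : ℂ) • v ν)‖ = 1 := fun ν => by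
    rw [map_smul, norm_smul, norm_real, Real.norm_of_nonneg (s0 ν).le, ← mul_one_add]
    exact inv_mul_cancel₀ (by positivity)
  obtain ⟨a, -, φ, hφ, ht⟩ := (isCompact_closedBall (0 : Fin _ → ℂ) 1).tendsto_subseq
    (x := fun ν => e ((s ν : ℂ) • v ν)) fun ν => mem_closedBall_zero_iff.2
      (by linarith [s0 ν, s1 ν])
  have ts : Tendsto (fun ν => s (φ ν)) atTop (𝓝 (1 - ‖a‖)) :=
    (tendsto_const_nhds.sub ht.norm).congr fun ν => (eq_sub_of_add_eq (s1 (φ ν))).symm
  have tp : ∀ i x, Tendsto (fun ν => (s (φ ν) : ℂ) * η (φ ν) i x) atTop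
      (𝓝 ((e.symm a).1 i x)) := fun i x => by
    let L : (Fin _ → ℂ) →ₗ[ℂ] ℂ := (LinearMap.proj x).comp ((LinearMap.proj i).comp
      (V.subtype.comp e.symm.toLinearMap))
    refine ((L.continuous_of_finiteDimensional.tendsto a).comp ht).congr fun ν => ?_
    simp [L, v]
  by_cases h : 1 - ‖a‖ = 0
  · rw [h] at ts
    have f := fatou (μ := μ) (g := fun ν x => s (φ ν) ^ 2 * (nsq (η (φ ν) · x) * w x))
      (G := fun x => nsq ((e.symm a).1 · x) * w x) (A := fun ν => ENNReal.ofReal (s (φ ν) ^ 2) * A)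
      (B := 0) (fun ν => ((m_nsq (mV _ (hη _))).mul mw).const_mul _)
      (.of_forall fun x => ((t_nsq fun i => tp i x).mul_const (w x)).congr fun ν => by
        simp only [nsq, map_mul, normSq_ofReal, ← Finset.mul_sum, sq, mul_assoc])
      (fun ν => by
        simp only [ENNReal.ofReal_mul (sq_nonneg _)]
        rw [lintegral_const_mul' _ _ ENNReal.ofReal_ne_top]
        exact mul_le_mul_right (bd _) _)
      (by simpa using ENNReal.Tendsto.mul_const (ENNReal.tendsto_ofReal (ts.pow 2)) (Or.inr hA))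
    have z := (lintegral_eq_zero_iff' ((m_nsq (mV _ (e.symm a).2)).mul mw).ennreal_ofReal).1
      (le_antisymm f zero_le)
    have : a = 0 := e.symm.map_eq_zero_iff.1 (Subtype.ext (inj _ (e.symm a).2 fun i => by
      filter_upwards [z, p] with x hx hy
      have := nonpos_of_mul_nonpos_left (ENNReal.ofReal_eq_zero.1 hx) hy
      exact normSq_eq_zero.1 (le_antisymm ((Finset.single_le_sum
        (fun j _ => normSq_nonneg ((e.symm a).1 j x)) (Finset.mem_univ i)).trans this)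
          (normSq_nonneg _))))
    simp [this] at h
  · refine ⟨_, V.smul_mem ((1 - ‖a‖ : ℝ) : ℂ)⁻¹ (e.symm a).2, φ, hφ, fun i x => ?_⟩
    refine ((((continuous_ofReal.tendsto _).comp ts).inv₀ (ofReal_ne_zero.2 h)).mul
      (tp i x)).congr fun ν => ?_
    exact inv_mul_cancel_left₀ (ofReal_ne_zero.2 (s0 _).ne') _

end abs

variable {n r : ℕ} {M : Mf n} {ι : Type} [Fintype ι] [DecidableEq ι] {D : Ad M ι} (X : Cx D)
  {O : Set M.X}

omit [DecidableEq ι] in
theorem cont_on {F : Type} [TopologicalSpace F] {f : M.X → F}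
    (h : D.On O fun d z => ContinuousAt (D.rd f d) z) : ContinuousOn f O := fun x hx => by
  obtain ⟨d, hd⟩ := ex_ch D x
  exact (cont_of hd (on_at h hd hx)).continuousWithinAt

omit [DecidableEq ι] in
theorem am_on (hO : IsOpen O) (ae : ∀ᵐ x ∂X.μ, x ∈ O) {F : Type} [TopologicalSpace F]
    [MeasurableSpace F] [BorelSpace F] {f : M.X → F} (h : ContinuousOn f O) :
    AEMeasurable f X.μ := by
  rw [← Measure.restrict_eq_self_of_ae_mem ae]
  exact h.aemeasurable hO.measurableSet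

omit [DecidableEq ι] in
theorem mon_on (ae : ∀ᵐ x ∂X.μ, x ∈ O) {f g : M.X → ℝ} (h : ∀ x ∈ O, f x ≤ g x) :
    X.I f ≤ X.I g := lintegral_mono_ae (ae.mono fun x hx => ENNReal.ofReal_le_ofReal (h x hx))

omit [DecidableEq ι] in
theorem i_nsq {κ : Type} [Fintype κ] {u : κ → M.X → ℂ} {w : M.X → ℝ}
    (mu : ∀ a, AEMeasurable (u a) X.μ) (mw : AEMeasurable w X.μ) (w0 : ∀ x, 0 ≤ w x) :
    X.I (fun x => nsq (u · x) * w x) = ∑ a, X.I fun x => normSq (u a x) * w x := by
  refine Eq.trans (lintegral_congr fun x => ?_) (lintegral_finsetSum' _ fun a _ =>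
    ((continuous_normSq.measurable.comp_aemeasurable (mu a)).mul mw).ennreal_ofReal)
  simp only [nsq, Finset.sum_mul]
  exact ENNReal.ofReal_sum_of_nonneg fun a _ => mul_nonneg (normSq_nonneg _) (w0 x)

/-- One application of the theorem of Hörmander. -/
theorem one (hD : St_DB) (hO : IsOpen O) (ae : ∀ᵐ x ∂X.μ, x ∈ O) (hq : HqO 1 D X.μ O)
    {h : Fin r → M.X → ℂ} {f : M.X → ℂ} {φ : M.X → ℝ} {κ : ℝ} (k0 : 0 < κ)
    (hh : ∀ a, D.On O fun d z => HolN (D.rd (h a) d) z) (h0 : ∀ x ∈ O, 0 < nsq (h · x))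
    (hf : D.On O fun d z => HolN (D.rd f d) z)
    (hφ : D.On O fun d z => ContDiffAt ℝ ∞ (D.rd φ d) z ∧
      ∀ v, 0 ≤ lv (D.rd (fun x => φ x - κ * lg h x) d) z v) (a : Fin r) :
    ∃ F : M.X → ℂ, (D.On O fun d z => HolN (D.rd F d) z) ∧
      X.I (fun x => normSq (f x * star (h a x) / nsq (h · x) - F x) * Real.exp (-φ x)) ≤
        ENNReal.ofReal κ⁻¹ * X.I fun x => normSq (f x) / nsq (h · x) * Real.exp (-φ x) := by
  have e : ∀ (c : ℂ) (t : Fin r → ℂ), ip (Pi.single a c) t = c * star (t a) := fun c t => by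
    rw [ip, Finset.sum_eq_single a (fun b _ hb => by rw [Pi.single_eq_of_ne hb, zero_mul])
      fun hb => absurd (Finset.mem_univ a) hb, Pi.single_eq_same]
    rfl
  have loc : D.On O fun d z =>
      ContDiffAt ℝ ∞ (D.rd (fun x => f x * star (h a x) / nsq (h · x)) d) z ∧ ∀ v,
      0 ≤ lv (D.rd φ d) z v ∧
      normSq (db (D.rd (fun x => f x * star (h a x) / nsq (h · x)) d) z v) ≤
        D.rd (fun x => normSq (f x) / (κ * nsq (h · x))) d z * lv (D.rd φ d) z v :=
    fun d z hz ho => by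
    have p0 := h0 _ ho
    have T0 : rv D h d z ≠ 0 := fun e => p0.ne' (by
      have e' : ∀ a, h a ((D.e d).symm z) = 0 := congrFun e
      simp [nsq, e'])
    have hT : HolN (rv D h d) z := (eventually_all.2 fun a => hh a d z hz ho).mono fun w hw =>
      differentiableAt_pi.2 hw
    have hY : HolN (fun w => (Pi.single a (D.rd f d w) : Fin r → ℂ)) z :=
      (hf d z hz ho).mono fun w hw => differentiableAt_pi.2 fun b => by
        by_cases hb : b = a
        · subst hb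
          simpa only [Pi.single_eq_same] using hw
        · simp only [Pi.single_eq_of_ne hb, differentiableAt_const]
    have k := fun v => hD n r _ _ z v hT hY T0
    simp only [e] at k
    refine ⟨(k 0).1, fun v => ?_⟩
    obtain ⟨-, d2, d3, d4⟩ := k v
    obtain ⟨c1, c2⟩ := hφ d z hz ho
    have e1 : lv (D.rd φ d) z v = lv (D.rd (fun x => φ x - κ * lg h x) d) z v +
        κ * (nsq (prp (rv D h d z) (fderiv ℂ (rv D h d) z v)) / nsq (rv D h d z)) := by
      rw [← d4, ← lv_mul d3]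
      exact eq_add_of_sub_eq (lv_sub c1 (contDiffAt_const.mul d3) v).symm
    rw [e1]
    refine ⟨add_nonneg (c2 v) (mul_nonneg k0.le (div_nonneg (nsq_nonneg _) (nsq_nonneg _))),
      (congrArg normSq d2).trans_le ?_⟩
    rw [map_div₀, normSq_ofReal]
    refine KEY.dom p0 k0 (normSq_nonneg _) (c2 v) ?_
    rw [map_mul]
    refine mul_le_mul_of_nonneg_left ?_ (normSq_nonneg _)
    rw [star_def, normSq_conj]
    exact Finset.single_le_sum (f := fun j => normSq (prp (rv D h d z)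
      (fderiv ℂ (rv D h d) z v) j)) (fun j _ => normSq_nonneg _) (Finset.mem_univ a)
  have cf := continuous_normSq.comp_continuousOn
    (cont_on fun d z hz ho => (hf d z hz ho).self_of_nhds.continuousAt)
  have ch : ContinuousOn (fun x => nsq (h · x)) O := continuousOn_finsetSum _ fun a _ =>
    continuous_normSq.comp_continuousOn
      (cont_on fun d z hz ho => (hh a d z hz ho).self_of_nhds.continuousAt)
  obtain ⟨F, f1, f2⟩ := hq φ (fun x => normSq (f x) / (κ * nsq (h · x)))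
    (fun x => f x * star (h a x) / nsq (h · x))
    ((am_on X hO ae cf).div ((am_on X hO ae ch).const_mul _)) fun d z hz ho =>
      ⟨(hφ d z hz ho).1, (loc d z hz ho).1, fun v => ((loc d z hz ho).2 v).1,
        div_nonneg (normSq_nonneg _) (mul_pos k0 (h0 _ ho)).le, fun v => ((loc d z hz ho).2 v).2⟩
  rw [one_mul] at f2
  refine ⟨F, f1, f2.trans_eq ?_⟩
  rw [← EST.i_mul X (inv_pos.2 k0).le]
  refine lintegral_congr fun x => congrArg _ ?_
  ring

variable [M.Cpt]

/-- A square integrable function extends across the zeros of `g`. -/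
theorem ext (hM : ZL.St_MU) (hU : St_UPB) (hG : St_POG) {g F : M.X → ℂ} (hg : HoO D g)
    (g0 : ∃ x ∈ off D, g x ≠ 0) (ae : ∀ᵐ x ∂X.μ, x ∈ offz D g) (Q : ι → ℤ)
    (hF : D.On (offz D g) fun d z => HolN (D.rd F d) z)
    (fin : X.I (fun x => normSq (F x) * Real.exp (lw D (fun i => Q i - X.o i) x)) ≠ ⊤) :
    ∃ F', Sp D Q F' ∧ ∀ x ∈ offz D g, F' x = F x := by
  have hg' := oa_iff.1 hg
  have e : ∀ x ∈ offz D g, limUnder (𝓝[offz D g] x) F = F x := fun x hx => by
    have : (𝓝[offz D g] x).NeBot := mem_closure_iff_nhdsWithin_neBot.1 (subset_closure hx)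
    exact (cont_on (fun d z hz ho => (hF d z hz ho).self_of_nhds.continuousAt) x hx).limUnder_eq
  have h1 : HoO D fun x => limUnder (𝓝[offz D g] x) F := fun d z hz ho => by
    have hO := ZQ.offB_open (D.c d)
    have of := fun y (hy : y ∈ B2 n ∧ Off (D.c d) y) => (ZQ.off_symm D hy.1).2 hy.2
    have nz := fun y (hy : y ∈ B2 n ∧ Off (D.c d) y) => ZQ.HO.g_nz hg' g0 hy.1 (of y hy)
    obtain ⟨G, g1, g2⟩ := SV.H85.ext_sq volume (f := D.rd F d) (j := D.rd g d) hO
      (fun y hy => (hg d y hy.1 hy.2).self_of_nhds.differentiableWithinAt) nz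
      (fun y hy => (hF d y hy.1.1 ⟨of y hy.1, hy.2⟩).self_of_nhds.differentiableWithinAt)
      fun y hy => by
        obtain ⟨ρ, r1, r2⟩ := exists_between (mem_ball_zero_iff.1 hy.1)
        obtain ⟨C, hC⟩ := (hM n M ι D X).2.2.2.2 ρ r2 (∑ i, |(Q i : ℝ)|)
        obtain ⟨V, hV, hi⟩ := ZQ.HO.loc_sq (G := fun _ => 0) (F := D.rd F d)
          (δ := xr (D.c d) fun i => Q i) (closedBall_mem_nhds_of_mem (mem_ball_zero_iff.2 r1))
          (MON.cd_xr _ hy.2).continuousAt (MON.xr_pos _ hy.2) continuousAt_const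
          (ne_top_of_le_ne_top (ENNReal.mul_ne_top ENNReal.ofReal_ne_top fin) (by
            simp only [zero_sub, normSq_neg]
            exact hC (fun i => Q i) (fun x => normSq (F x)) d fun i =>
              Finset.single_le_sum (f := fun i => |(Q i : ℝ)|) (fun _ _ => abs_nonneg _)
                (Finset.mem_univ i)))
        exact ⟨V, hV, ne_top_of_le_ne_top hi (lintegral_mono_set fun u hu => hu.1)⟩
    have hz' : z ∈ {z | z ∈ B2 n ∧ Off (D.c d) z} := ⟨hz, ho⟩
    refine hol_congr (f := G) ((hO.eventually_mem hz').mono fun y hy =>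
      g1.differentiableAt (hO.mem_nhds hy)) ((hO.eventually_mem hz').mono fun y hy => ?_)
    exact lim_eq (tg hy.1) (((not_eventually.1 (nz y hy)).and_eventually
      (hO.eventually_mem hy)).mono fun u hu => ⟨of u hu.2, hu.1⟩)
      (g1.differentiableAt (hO.mem_nhds hy)).continuousAt
      ((hO.eventually_mem hy).mono fun u hu h0 => (g2 u hu h0.2).symm)
  refine ⟨_, ((hU n M ι D Q).1 _ (hG n M ι D X Q _ h1 (ne_top_of_le_ne_top fin
    (mon_on X ae fun x hx => by rw [e x hx])))).2, fun x hx => ?_⟩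
  rw [indicator_of_mem hx.1, e x hx]

theorem nsq_two {κ : Type} [Fintype κ] (a b c : κ → ℂ) :
    nsq (fun i => a i - c i) ≤ 2 * nsq (fun i => b i - c i) + 2 * nsq fun i => a i - b i := by
  simp only [nsq, Finset.mul_sum, ← Finset.sum_add_distrib]
  exact Finset.sum_le_sum fun i _ => EST.sq_sub _ _ _

/-- One step of the division. -/
theorem step (hD : St_DB) (hO : IsOpen O) (ae : ∀ᵐ x ∂X.μ, x ∈ O) (hq : HqO 1 D X.μ O)
    {h : Fin r → M.X → ℂ} {f : M.X → ℂ} {φ : M.X → ℝ} {κ : ℝ} (k0 : 0 < κ) (hk : 4 * r ≤ κ)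
    (hh : ∀ a, D.On O fun d z => HolN (D.rd (h a) d) z) (h0 : ∀ x ∈ O, 0 < nsq (h · x))
    (hf : D.On O fun d z => HolN (D.rd f d) z)
    (hφ : D.On O fun d z => ContDiffAt ℝ ∞ (D.rd φ d) z ∧
      ∀ v, 0 ≤ lv (D.rd (fun x => φ x - κ * lg h x) d) z v) :
    ∃ F : Fin r → M.X → ℂ, (∀ a, D.On O fun d z => HolN (D.rd (F a) d) z) ∧
      X.I (fun x => nsq (F · x) * Real.exp (-φ x)) ≤
        4 * X.I (fun x => normSq (f x) / nsq (h · x) * Real.exp (-φ x)) ∧
      4 * X.I (fun x => normSq (f x - ∑ a, h a x * F a x) / nsq (h · x) * Real.exp (-φ x)) ≤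
        X.I fun x => normSq (f x) / nsq (h · x) * Real.exp (-φ x) := by
  choose F f1 f2 using one X hD hO ae hq k0 hh h0 hf hφ
  have am : ∀ g : M.X → ℂ, (D.On O fun d z => HolN (D.rd g d) z) → AEMeasurable g X.μ :=
    fun g hg => am_on X hO ae (cont_on fun d z hz ho => (hg d z hz ho).self_of_nhds.continuousAt)
  have mφ : AEMeasurable (fun x => Real.exp (-φ x)) X.μ :=
    am_on X hO ae (cont_on fun d z hz ho => (hφ d z hz ho).1.continuousAt).neg.rexp
  have mh := m_nsq fun a => am _ (hh a)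
  have mG : ∀ a, AEMeasurable (fun x => f x * star (h a x) / nsq (h · x) - F a x) X.μ := fun a =>
    (((am _ hf).mul (continuous_star.measurable.comp_aemeasurable (am _ (hh a)))).div
      (measurable_ofReal.comp_aemeasurable mh)).sub (am _ (f1 a))
  set N := X.I fun x => normSq (f x) / nsq (h · x) * Real.exp (-φ x)
  have key : 4 * X.I (fun x => nsq (fun a => f x * star (h a x) / nsq (h · x) - F a x) *
      Real.exp (-φ x)) ≤ N := by
    calc _ = 4 * ∑ a, X.I fun x =>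
          normSq (f x * star (h a x) / nsq (h · x) - F a x) * Real.exp (-φ x) := by
          rw [i_nsq X mG mφ fun x => (Real.exp_pos _).le]
      _ ≤ 4 * ∑ a : Fin r, ENNReal.ofReal κ⁻¹ * N :=
          mul_le_mul_right (Finset.sum_le_sum fun a _ => f2 a) _
      _ = ENNReal.ofReal (4 * r * κ⁻¹) * N := by
          rw [Finset.sum_const, Finset.card_fin, nsmul_eq_mul, ENNReal.ofReal_mul (by positivity),
            ENNReal.ofReal_mul (by positivity), ENNReal.ofReal_natCast, ENNReal.ofReal_ofNat,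
            mul_assoc, mul_assoc]
      _ ≤ N := mul_le_of_le_one_left zero_le (ENNReal.ofReal_le_one.2
          ((mul_inv_le_iff₀ k0).2 (by rwa [one_mul])))
  refine ⟨F, f1, ?_, le_trans (mul_le_mul_right (mon_on X ae fun x hx => ?_) _) key⟩
  · refine ((mon_on X ae (g := fun x => 2 * (nsq (fun a => f x * star (h a x) / nsq (h · x) -
      F a x) * Real.exp (-φ x)) + 2 * (normSq (f x) / nsq (h · x) * Real.exp (-φ x)))
      fun x hx => ?_).trans (EST.i_add X (((m_nsq mG).mul mφ).const_mul _) _)).trans ?_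
    · have e : nsq (fun a => f x * star (h a x) / nsq (h · x)) = normSq (f x) / nsq (h · x) := by
        have := (h0 x hx).ne'
        conv_lhs => rw [nsq]
        simp only [map_div₀, map_mul, star_def, normSq_conj, normSq_ofReal, ← Finset.sum_div,
          ← Finset.mul_sum]
        rw [← nsq]
        field_simp
      have k := nsq_two (fun _ => 0) (fun a => f x * star (h a x) / nsq (h · x)) (F · x)
      simp only [zero_sub] at k
      rw [show ∀ u : Fin r → ℂ, nsq (fun a => -u a) = nsq u from fun u => by simp [nsq]] at k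
      rw [show ∀ u : Fin r → ℂ, nsq (fun a => -u a) = nsq u from fun u => by simp [nsq], e] at k
      linarith [mul_le_mul_of_nonneg_right k (Real.exp_pos (-φ x)).le]
    · rw [EST.i_mul X zero_le_two, EST.i_mul X zero_le_two, ENNReal.ofReal_ofNat,
        show (4 : ℝ≥0∞) = 2 + 2 by norm_num, add_mul]
      exact add_le_add_left ((mul_le_mul_left (by norm_num) _).trans
        (key.trans (le_mul_of_one_le_left zero_le one_le_two))) _
  · refine mul_le_mul_of_nonneg_right ((div_le_iff₀ (h0 x hx)).2 ?_) (Real.exp_pos _).le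
    have e : f x - ∑ a, h a x * F a x =
        ip (fun a => f x * star (h a x) / nsq (h · x) - F a x) (star (h · x)) := by
      have h1 : ((nsq (h · x) : ℝ) : ℂ) ≠ 0 := ofReal_ne_zero.2 (h0 x hx).ne'
      have h2 : ∑ a, star (h a x) * h a x = ((nsq (h · x) : ℝ) : ℂ) := by
        simp only [nsq, ofReal_sum, normSq_eq_conj_mul_self, star_def]
      simp only [ip, Pi.star_apply, star_def, conj_conj, sub_mul, Finset.sum_sub_distrib,
        div_mul_eq_mul_div, mul_assoc, ← Finset.sum_div, ← Finset.mul_sum] at h2 ⊢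
      rw [h2, mul_div_cancel_right₀ _ h1]
      simp only [mul_comm]
    rw [e]
    exact (KEY.cs _ _).trans_eq (congrArg _ (by simp [nsq]))

/-- The iteration of the step. -/
theorem iter (hD : St_DB) (hO : IsOpen O) (ae : ∀ᵐ x ∂X.μ, x ∈ O) (hq : HqO 1 D X.μ O)
    {h : Fin r → M.X → ℂ} {φ : M.X → ℝ} {κ : ℝ} (k0 : 0 < κ) (hk : 4 * r ≤ κ)
    (hh : ∀ a, D.On O fun d z => HolN (D.rd (h a) d) z) (h0 : ∀ x ∈ O, 0 < nsq (h · x))
    (hφ : D.On O fun d z => ContDiffAt ℝ ∞ (D.rd φ d) z ∧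
      ∀ v, 0 ≤ lv (D.rd (fun x => φ x - κ * lg h x) d) z v) (j : ℕ) :
    ∀ f : M.X → ℂ, (D.On O fun d z => HolN (D.rd f d) z) →
    ∃ F : Fin r → M.X → ℂ, (∀ a, D.On O fun d z => HolN (D.rd (F a) d) z) ∧
      X.I (fun x => nsq (F · x) * Real.exp (-φ x)) ≤
        16 * X.I (fun x => normSq (f x) / nsq (h · x) * Real.exp (-φ x)) ∧
      4 ^ j * X.I (fun x => normSq (f x - ∑ a, h a x * F a x) / nsq (h · x) * Real.exp (-φ x)) ≤
        X.I fun x => normSq (f x) / nsq (h · x) * Real.exp (-φ x) := by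
  induction j with
  | zero =>
    exact fun f hf => ⟨0, fun a d z _ _ => .of_forall fun y => differentiableAt_const (0 : ℂ),
      by simp [nsq, Cx.I], by simp⟩
  | succ j ih =>
    intro f hf
    obtain ⟨F, f1, f2, f3⟩ := step X hD hO ae hq k0 hk hh h0 hf hφ
    obtain ⟨G, g1, g2, g3⟩ := ih (fun x => f x - ∑ a, h a x * F a x) fun d z hz ho => by
      filter_upwards [hf d z hz ho, eventually_all.2 fun a => hh a d z hz ho,
        eventually_all.2 fun a => f1 a d z hz ho] with y a1 a2 a3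
      exact a1.sub (DifferentiableAt.fun_sum fun a _ => (a2 a).mul (a3 a))
    refine ⟨F + G, fun a d z hz ho => ?_, ?_, ?_⟩
    · filter_upwards [f1 a d z hz ho, g1 a d z hz ho] with y a1 a2 using a1.add a2
    · refine ((lintegral_mono fun x => ENNReal.ofReal_le_ofReal ?_).trans (EST.i_add X
        (f := fun x => 2 * (nsq (F · x) * Real.exp (-φ x))) (((m_nsq fun a => am_on X hO ae
          (cont_on fun d z hz ho => (f1 a d z hz ho).self_of_nhds.continuousAt)).mul (am_on X hO ae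
          (cont_on fun d z hz ho => (hφ d z hz ho).1.continuousAt).neg.rexp)).const_mul _)
        fun x => 2 * (nsq (G · x) * Real.exp (-φ x)))).trans ?_
      · have k := nsq_two (fun a => F a x + G a x) (F · x) fun _ => 0
        simp only [sub_zero, add_sub_cancel_left] at k
        exact (mul_le_mul_of_nonneg_right k (Real.exp_pos (-φ x)).le).trans_eq (by ring)
      · rw [EST.i_mul X zero_le_two, EST.i_mul X zero_le_two, ENNReal.ofReal_ofNat,
          show (16 : ℝ≥0∞) = 2 * 4 + 2 * 4 by norm_num, add_mul, mul_assoc]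
        refine add_le_add (mul_le_mul_right f2 _) (mul_le_mul_right (g2.trans ?_) _)
        rw [show (16 : ℝ≥0∞) = 4 * 4 by norm_num, mul_assoc]
        exact mul_le_mul_right f3 _
    · rw [pow_succ', mul_assoc]
      refine le_trans (mul_le_mul_right (le_trans (le_of_eq ?_) g3) _) f3
      simp only [Pi.add_apply, mul_add, Finset.sum_add_distrib, sub_sub]

/-- A bounded sequence of sections has a convergent subsequence. -/
theorem cmpS (hC : NV2.St_CHN) {κ : Type} [Fintype κ] {Q : ι → ℤ} {w : M.X → ℝ}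
    (mw : AEMeasurable w X.μ) (p : ∀ᵐ x ∂X.μ, 0 < w x) {η : ℕ → κ → M.X → ℂ}
    (hη : ∀ ν i, Sp D Q (η ν i)) {A : ℝ≥0∞} (hA : A ≠ ⊤)
    (bd : ∀ ν, X.I (fun x => nsq (η ν · x) * w x) ≤ A) :
    ∃ b : κ → M.X → ℂ, (∀ i, Sp D Q (b i)) ∧ ∃ φ : ℕ → ℕ, StrictMono φ ∧
      ∀ i x, Tendsto (fun ν => η (φ ν) i x) atTop (𝓝 (b i x)) := by
  obtain ⟨c1, c2, -, -, -, -, c7, -⟩ := hC n M ι D X 0
  have := c2 Q
  let L : (κ → Submodule.span ℂ {F | Sp D Q F}) →ₗ[ℂ] κ → M.X → ℂ :=
    LinearMap.pi fun a => (Submodule.subtype _).comp (LinearMap.proj a)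
  have hL : ∀ b ∈ LinearMap.range L, ∀ i, Sp D Q (b i) := by
    rintro _ ⟨b, rfl⟩ i
    exact (c1 Q _).1 (b i).2
  obtain ⟨b, hb, h⟩ := cmp (LinearMap.range L) mw p (fun b hb i => (c7 Q _ (hL b hb i)).2.1)
    (fun b hb h => funext fun i => (c7 Q _ (hL b hb i)).2.2 (h i))
    (fun ν => ⟨fun i => ⟨η ν i, (c1 Q _).2 (hη ν i)⟩, rfl⟩) hA bd
  exact ⟨b, hL b hb, h⟩

/-- The division theorem. -/
theorem sk (hM : ZL.St_MU) (hU : St_UPB) (hG : St_POG) (hD : St_DB) (hC : NV2.St_CHN)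
    {g : M.X → ℂ} (hg : HoO D g) (g0 : ∃ x ∈ off D, g x ≠ 0) (ae : ∀ᵐ x ∂X.μ, x ∈ offz D g)
    (hq : HqO 1 D X.μ (offz D g)) {P Q : ι → ℤ} {h : Fin r → M.X → ℂ} {φ : M.X → ℝ} {κ C : ℝ}
    (k0 : 0 < κ) (hk : 4 * r ≤ κ) (hh : ∀ a, Sp D P (h a)) (h0 : ∀ x ∈ offz D g, 0 < nsq (h · x))
    (hφ : D.On (offz D g) fun d z => ContDiffAt ℝ ∞ (D.rd φ d) z ∧
      ∀ v, 0 ≤ lv (D.rd (fun x => φ x - κ * lg h x) d) z v)
    (lo : ∀ x ∈ offz D g, φ x ≤ C - lw D (fun i => Q i - X.o i) x) {f : M.X → ℂ}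
    (hf : Sp D (P + Q) f)
    (fin : X.I (fun x => normSq (f x) / nsq (h · x) * Real.exp (-φ x)) ≠ ⊤) :
    ∃ F : Fin r → M.X → ℂ, (∀ a, Sp D Q (F a)) ∧ (∀ x, f x = ∑ a, h a x * F a x) ∧
      X.I (fun x => nsq (F · x) * Real.exp (-φ x)) ≤
        16 * X.I fun x => normSq (f x) / nsq (h · x) * Real.exp (-φ x) := by
  have hO := ZQ.HO.offz_open (oa_iff.1 hg)
  have hol : ∀ R s, Sp D R s → D.On (offz D g) fun d z => HolN (D.rd s d) z :=
    fun R s hs d z hz ho => oa_iff.1 ((hU n M ι D R).1 _ hs.1).1 d z hz ho.1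
  obtain ⟨c1, -, c3, -, -, -, c7, -⟩ := hC n M ι D X 0
  have mφ : AEMeasurable (fun x => Real.exp (-φ x)) X.μ :=
    am_on X hO ae (cont_on fun d z hz ho => (hφ d z hz ho).1.continuousAt).neg.rexp
  choose F f1 f2 f3 using fun j => iter X hD hO ae hq k0 hk (fun a => hol _ _ (hh a)) h0 hφ j f
    (hol _ _ hf)
  have f16 := ENNReal.mul_ne_top (show (16 : ℝ≥0∞) ≠ ⊤ by norm_num) fin
  choose G g1 g2 using fun j a => ext X hM hU hG hg g0 ae Q (f1 j a) (ne_top_of_le_ne_top
    (ENNReal.mul_ne_top ENNReal.ofReal_ne_top (ne_top_of_le_ne_top f16 (f2 j)))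
    ((mon_on X ae fun x hx => by
      rw [mul_left_comm, ← Real.exp_add]
      exact mul_le_mul (Finset.single_le_sum (f := fun b => normSq (F j b x))
        (fun _ _ => normSq_nonneg _) (Finset.mem_univ a))
        (Real.exp_le_exp.2 (by linarith [lo x hx])) (Real.exp_pos _).le (nsq_nonneg _)).trans_eq
      (EST.i_mul X (Real.exp_pos C).le _)))
  have g3 : ∀ j, X.I (fun x => nsq (G j · x) * Real.exp (-φ x)) ≤ _ := fun j =>
    (mon_on X ae fun x hx => le_of_eq (by simp only [g2 j _ x hx])).trans (f2 j)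
  obtain ⟨b, b1, ψ, b2, b3⟩ := cmpS X hC mφ (.of_forall fun x => Real.exp_pos _) g1 f16 g3
  have sp : ∀ u : Fin r → M.X → ℂ, (∀ a, Sp D Q (u a)) →
      Sp D (P + Q) fun x => f x - ∑ a, h a x * u a x := fun u hu => by
    have := Submodule.sub_mem _ ((c1 _ _).2 hf) (Submodule.sum_mem _ fun a (_ : a ∈ Finset.univ) =>
      (c1 _ _).2 (c3 _ _ _ _ (hh a) (hu a)))
    rw [show (fun x => f x - ∑ a, h a x * u a x) = f - ∑ a, h a * u a from funext fun x => by simp]
    exact (c1 _ _).1 this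
  have mh := m_nsq fun a => (c7 _ _ (hh a)).2.1
  have mm := fun u hu => ((continuous_normSq.measurable.comp_aemeasurable
    (c7 _ _ (sp u hu)).2.1).div mh).mul mφ
  refine ⟨b, b1, fun x => sub_eq_zero.1 (congrFun ((c7 _ _ (sp b b1)).2.2 ?_) x),
    fatou (fun ν => (m_nsq fun a => (c7 _ _ (g1 (ψ ν) a)).2.1).mul mφ)
      (.of_forall fun x => (t_nsq fun a => b3 a x).mul_const _) (fun ν => g3 (ψ ν))
      tendsto_const_nhds⟩
  have z := fatou (B := 0) (A := fun ν => (4⁻¹ : ℝ≥0∞) ^ ψ ν *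
      X.I fun x => normSq (f x) / nsq (h · x) * Real.exp (-φ x)) (fun ν => mm _ (g1 (ψ ν)))
    (.of_forall fun x => (((continuous_normSq.tendsto _).comp (tendsto_const_nhds.sub
      (tendsto_finsetSum _ fun a _ => (b3 a x).const_mul (h a x)))).div_const _).mul_const _)
    (fun ν => by
      rw [← ENNReal.inv_pow]
      refine (ENNReal.mul_le_iff_le_inv (by simp) (by simp)).1 (le_trans
        (mul_le_mul_right (mon_on X ae fun x hx => le_of_eq ?_) _) (f3 (ψ ν)))
      simp only [g2 _ _ x hx, Function.comp, Pi.mul_apply, Pi.div_apply])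
    (by simpa using ENNReal.Tendsto.mul_const ((ENNReal.tendsto_pow_atTop_nhds_zero_of_lt_one
      (show (4⁻¹ : ℝ≥0∞) < 1 by norm_num)).comp b2.tendsto_atTop) (Or.inr fin))
  filter_upwards [(lintegral_eq_zero_iff' (mm b b1).ennreal_ofReal).1 (le_antisymm z zero_le), ae]
    with x hx ho
  have := nonpos_of_mul_nonpos_left (ENNReal.ofReal_eq_zero.1 hx) (Real.exp_pos _)
  exact normSq_eq_zero.1 (le_antisymm (by
    simpa using (div_le_iff₀ (h0 x ho)).1 this) (normSq_nonneg _))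

end Pool.Agent.Lib.S3K.SKO
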