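import Pool.Agent.Lib.ZL.B_LWC
import Pool.Agent.Lib.ZL.B_LEV
import Pool.Agent.Lib.ZL.B_UPB
import Pool.Agent.Lib.ZL.B_MU
import Pool.Agent.Lib.GH76.Pshp

/-! Uniform exponential integrability for norms of sections with bounded slope. -/

open scoped Classical Topology ContDiff ENNReal ComplexOrder Matrix
open Set MeasureTheory Complex Metric Filter

set_option linter.unusedSectionVars false

noncomputable section

namespace Pool.Agent.Lib.S3K

open Pool.Agent.Lib.SV (E nsq nsq_nonneg)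
open Pool.Agent.Lib.HS32 Pool.Agent.Lib.EX Pool.Agent.Lib.EXS Pool.Agent.Lib.ZL
open Pool.Agent.Lib.EXS.K32

namespace SKU

variable {n : ℕ} {κ : Type} [Fintype κ]

theorem nrm_le (v : E n) : ‖v‖ ^ 2 ≤ nsq v := by
  have h : ‖v‖ ≤ √(nsq v) := (pi_norm_le_iff_of_nonneg (Real.sqrt_nonneg _)).2 fun i =>
    Real.le_sqrt_of_sq_le (by
      rw [← normSq_eq_norm_sq]
      exact Finset.single_le_sum (f := fun i => normSq (v i)) (fun _ _ => normSq_nonneg _)
        (Finset.mem_univ i))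
  exact (pow_le_pow_left₀ (norm_nonneg _) h 2).trans (Real.sq_sqrt (nsq_nonneg v)).le

theorem lev {s : E n → κ → ℂ} {ψ : E n → ℝ} {z v : E n} {K δ : ℝ} (hs : HolN s z)
    (hψ : ContDiffAt ℝ ∞ ψ z) (K0 : 0 ≤ K) (h : -(K * nsq v) ≤ lv ψ z v) (d0 : 0 < δ) :
    -(K * nsq v) ≤ lv (fun y => Real.log (nsq (s y) * Real.exp (ψ y) + δ)) z v := by
  have p : ∀ y, 0 ≤ nsq (s y) * Real.exp (ψ y) := fun y =>
    mul_nonneg (nsq_nonneg _) (Real.exp_pos _).le
  have sm : ContDiffAt ℝ ∞ (fun y => Real.log (nsq (s y) * Real.exp (ψ y) + δ)) z :=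
    (((cd_nsq hs).mul hψ.exp).add contDiffAt_const).log (by have := p z; positivity)
  by_cases h0 : s z = 0
  · have h1 : IsLocalMax (fun y => -1 * Real.log (nsq (s y) * Real.exp (ψ y) + δ)) z :=
      .of_forall fun y => by
        have e : nsq (s z) = 0 := by simp [h0, nsq]
        have := Real.log_le_log d0 (le_add_of_nonneg_left (p y))
        simp only [e, zero_mul, zero_add]
        linarith
    have h2 := ((mMAXE n _ z (contDiffAt_const.mul sm) h1).1.dotProduct_mulVec_nonneg v)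
    have h3 := (Complex.nonneg_iff.1 h2).1
    rw [Matrix.neg_mulVec, dotProduct_neg, neg_re] at h3
    have h4 := lv_mul sm (-1) v
    have h5 := mul_nonneg K0 (nsq_nonneg v)
    rw [lv, nq] at h4
    linarith
  · have hi : HolN (fun y : E n => y) z := .of_forall fun _ => differentiableAt_id
    have q1 : ContDiffAt ℝ ∞ (fun y : E n => K * nsq y) z := contDiffAt_const.mul (cd_nsq hi)
    have q2 : lv (fun y : E n => K * nsq y) z v = K * nsq v := by
      rw [lv_mul (cd_nsq hi), lv_nsq hi, fderiv_fun_id, ContinuousLinearMap.id_apply]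
    obtain ⟨l1, l2⟩ := lv_lg hs h0
    have h1 := ((bLEV n z v).2.1 (fun y => Real.log (nsq (s y)) + ψ y + K * nsq y)
      (fun y => Real.log δ + K * nsq y) ((l1.add hψ).add q1) (contDiffAt_const.add q1)
      (by rw [lv_add (l1.add hψ) q1, lv_add l1 hψ, q2]; linarith [(l2 v).1])
      (by rw [lv_add contDiffAt_const q1, lv_const, q2, zero_add]
          exact mul_nonneg K0 (nsq_nonneg v))).2
    have e : (fun y => Real.log (Real.exp (Real.log (nsq (s y)) + ψ y + K * nsq y) +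
        Real.exp (Real.log δ + K * nsq y))) =ᶠ[𝓝 z]
        fun y => Real.log (nsq (s y) * Real.exp (ψ y) + δ) + K * nsq y := by
      filter_upwards [hs.self_of_nhds.continuousAt.eventually_ne h0] with y hy
      rw [Real.exp_add, Real.exp_add, Real.exp_add, Real.exp_log (nsq_pos hy), Real.exp_log d0,
        ← add_mul, Real.log_mul (by have := p y; positivity) (Real.exp_pos _).ne', Real.log_exp]
    rw [lv_congr e, lv_add sm q1, q2] at h1
    have h2 := le_trans (mul_nonneg (by positivity) (normSq_nonneg _)) h1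
    linarith

theorem psd {A : Mat n} {u : E n → ℝ} {z : E n} {C K : ℝ} (hu : ContDiffAt ℝ ∞ u z)
    (K0 : 0 ≤ K) (hA : (C • A - 1).PosSemidef) (h : ∀ v, -(K * nsq v) ≤ lv u z v) :
    ((K * C) • A + hess (fun y => (u y : ℂ)) z).PosSemidef := by
  have hh : (K • (1 : Mat n) + hess (fun y => (u y : ℂ)) z).IsHermitian :=
    (Mf.herm_rsmul Matrix.isHermitian_one K).add (hess_herm hu)
  have h1 : (K • (1 : Mat n) + hess (fun y => (u y : ℂ)) z).PosSemidef :=
    .of_dotProduct_mulVec_nonneg hh fun v =>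
      Complex.nonneg_iff.2 ⟨?_, (hh.im_star_dotProduct_mulVec_self v).symm⟩
  · have h2 := (Mf.psd_rsmul hA K0).add h1
    rwa [smul_sub, smul_smul, ← add_assoc, sub_add_cancel] at h2
  have e : (star v ⬝ᵥ v).re = nsq v := by
    simp only [dotProduct, nsq, re_sum, Pi.star_apply, star_def, ← normSq_eq_conj_mul_self,
      ofReal_re]
  have h3 := h v
  rw [lv, nq] at h3
  rw [Matrix.add_mulVec, dotProduct_add, add_re, Matrix.smul_mulVec, Matrix.one_mulVec,
    dotProduct_smul, real_smul, re_ofReal_mul, e]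
  linarith

variable {M : Mf n} {ι : Type} [Fintype ι] [DecidableEq ι] (D : Ad M ι)

/-- The norm of a family of sections. -/
def S (P : ι → ℤ) (F : κ → M.X → ℂ) (x : M.X) : ℝ :=
  nsq (fun b => F b x) * Real.exp (lw D (fun i => P i) x)

theorem S_nn (P : ι → ℤ) (F : κ → M.X → ℂ) (x : M.X) : 0 ≤ S D P F x :=
  mul_nonneg (nsq_nonneg _) (Real.exp_pos _).le

variable [M.Cpt]

theorem loc (hPW : St_PW) {P : ι → ℤ} {F : κ → M.X → ℂ} (hF : ∀ b, Mer D P (F b)) (d : D.A) :
    ∃ s : E n → κ → ℂ, ∀ z ∈ B2 n, HolN s z ∧ (D.rd (glu D (S D P F)) d =ᶠ[𝓝 z]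
      fun y => nsq (s y) * Real.exp (∑ i, (P i : ℝ) * Real.log (PW.gf D d i y))) ∧
      (Off (D.c d) z → D.rd (glu D (S D P F)) d z = D.rd (S D P F) d z) := by
  have hv := fun b => (bUPB hPW n M ι D P).2.2.2.2.2.1 (D.c d) (D.rd (F b) d) (hF b d)
  have h1 : ∀ z ∈ B2 n, HolN (fun y b => val (D.c d) P (D.rd (F b) d) y) z := fun z hz => by
    filter_upwards [isOpen_ball.eventually_mem hz] with y hy
    exact differentiableAt_pi.2 fun b => (hv b).1.differentiableAt (isOpen_ball.mem_nhds hy)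
  have h2 : ∀ z ∈ B2 n, Off (D.c d) z → D.rd (S D P F) d z =
      nsq (fun b => val (D.c d) P (D.rd (F b) d) z) *
        Real.exp (∑ i, (P i : ℝ) * Real.log (PW.gf D d i z)) := fun z hz ho => by
    have e := U11.nsq (c := D.c d) (P := -P) z
    rw [neg_neg, xr_exp fun i _ => ho i] at e
    have e1 : (-fun i => (((-P) i : ℤ) : ℝ)) = fun i => (P i : ℝ) := by
      funext i
      simp
    have e2 := PW.rd_lw D (fun i => (P i : ℝ)) hz ho
    rw [Ad.rd] at e2
    rw [e1] at e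
    simp only [Ad.rd, S, nsq, e2, (hv _).2 z hz ho, map_mul, e, Real.exp_add, ← Finset.mul_sum]
    ring
  have h3 : ∀ z ∈ B2 n, D.rd (glu D (S D P F)) d =ᶠ[𝓝 z] fun y =>
      nsq (fun b => val (D.c d) P (D.rd (F b) d) y) *
        Real.exp (∑ i, (P i : ℝ) * Real.log (PW.gf D d i y)) := fun z hz => by
    refine bGLU n M ι D ℝ _ d _ z hz ?_ ?_
    · filter_upwards [isOpen_ball.eventually_mem hz] with y hy
      exact ((cd_nsq (h1 y hy)).mul (ContDiffAt.sum fun i _ => contDiffAt_const.mul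
        ((PW.gf_sm D i hy).log (PW.gf_pos D i hy).ne')).exp).continuousAt
    · filter_upwards [isOpen_ball.eventually_mem hz] with y hy
      exact h2 y hy
  exact ⟨_, fun z hz => ⟨h1 z hz, h3 z hz, fun ho => (h3 z hz).self_of_nhds.trans
    (h2 z hz ho).symm⟩⟩

theorem core (hPW : St_PW) {H : M.Fam (Mat n)} (hH : M.Met H) (A : ℝ) : ∃ C₀ : ℝ,
    ∀ (N δ : ℝ) (P : ι → ℤ) (κ : Type) [Fintype κ] (F : κ → M.X → ℂ), 0 < N → 0 < δ →
      (∀ i, |(P i : ℝ)| ≤ A * N) → (∀ b, Mer D P (F b)) → ∃ u : M.X → ℝ, M.Sm u ∧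
        M.Le 0 (C₀ • H + M.hs u) ∧ ∀ x ∈ off D, u x = N⁻¹ * Real.log (S D P F x + δ) := by
  have b1 : closedBall (0 : E n) 1 ⊆ B2 n := closedBall_subset_ball one_lt_two
  have g1 : ∀ d i, ∀ z ∈ B2 n, ContDiffAt ℝ ∞ (fun y => Real.log (PW.gf D d i y)) z :=
    fun d i z hz => (PW.gf_sm D i hz).log (PW.gf_pos D i hz).ne'
  choose B B0 hB using fun p : D.A × ι => LWC.bd (isCompact_closedBall (0 : E n) 1) fun z hz =>
    g1 p.1 p.2 z (b1 hz)
  choose C C1 hC using fun d => (mBD n M H hH).2.2.1 _ (D.mem d) _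
    (isCompact_closedBall (0 : E n) 1) (D.tgt d ▸ b1)
  set K := |A| * ∑ p, B p with hK
  have K0 : 0 ≤ K := mul_nonneg (abs_nonneg _) (Finset.sum_nonneg fun p _ => B0 p)
  refine ⟨K * ∑ d, C d, fun N δ P κ _ F N0 d0 hP hF => ?_⟩
  choose s hs using loc D hPW hF
  set u := fun x => N⁻¹ * Real.log (glu D (S D P F) x + δ) with hu
  have g2 : ∀ d, ∀ z ∈ B2 n,
      ContDiffAt ℝ ∞ (fun y => ∑ i, (P i : ℝ) * Real.log (PW.gf D d i y)) z :=
    fun d z hz => ContDiffAt.sum fun i _ => contDiffAt_const.mul (g1 d i z hz)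
  have e : ∀ d, ∀ z ∈ B2 n, u ∘ (D.e d).symm =ᶠ[𝓝 z] fun y => N⁻¹ * Real.log
      (nsq (s d y) * Real.exp (∑ i, (P i : ℝ) * Real.log (PW.gf D d i y)) + δ) :=
    fun d z hz => (hs d z hz).2.1.mono fun y hy =>
      congrArg (fun r => N⁻¹ * Real.log (r + δ)) hy
  have g3 : ∀ d, ∀ z ∈ B2 n, ContDiffAt ℝ ∞ (fun y => Real.log
      (nsq (s d y) * Real.exp (∑ i, (P i : ℝ) * Real.log (PW.gf D d i y)) + δ)) z :=
    fun d z hz => (((cd_nsq (hs d z hz).1).mul (g2 d z hz).exp).add contDiffAt_const).log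
      (by have := nsq_nonneg (s d z); positivity)
  have g4 : ∀ d, ∀ z ∈ B2 n, ContDiffAt ℝ ∞ (u ∘ (D.e d).symm) z := fun d z hz =>
    (contDiffAt_const.mul (g3 d z hz)).congr_of_eventuallyEq (e d z hz)
  have sm : M.Sm u := ((mTR n M).2.2.2.1 ℝ u).2.2 fun x => by
    obtain ⟨d, hd⟩ := GLU.ex_ch D x
    exact ⟨_, D.mem d, hd, g4 d _ (GLU.mem_B2 hd)⟩
  refine ⟨u, sm, fun f hf y hy => ?_, fun x hx => ?_⟩
  · obtain ⟨d, hd, hn⟩ := (hPW n M ι D).2.1 (f.symm y)
    have hz := GLU.mem_B2 hd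
    have hn' := mem_closedBall_zero_iff.2 hn
    have c1 := hH.cmp _ (D.mem d) f hf _ hd (f.map_target hy)
    have c2 := ((mHES n M).1 u sm).cmp _ (D.mem d) f hf _ hd (f.map_target hy)
    beta_reduce at c1 c2
    rw [f.right_inv hy] at c1 c2
    have h1 : ((∑ d, C d) • H (D.e d) (D.e d (f.symm y)) - 1).PosSemidef := by
      have h2 := (Mf.psd_rsmul (hH.pos _ (D.mem d) _ (GLU.mem_tgt d hz)).posSemidef
        (sub_nonneg.2 (Finset.single_le_sum (f := C) (fun l _ => zero_le_one.trans (C1 l))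
          (Finset.mem_univ d)))).add (hC d _ hn').1
      rwa [sub_smul, ← add_sub_assoc, sub_add_cancel] at h2
    have h3 := psd (g4 d _ hz) K0 h1 fun v => by
      rw [lv_congr (e d _ hz), lv_mul (g3 d _ hz), le_inv_mul_iff₀ N0, mul_neg, ← mul_assoc]
      refine lev (hs d _ hz).1 (g2 d _ hz) (mul_nonneg N0.le K0) ?_ d0
      rw [lv_sum fun i _ => contDiffAt_const.mul (g1 d i _ hz)]
      refine neg_le_of_abs_le ((Finset.abs_sum_le_sum_abs _ _).trans ?_)
      calc _ ≤ ∑ i, |A| * N * (B (d, i) * nsq v) := Finset.sum_le_sum fun i _ => by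
            rw [lv_mul (g1 d i _ hz), abs_mul]
            exact mul_le_mul ((hP i).trans (mul_le_mul_of_nonneg_right (le_abs_self A) N0.le))
              ((hB (d, i) _ hn' v).trans (mul_le_mul_of_nonneg_left (nrm_le v) (B0 _)))
              (abs_nonneg _) (by positivity)
        _ = N * (|A| * ∑ i, B (d, i)) * nsq v := by
            rw [← Finset.mul_sum, ← Finset.sum_mul]; ring
        _ ≤ _ := by
            have h4 : ∑ i, B (d, i) ≤ ∑ p, B p := by
              rw [Fintype.sum_prod_type]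
              exact Finset.single_le_sum (f := fun d => ∑ i, B (d, i))
                (fun l _ => Finset.sum_nonneg fun i _ => B0 _) (Finset.mem_univ d)
            have := nsq_nonneg v
            rw [hK]
            gcongr
    have h5 := h3.conjTranspose_mul_mul_same (M.J (D.e d) f (f.symm y))
    simp only [Pi.zero_apply, sub_zero, Pi.add_apply, Pi.smul_apply]
    rw [c1, c2]
    rw [Matrix.mul_add, Matrix.add_mul, Matrix.mul_smul, Matrix.smul_mul] at h5
    exact h5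
  · obtain ⟨d, hd⟩ := GLU.ex_ch D x
    have h1 := (hs d _ (GLU.mem_B2 hd)).2.2 ((GLU.mem_off hd).1 hx)
    rw [GLU.rd_e _ hd, GLU.rd_e _ hd] at h1
    rw [hu]
    simp only [h1]

theorem tomu (hPW : St_PW) (X : Cx D) {H : M.Fam (Mat n)} (hH : M.Met H) : ∃ C : ℝ, 0 ≤ C ∧
    ∀ f : M.X → ℝ, (∀ x, 0 ≤ f x) → X.I (fun x => f x * Real.exp (-lw D X.o x)) ≤
      ENNReal.ofReal C * ∫⁻ x, ENNReal.ofReal (f x) ∂M.mu H := by
  obtain ⟨ho, hc, -, -, -, hn, -, -, hb, -⟩ := hPW n M ι D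
  have b1 : closedBall (0 : E n) 1 ⊆ B2 n := closedBall_subset_ball one_lt_two
  obtain ⟨C, -, hC⟩ := hb 1 one_lt_two
  obtain ⟨b', b, -, b0, hw⟩ := MU.bds X one_lt_two
  choose G G1 hG using fun d => (mBD n M H hH).2.2.1 _ (D.mem d) _
    (isCompact_closedBall (0 : E n) 1) (D.tgt d ▸ b1)
  have G0 : ∀ d, 0 ≤ b * Real.exp (C * ∑ i, |(-X.o) i|) * G d := fun d => by
    have := G1 d
    positivity
  refine ⟨∑ d, b * Real.exp (C * ∑ i, |(-X.o) i|) * G d, Finset.sum_nonneg fun d _ => G0 d,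
    fun f f0 => ?_⟩
  have e : (univ : Set M.X) = ⋃ d, {x | x ∈ (D.e d).source ∧ ‖D.e d x‖ ≤ 1} :=
    (eq_univ_of_forall fun x => mem_iUnion.2 (hc x)).symm
  rw [Cx.I, ← Measure.restrict_univ (μ := X.μ), e]
  refine (lintegral_iUnion_le _ _).trans ?_
  rw [tsum_fintype, ENNReal.ofReal_sum_of_nonneg fun d _ => G0 d, Finset.sum_mul]
  refine Finset.sum_le_sum fun d _ => ?_
  rw [← inter_eq_left.2 (show {x | x ∈ (D.e d).source ∧ ‖D.e d x‖ ≤ 1} ⊆ (D.e d).source from
    fun x hx => hx.1), ← Measure.restrict_restrict (MU.meas d), ← lintegral_indicator (MU.meas d),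
    MU.chg]
  refine le_trans ?_ (mul_le_mul_right (setLIntegral_le_lintegral ((D.e d).symm '' B2 n) _) _)
  rw [((mMU n M H hH).2.2.2.2.2.1 _ (D.mem d) _ measurableSet_ball (D.tgt d).ge).2.1,
    ← lintegral_const_mul' _ _ ENNReal.ofReal_ne_top]
  refine lintegral_mono_ae ?_
  filter_upwards [ae_restrict_of_ae (MON.off_ae (D.c d)), ae_restrict_mem measurableSet_ball]
    with z h1 h2
  by_cases h3 : ‖z‖ ≤ 1
  · have p := (MON.xr_pos X.o h1).le
    have hm : (D.e d).symm z ∈ {x | x ∈ (D.e d).source ∧ ‖D.e d x‖ ≤ 1} :=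
      ⟨GLU.mem_src d h2, by rwa [GLU.rinv d h2]⟩
    have h6 := (hG d z (mem_closedBall_zero_iff.2 h3)).2.2.1
    have g0 := one_pos.trans_le (G1 d)
    have h7 : 0 ≤ (H (D.e d) z).det.re := (inv_nonneg.2 g0.le).trans h6
    rw [inv_le_iff_one_le_mul₀' g0] at h6
    rw [indicator_of_mem hm, ← ENNReal.ofReal_mul h7, ← ENNReal.ofReal_mul (G0 d),
      ← ENNReal.ofReal_mul (by have := normSq_nonneg (X.w d z); positivity), ← hn]
    refine ENNReal.ofReal_le_ofReal ?_
    have h4 := (hw d z (mem_closedBall_zero_iff.2 h3)).2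
    have h5 : Real.exp (lw D (-X.o) ((D.e d).symm z)) ≤ _ := (hC (-X.o) d z h3 h1).2
    have h8 : xr (D.c d) (-X.o) z * xr (D.c d) X.o z = 1 := by
      rw [← MU.xr_add _ _ h1, neg_add_cancel]
      simp [xr]
    have h9 := f0 ((D.e d).symm z)
    calc _ ≤ b * xr (D.c d) X.o z * (f ((D.e d).symm z) *
          (Real.exp (C * ∑ i, |(-X.o) i|) * xr (D.c d) (-X.o) z)) := by gcongr
      _ = b * Real.exp (C * ∑ i, |(-X.o) i|) * f ((D.e d).symm z) *
          (xr (D.c d) (-X.o) z * xr (D.c d) X.o z) := by ring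
      _ ≤ b * Real.exp (C * ∑ i, |(-X.o) i|) * f ((D.e d).symm z) *
          (G d * (H (D.e d) z).det.re) := by rw [h8]; gcongr
      _ = _ := by ring
  · rw [indicator_of_notMem (fun k => h3 (by have := k.2; rwa [GLU.rinv d h2] at this)), mul_zero]
    exact bot_le

end SKU

open SKU in
/-- Uniform integrability: the exponent and the bound depend only on the slope `A`. -/
theorem sku (hPW : St_PW) {n : ℕ} {M : Mf n} [M.Cpt] {ι : Type} [Fintype ι] [DecidableEq ι]
    {D : Ad M ι} (X : Cx D) {H : M.Fam (Mat n)} (hH : M.Met H) (A : ℝ) : ∃ a C : ℝ, 0 < a ∧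
    ∀ (N t : ℝ) (P : ι → ℤ) (κ : Type) [Fintype κ] (F : κ → M.X → ℂ), 0 < N → 0 ≤ t →
      t * N ≤ a → (∀ i, |(P i : ℝ)| ≤ A * N) → (∀ b, Mer D P (F b)) →
      (∃ x ∈ off D, Real.exp (-N) ≤ S D P F x) → ∫⁻ x, (ENNReal.ofReal (S D P F x ^ t))⁻¹ *
        ENNReal.ofReal (Real.exp (-lw D X.o x)) ∂X.μ ≤ ENNReal.ofReal C := by
  obtain ⟨C₀, hc⟩ := core D hPW hH A
  obtain ⟨a, C, a0, C0, hs⟩ := GH76.skoda M C₀ hH
  obtain ⟨G, G0, hG⟩ := tomu D hPW X hH
  obtain ⟨ae, hm, hle, -⟩ := bMU hPW n M ι D X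
  obtain ⟨-, hf, -, -, hi, -⟩ := mMU n M H hH
  refine ⟨a, G * (Real.exp a * C + (M.mu H).real univ), a0, fun N t P κ _ F N0 t0 ht hP hF hx => ?_⟩
  obtain ⟨x₀, hx₀, hx⟩ := hx
  have h1 : ∀ δ, 0 < δ → ∃ u : M.X → ℝ, Continuous u ∧
      (∀ x ∈ off D, u x = N⁻¹ * Real.log (S D P F x + δ)) ∧
      ∫ x, Real.exp (a * -u x) ∂M.mu H ≤ Real.exp a * C := fun δ d0 => by
    obtain ⟨u, sm, hp, hu⟩ := hc N δ P κ F N0 d0 hP hF
    have cu := ((mTR n M).2.2.2.1 ℝ u).1 sm
    obtain ⟨y, -, hy⟩ := isCompact_univ.exists_isMaxOn ⟨x₀, mem_univ _⟩ cu.continuousOn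
    have m1 : -1 ≤ u y := by
      refine le_trans ?_ (hy (mem_univ x₀))
      rw [hu x₀ hx₀, le_inv_mul_iff₀ N0, mul_neg_one,
        Real.le_log_iff_exp_le (add_pos_of_nonneg_of_pos (S_nn D P F _) d0)]
      linarith
    have e : M.hs (fun x => u x - u y) = M.hs u := by
      funext f z
      ext i j
      have e1 : dz j (M.lc (fun x => u x - u y) f) = dz j (M.lc u f) := by
        funext w
        have e2 : M.lc (fun x => u x - u y) f = fun w => M.lc u f w - (u y : ℂ) := by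
          funext w
          simp [Mf.lc]
        rw [dz, dz, e2, fderiv_sub_const]
      simp only [Mf.hs, hess, Matrix.of_apply, e1]
    have h2 := hs (fun x => u x - u y) (fun f hf z hz => (sm f hf z hz).sub contDiffAt_const)
      (e ▸ hp) (fun x => sub_nonpos.2 (hy (mem_univ x))) ⟨y, sub_self _⟩
    refine ⟨u, cu, hu, le_trans ?_ (mul_le_mul_of_nonneg_left h2 (Real.exp_pos a).le)⟩
    rw [← integral_const_mul]
    refine integral_mono (hi ℝ _ (by fun_prop)) (hi ℝ _ (by fun_prop)) fun x => ?_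
    simp only [← Real.exp_add]
    exact Real.exp_le_exp.2 (by nlinarith)
  choose u cu hu hb using fun k : ℕ => h1 (1 / (k + 1)) Nat.one_div_pos_of_nat
  have h3 : ∀ k, X.I (fun x => (Real.exp (a * -u k x) + 1) * Real.exp (-lw D X.o x)) ≤
      ENNReal.ofReal (G * (Real.exp a * C + (M.mu H).real univ)) := fun k => by
    have := cu k
    have i1 := hi ℝ (fun x => Real.exp (a * -u k x)) (by fun_prop)
    refine (hG _ fun x => by positivity).trans ?_
    rw [ENNReal.ofReal_mul G0, ← ofReal_integral_eq_lintegral_ofReal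
      (f := fun x => Real.exp (a * -u k x) + 1) (i1.add (integrable_const 1)) (.of_forall fun x => by positivity), integral_add i1 (integrable_const 1), integral_const,
      smul_eq_mul, mul_one]
    gcongr
    exact hb k
  have cl : ContinuousOn (lw D X.o) (off D) :=
    (hPW n M ι D).2.2.2.2.2.2.2.2.2.1 ℝ _ (PW.lw_sm D _)
  have h4 := lintegral_liminf_le' (μ := X.μ) (u := atTop) (f := fun k x => ENNReal.ofReal
    ((Real.exp (a * -u k x) + 1) * Real.exp (-lw D X.o x))) fun k => by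
      have := cu k
      exact (hm ℝ _ ((by fun_prop : Continuous fun x => Real.exp (a * -u k x) + 1).continuousOn.mul
        cl.neg.rexp)).ennreal_ofReal
  refine le_trans (lintegral_mono_ae (ae.mono fun x hx => ?_)) (h4.trans
    (liminf_le_of_frequently_le' (.of_forall h3)))
  have t1 : Tendsto (fun k : ℕ => S D P F x + 1 / ((k : ℝ) + 1)) atTop (𝓝 (S D P F x)) := by
    simpa using tendsto_one_div_add_atTop_nhds_zero_nat.const_add (S D P F x)
  have t2 := ENNReal.Tendsto.mul_const (b := ENNReal.ofReal (Real.exp (-lw D X.o x)))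
    (ENNReal.tendsto_ofReal (t1.rpow_const (Or.inr t0))).inv (Or.inr ENNReal.ofReal_ne_top)
  rw [← t2.liminf_eq]
  refine liminf_le_liminf (.of_forall fun k => ?_)
  have p : 0 < S D P F x + 1 / ((k : ℝ) + 1) :=
    add_pos_of_nonneg_of_pos (S_nn D P F x) Nat.one_div_pos_of_nat
  rw [← ENNReal.ofReal_inv_of_pos (Real.rpow_pos_of_pos p t),
    ← ENNReal.ofReal_mul (by positivity), hu k x hx, Real.rpow_def_of_pos p, ← Real.exp_neg]
  refine ENNReal.ofReal_le_ofReal (mul_le_mul_of_nonneg_right ?_ (Real.exp_pos _).le)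
  generalize Real.log (S D P F x + 1 / ((k : ℝ) + 1)) = L
  rcases le_total 0 L with l | l
  · exact (Real.exp_le_one_iff.2 (neg_nonpos.2 (mul_nonneg l t0))).trans
      (le_add_of_nonneg_left (Real.exp_pos _).le)
  · refine (Real.exp_le_exp.2 ?_).trans (le_add_of_nonneg_right zero_le_one)
    have h5 := mul_le_mul_of_nonneg_right ((le_div_iff₀ N0).2 ht) (neg_nonneg.2 l)
    rw [div_eq_mul_inv] at h5
    linarith

end Pool.Agent.Lib.S3K
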