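import Mathlib

/-! Kit: holomorphic logarithms on convex sets and tubes, the Harnack inequality for functions
without zeros, and chains of Harnack inequalities. -/

open Set Metric Filter Topology

namespace Pool.Agent.Lib.S3K

variable {E : Type*} [NormedAddCommGroup E] [NormedSpace ℂ E]

/-- A continuous logarithm of a differentiable function is differentiable. -/
theorem log_diff {f g : E → ℂ} {x : E} (hf : DifferentiableAt ℂ f x) (hg : ContinuousAt g x)
    (he : ∀ᶠ y in 𝓝 x, Complex.exp (g y) = f y) : DifferentiableAt ℂ g x := by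
  have h0 : f x ≠ 0 := by rw [← he.self_of_nhds]; exact Complex.exp_ne_zero _
  have h1 : ∀ᶠ y in 𝓝 x, ‖g y - g x‖ < 1 := by
    have := (Metric.tendsto_nhds.1 hg) 1 one_pos
    simpa only [dist_eq_norm] using this
  have h2 : (fun y => Complex.log (f y / f x) + g x) =ᶠ[𝓝 x] g := by
    filter_upwards [he, h1] with y hy hy1
    have hi := (Complex.abs_im_le_norm (g y - g x)).trans_lt hy1
    have hp := Real.pi_gt_three
    rw [← hy, ← he.self_of_nhds, ← Complex.exp_sub,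
      Complex.log_exp (by linarith [(abs_lt.1 hi).1]) (by linarith [(abs_lt.1 hi).2])]
    ring
  refine DifferentiableAt.congr_of_eventuallyEq ?_ h2.symm
  have hq : DifferentiableAt ℂ (fun y => f y / f x) x := by
    simpa only [div_eq_mul_inv] using hf.mul_const (f x)⁻¹
  refine (DifferentiableAt.clog hq ?_).add_const _
  rw [div_self h0]
  exact Complex.one_mem_slitPlane

/-- A continuous logarithm of an analytic function is analytic. -/
theorem log_an {f g : E → ℂ} {x : E} (hf : AnalyticAt ℂ f x) (hg : ContinuousAt g x)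
    (he : ∀ᶠ y in 𝓝 x, Complex.exp (g y) = f y) : AnalyticAt ℂ g x := by
  have h0 : f x ≠ 0 := by rw [← he.self_of_nhds]; exact Complex.exp_ne_zero _
  have h1 : ∀ᶠ y in 𝓝 x, ‖g y - g x‖ < 1 := by
    have := (Metric.tendsto_nhds.1 hg) 1 one_pos
    simpa only [dist_eq_norm] using this
  have h2 : (fun y => Complex.log (f y / f x) + g x) =ᶠ[𝓝 x] g := by
    filter_upwards [he, h1] with y hy hy1
    have hi := (Complex.abs_im_le_norm (g y - g x)).trans_lt hy1
    have hp := Real.pi_gt_three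
    rw [← hy, ← he.self_of_nhds, ← Complex.exp_sub,
      Complex.log_exp (by linarith [(abs_lt.1 hi).1]) (by linarith [(abs_lt.1 hi).2])]
    ring
  refine AnalyticAt.congr ?_ h2
  refine (AnalyticAt.clog hf.div_const ?_).add analyticAt_const
  rw [div_self h0]
  exact Complex.one_mem_slitPlane

/-- A continuous logarithm on a convex open set. -/
theorem log_cont {U : Set E} (hU : IsOpen U) (hc : Convex ℝ U) {f : E → ℂ} (hf : ContinuousOn f U)
    (h0 : ∀ x ∈ U, f x ≠ 0) : ∃ g : E → ℂ, ContinuousOn g U ∧ ∀ x ∈ U, Complex.exp (g x) = f x := by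
  rcases U.eq_empty_or_nonempty with rfl | hne
  · exact ⟨0, continuousOn_empty _, fun x hx => hx.elim⟩
  have hs : IsSimplyConnected U := by
    have := hc.contractibleSpace hne
    exact SimplyConnectedSpace.ofContractible U
  obtain ⟨g, hg, he⟩ := Complex.exists_continuousOn_eqOn_exp_comp hs hU hf
    (by rintro ⟨x, hx, h⟩; exact h0 x hx h)
  exact ⟨g, hg, fun x hx => he hx⟩

/-- LOG: a holomorphic logarithm on a convex open set. -/
theorem log_convex {U : Set E} (hU : IsOpen U) (hc : Convex ℝ U) {f : E → ℂ}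
    (hf : DifferentiableOn ℂ f U) (h0 : ∀ x ∈ U, f x ≠ 0) :
    ∃ g : E → ℂ, DifferentiableOn ℂ g U ∧ ∀ x ∈ U, Complex.exp (g x) = f x := by
  obtain ⟨g, hg, he⟩ := log_cont hU hc hf.continuousOn h0
  refine ⟨g, fun x hx => ?_, he⟩
  have hx' := hU.mem_nhds hx
  exact (log_diff (hf.differentiableAt hx') (hg.continuousAt hx')
    (Filter.mem_of_superset hx' he)).differentiableWithinAt

/-- LOG, analytic form. -/
theorem log_convex_an {U : Set E} (hU : IsOpen U) (hc : Convex ℝ U) {f : E → ℂ}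
    (hf : AnalyticOnNhd ℂ f U) (h0 : ∀ x ∈ U, f x ≠ 0) :
    ∃ g : E → ℂ, AnalyticOnNhd ℂ g U ∧ ∀ x ∈ U, Complex.exp (g x) = f x := by
  obtain ⟨g, hg, he⟩ := log_cont hU hc hf.continuousOn h0
  refine ⟨g, fun x hx => ?_, he⟩
  have hx' := hU.mem_nhds hx
  exact log_an (hf x hx) (hg.continuousAt hx') (Filter.mem_of_superset hx' he)

/-- TUBE: if `g` is a logarithm of `f ∘ r` along a retraction `π` and `f` is close to `f ∘ π` on
the open set `T`, then `g + Log (f / f ∘ π)` is a holomorphic logarithm of `f` on `T`. -/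
theorem log_tube {T : Set E} {f f₀ g : E → ℂ} (hf : DifferentiableOn ℂ f T)
    (hg : DifferentiableOn ℂ g T) (he : ∀ x ∈ T, Complex.exp (g x) = f₀ x)
    (hn : ∀ x ∈ T, ‖f x - f₀ x‖ < ‖f₀ x‖) :
    DifferentiableOn ℂ (fun x => g x + Complex.log (f x / f₀ x)) T ∧
      ∀ x ∈ T, Complex.exp (g x + Complex.log (f x / f₀ x)) = f x ∧
        ‖Complex.log (f x / f₀ x)‖ ≤ ‖f x - f₀ x‖ / (‖f₀ x‖ - ‖f x - f₀ x‖) := by
  have h0 : ∀ x ∈ T, f₀ x ≠ 0 := fun x hx => by rw [← he x hx]; exact Complex.exp_ne_zero _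
  have h1 : ∀ x ∈ T, f x / f₀ x = 1 + (f x - f₀ x) / f₀ x := fun x hx => by
    have := h0 x hx
    field_simp
    ring
  have h2 : ∀ x ∈ T, ‖(f x - f₀ x) / f₀ x‖ < 1 := fun x hx => by
    rw [norm_div, div_lt_one (norm_pos_iff.2 (h0 x hx))]; exact hn x hx
  have h3 : ∀ x ∈ T, f x / f₀ x ∈ Complex.slitPlane := fun x hx => by
    rw [h1 x hx]; exact Complex.mem_slitPlane_of_norm_lt_one (h2 x hx)
  have hf0 : DifferentiableOn ℂ f₀ T := hg.cexp.congr fun x hx => (he x hx).symm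
  have hq : DifferentiableOn ℂ (fun x => f x / f₀ x) T := by
    simpa only [div_eq_mul_inv] using hf.fun_mul (hf0.fun_inv h0)
  refine ⟨hg.add (DifferentiableOn.clog hq h3), fun x hx => ⟨?_, ?_⟩⟩
  · rw [Complex.exp_add, he x hx, Complex.exp_log (Complex.slitPlane_ne_zero (h3 x hx)),
      mul_div_cancel₀ _ (h0 x hx)]
  · have h4 := Complex.norm_log_one_add_le (h2 x hx)
    rw [h1 x hx]
    refine h4.trans ?_
    have hp := norm_pos_iff.2 (h0 x hx)
    have h5 := h2 x hx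
    have h6 := hn x hx
    rw [norm_div] at h5 ⊢
    obtain ⟨t, ht⟩ : ∃ t, t = ‖f x - f₀ x‖ / ‖f₀ x‖ := ⟨_, rfl⟩
    have e : ‖f x - f₀ x‖ / (‖f₀ x‖ - ‖f x - f₀ x‖) = t / (1 - t) := by
      have : ‖f₀ x‖ - ‖f x - f₀ x‖ ≠ 0 := by linarith
      rw [ht]; field_simp
    rw [e, ← ht]
    rw [← ht] at h5
    have ht0 : 0 ≤ t := by rw [ht]; positivity
    have h7 : 0 < 1 - t := by linarith
    have e2 : t / (1 - t) - (t ^ 2 * (1 - t)⁻¹ / 2 + t) = t ^ 2 / (2 * (1 - t)) := by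
      field_simp; ring
    have : 0 ≤ t ^ 2 / (2 * (1 - t)) := by positivity
    linarith

/-- Harnack inequality for the real part of a holomorphic function with real part at most `M`. -/
theorem harnack_re {g : E → ℂ} {c : E} {R M : ℝ} (hg : DifferentiableOn ℂ g (ball c R))
    (hM : ∀ x ∈ ball c R, (g x).re ≤ M) {a b : E} (ha : a ∈ ball c (R / 5))
    (hb : b ∈ ball c (R / 5)) : M - (g b).re ≤ 3 * (M - (g a).re) := by
  have hR : 0 < R := by linarith [dist_nonneg.trans_lt (mem_ball.1 ha)]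
  have hab : ‖b - a‖ < 2 * (R / 5) := by
    rw [← dist_eq_norm]
    linarith [dist_triangle_right b a c, mem_ball.1 ha, mem_ball.1 hb]
  have hm : ∀ z ∈ ball (0 : ℂ) 2, a + z • (b - a) ∈ ball c R := fun z hz => by
    rw [mem_ball_zero_iff] at hz
    have h1 : dist (a + z • (b - a)) a = ‖z‖ * ‖b - a‖ := by simp [dist_eq_norm, norm_smul]
    have h2 : ‖z‖ * ‖b - a‖ ≤ 2 * ‖b - a‖ := mul_le_mul_of_nonneg_right hz.le (norm_nonneg _)
    rw [mem_ball]
    linarith [dist_triangle (a + z • (b - a)) a c, mem_ball.1 ha]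
  have hd : DifferentiableOn ℂ (fun z : ℂ => g (a + z • (b - a)) - g a) (ball 0 2) := by
    refine DifferentiableOn.sub_const ?_ _
    exact hg.comp (by fun_prop) hm
  refine le_of_forall_pos_le_add fun ε hε => ?_
  have ha' : a ∈ ball c R := ball_subset_ball (by linarith) ha
  have h3 := Complex.borelCaratheodory_zero (M := M - (g a).re + ε / 2) (R := 2) (z := 1)
    (by linarith [hM a ha']) hd (fun z hz => by
      show (g (a + z • (b - a)) - g a).re ≤ _
      rw [Complex.sub_re]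
      linarith [hM _ (hm z hz)]) two_pos (by simp) (by simp)
  simp only [one_smul, add_sub_cancel, norm_one] at h3
  have h4 := (Complex.abs_re_le_norm (g b - g a)).trans h3
  rw [Complex.sub_re] at h4
  linarith [(abs_le.1 h4).1]

/-- HAR0: Harnack inequality for a holomorphic function without zeros. -/
theorem harnack {F : E → ℂ} {c : E} {R M : ℝ} (hF : DifferentiableOn ℂ F (ball c R))
    (h0 : ∀ x ∈ ball c R, F x ≠ 0) (hM : ∀ x ∈ ball c R, Real.log ‖F x‖ ≤ M) {a b : E}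
    (ha : a ∈ ball c (R / 5)) (hb : b ∈ ball c (R / 5)) :
    M - Real.log ‖F b‖ ≤ 3 * (M - Real.log ‖F a‖) := by
  have hR : 0 < R := by linarith [dist_nonneg.trans_lt (mem_ball.1 ha)]
  obtain ⟨g, hg, he⟩ := log_convex isOpen_ball (convex_ball c R) hF h0
  have hl : ∀ x ∈ ball c R, Real.log ‖F x‖ = (g x).re := fun x hx => by
    rw [← he x hx, Complex.norm_exp, Real.log_exp]
  rw [hl a (ball_subset_ball (by linarith) ha), hl b (ball_subset_ball (by linarith) hb)]
  exact harnack_re hg (fun x hx => hl x hx ▸ hM x hx) ha hb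

/-- CHAIN: local Harnack inequalities on a preconnected set give one on every compact subset.
`f i` is a family of functions that are at most zero on `S`. -/
theorem harnack_chain {X ι : Type*} [TopologicalSpace X] {S K : Set X} (hS : IsPreconnected S)
    (hK : IsCompact K) (hKS : K ⊆ S) (f : ι → X → ℝ) (h0 : ∀ i, ∀ x ∈ S, f i x ≤ 0)
    (hl : ∀ x ∈ S, ∃ C : ℝ, ∀ᶠ y in 𝓝[S] x, ∀ i, C * (f i x - 1) ≤ f i y ∧ C * (f i y - 1) ≤ f i x) :
    ∃ C : ℝ, 1 ≤ C ∧ ∀ i, ∀ a ∈ K, ∀ b ∈ K, C * (f i a - 1) ≤ f i b := by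
  let P : ℝ → X → X → Prop := fun C a b => 1 ≤ C ∧ a ∈ S ∧ b ∈ S ∧ ∀ i, C * (f i a - 1) ≤ f i b
  have up : ∀ {C C' : ℝ} {a b : X}, a ∈ S → C ≤ C' → ∀ i, C * (f i a - 1) ≤ f i b →
      C' * (f i a - 1) ≤ f i b := fun {C C' a b} ha h i h' => by
    have := h0 i a ha
    nlinarith
  have tr : ∀ {C C' : ℝ} {a b c : X}, P C a b → P C' b c → P (C' * (C + 1)) a c := by
    rintro C C' a b c ⟨h1, ha, -, h2⟩ ⟨h3, -, hc, h4⟩
    refine ⟨by nlinarith, ha, hc, fun i => ?_⟩
    have e1 := h0 i a ha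
    have e2 : (C + 1) * (f i a - 1) ≤ f i b - 1 := by linarith [h2 i]
    have e3 := mul_le_mul_of_nonneg_left e2 (by linarith : 0 ≤ C')
    rw [mul_assoc]
    exact e3.trans (h4 i)
  have loc : ∀ x ∈ S, ∃ C, ∀ᶠ y in 𝓝[S] x, P C x y ∧ P C y x := fun x hx => by
    obtain ⟨C, hC⟩ := hl x hx
    refine ⟨max C 1, ?_⟩
    filter_upwards [hC, self_mem_nhdsWithin] with y hy hyS
    exact ⟨⟨le_max_right _ _, hx, hyS, fun i => up hx (le_max_left _ _) i (hy i).1⟩,
      le_max_right _ _, hyS, hx, fun i => up hyS (le_max_left _ _) i (hy i).2⟩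
  have con : ∀ a ∈ S, ∀ b ∈ S, ∃ C, P C a b := fun a ha b hb =>
    hS.induction₂' (fun a b => ∃ C, P C a b)
      (fun x hx => by
        obtain ⟨C, hC⟩ := loc x hx
        filter_upwards [hC] with y hy using ⟨⟨C, hy.1⟩, C, hy.2⟩)
      (fun x y z _ _ _ ⟨C, h⟩ ⟨C', h'⟩ => ⟨_, tr h h'⟩) ha hb
  rcases K.eq_empty_or_nonempty with rfl | ⟨o, ho⟩
  · exact ⟨1, le_rfl, fun _ _ h => h.elim⟩
  have hoS := hKS ho
  have mono : ∀ {C C' : ℝ} {a b : X}, C ≤ C' → P C a b → P C' a b :=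
    fun {C C' a b} h ⟨h1, ha, hb, h2⟩ => ⟨h1.trans h, ha, hb, fun i => up ha h i (h2 i)⟩
  have uni : ∃ C, ∀ y ∈ K, P C o y ∧ P C y o := by
    refine hK.induction_on (p := fun T => ∃ C, ∀ y ∈ T, P C o y ∧ P C y o)
      ⟨1, fun _ h => h.elim⟩ (fun s t hst ⟨C, hC⟩ => ⟨C, fun y hy => hC y (hst hy)⟩)
      (fun s t ⟨C, hC⟩ ⟨C', hC'⟩ => ⟨max C C', fun y hy => ?_⟩) fun x hx => ?_
    · rcases hy with hy | hy
      · exact ⟨mono (le_max_left _ _) (hC y hy).1, mono (le_max_left _ _) (hC y hy).2⟩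
      · exact ⟨mono (le_max_right _ _) (hC' y hy).1, mono (le_max_right _ _) (hC' y hy).2⟩
    · obtain ⟨C, hC⟩ := loc x (hKS hx)
      obtain ⟨C₁, h₁⟩ := con o hoS x (hKS hx)
      obtain ⟨C₂, h₂⟩ := con x (hKS hx) o hoS
      refine ⟨_, nhdsWithin_mono x hKS hC, max (C * (C₁ + 1)) (C₂ * (C + 1)), fun y hy => ?_⟩
      exact ⟨mono (le_max_left _ _) (tr h₁ hy.1), mono (le_max_right _ _) (tr hy.2 h₂)⟩
  obtain ⟨C, hC⟩ := uni
  have h1 := (hC o ho).1.1
  exact ⟨C * (C + 1), by nlinarith, fun i a ha b hb => (tr (hC a ha).2 (hC b hb).1).2.2.2 i⟩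

end Pool.Agent.Lib.S3K
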