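import Mathlib

/-! Project S3, kit: one polynomial kills all zeros. -/

open Filter Topology Finset

noncomputable section

namespace Pool.Agent.Lib.S3K

/-- If every finite subset of `T` is killed by a non-zero vector, then so is `T`. -/
theorem kill {α V : Type*} [AddCommGroup V] [Module ℂ V] [FiniteDimensional ℂ V]
    (ev : α → V →ₗ[ℂ] ℂ) (T : Set α)
    (h : ∀ F : Finset α, ↑F ⊆ T → ∃ a ≠ 0, ∀ p ∈ F, ev p a = 0) :
    ∃ a ≠ 0, ∀ p ∈ T, ev p a = 0 := by
  classical
  let K : Finset α → Submodule ℂ V := fun F => ⨅ p ∈ F, LinearMap.ker (ev p)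
  have hK : ∀ F a, a ∈ K F ↔ ∀ p ∈ F, ev p a = 0 := fun F a => by
    simp [K, Submodule.mem_iInf]
  obtain ⟨W, ⟨F, hF, rfl⟩, hmin⟩ := (wellFounded_lt (α := Submodule ℂ V)).has_min
    {W | ∃ F : Finset α, ↑F ⊆ T ∧ K F = W} ⟨K ∅, ∅, by simp, rfl⟩
  obtain ⟨a, ha, h0⟩ := h F hF
  refine ⟨a, ha, fun p hp => ?_⟩
  have hle : K (insert p F) ≤ K F := fun b hb =>
    (hK _ _).2 fun q hq => (hK _ _).1 hb q (mem_insert_of_mem hq)
  have heq : K (insert p F) = K F := by
    by_contra hne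
    exact hmin _ ⟨insert p F, by
      rw [coe_insert]
      exact Set.insert_subset hp hF, rfl⟩ (lt_of_le_of_ne hle hne)
  have : a ∈ K (insert p F) := heq ▸ (hK _ _).2 h0
  exact (hK _ _).1 this p (mem_insert_self _ _)

/-- A family without common zero on a finite set has a combination without zero there. -/
theorem avoid {α J : Type*} [Fintype J] (s : J → α → ℂ) (F : Finset α)
    (h : ∀ p ∈ F, ∃ j, s j p ≠ 0) : ∃ c : J → ℂ, ∀ p ∈ F, ∑ j, c j * s j p ≠ 0 := by
  classical
  let P : MvPolynomial J ℂ := ∏ p ∈ F, ∑ j, MvPolynomial.X j * MvPolynomial.C (s j p)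
  have hP : P ≠ 0 := by
    refine prod_ne_zero_iff.2 fun p hp h0 => ?_
    obtain ⟨j, hj⟩ := h p hp
    have := congrArg (MvPolynomial.eval (Pi.single j (1 : ℂ))) h0
    simp [Pi.single_apply] at this
    exact hj this
  have : ∃ c : J → ℂ, MvPolynomial.eval c P ≠ 0 := by
    by_contra hc
    push Not at hc
    exact hP (MvPolynomial.funext fun c => by simpa using hc c)
  obtain ⟨c, hc⟩ := this
  refine ⟨c, fun p hp h0 => hc ?_⟩
  simp only [P, map_prod]
  exact prod_eq_zero hp (by simpa using h0)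

/-- The top coefficient of a relation. -/
theorem top {R : Type*} [CommRing R] [IsDomain R] (s t : R) (hs : s ≠ 0) (a : ℕ → R) :
    ∀ m : ℕ, ∑ i ∈ range (m + 1), a i * t ^ i * s ^ (m - i) = 0 → (∃ i ≤ m, a i ≠ 0) →
      ∃ i ≤ m, a i ≠ 0 ∧ s ∣ a i * t ^ i := by
  intro m
  induction m with
  | zero =>
    rintro h ⟨i, hi, hne⟩
    obtain rfl : i = 0 := by omega
    simp at h
    exact absurd h hne
  | succ m ih =>
    rintro h ⟨i, hi, hne⟩
    have e : ∑ i ∈ range (m + 1), a i * t ^ i * s ^ (m + 1 - i) =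
        s * ∑ i ∈ range (m + 1), a i * t ^ i * s ^ (m - i) := by
      rw [mul_sum]
      refine sum_congr rfl fun i hi => ?_
      have : m + 1 - i = (m - i) + 1 := by
        have := mem_range.1 hi
        omega
      rw [this, pow_succ]
      ring
    rw [sum_range_succ, e, Nat.sub_self, pow_zero, mul_one] at h
    by_cases h0 : a (m + 1) = 0
    · rw [h0, zero_mul, add_zero] at h
      have hi' : i ≤ m := by
        by_contra hc
        obtain rfl : i = m + 1 := by omega
        exact hne h0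
      obtain ⟨j, hj, h1⟩ := ih ((mul_eq_zero.1 h).resolve_left hs) ⟨i, hi', hne⟩
      exact ⟨j, by omega, h1⟩
    · exact ⟨m + 1, le_rfl, h0, ⟨-∑ i ∈ range (m + 1), a i * t ^ i * s ^ (m - i), by
        linear_combination h⟩⟩

/-- A limit of non-zero vectors of a space of finite dimension. -/
theorem plim {Y V : Type*} [TopologicalSpace Y] [AddCommGroup V] [Module ℂ V]
    [FiniteDimensional ℂ V] (ev : Y → V →ₗ[ℂ] ℂ) (hc : ∀ a, Continuous fun y => ev y a)
    (a : ℕ → V) (ha : ∀ q, a q ≠ 0) : ∃ b ≠ 0, ∃ φ : ℕ → ℕ, StrictMono φ ∧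
      ∀ K : Set Y, IsCompact K → (∀ y ∈ K, ev y b ≠ 0) →
        ∀ᶠ k in atTop, ∀ y ∈ K, ev y (a (φ k)) ≠ 0 := by
  classical
  let B := Module.finBasis ℂ V
  let e := B.equivFun
  let u : ℕ → (Fin (Module.finrank ℂ V) → ℂ) := fun q => (‖e (a q)‖⁻¹ : ℂ) • e (a q)
  have hn : ∀ q, ‖e (a q)‖ ≠ 0 := fun q => by simpa using ha q
  have hu : ∀ q, u q ∈ Metric.sphere (0 : Fin (Module.finrank ℂ V) → ℂ) 1 := fun q => by
    simp [u, norm_smul, inv_mul_cancel₀ (hn q)]
  obtain ⟨b, hb, φ, hφ, hl⟩ := (isCompact_sphere _ _).tendsto_subseq hu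
  have hb0 : b ≠ 0 := by
    rintro rfl
    simp at hb
  have key : ∀ y (v : Fin (Module.finrank ℂ V) → ℂ), ev y (e.symm v) = ∑ i, v i * ev y (B i) :=
    fun y v => by simp [e, Module.Basis.equivFun_symm_apply]
  refine ⟨e.symm b, by simpa using hb0, φ, hφ, fun K hK h0 => ?_⟩
  have hG : Continuous fun p : (Fin (Module.finrank ℂ V) → ℂ) × Y => ∑ i, p.1 i * ev p.2 (B i) :=
    continuous_finsetSum _ fun i _ =>
      ((continuous_apply i).comp continuous_fst).mul ((hc _).comp continuous_snd)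
  have hev : ∀ᶠ v in 𝓝 b, ∀ y ∈ K, ∑ i, v i * ev y (B i) ≠ 0 := by
    refine hK.eventually_forall_of_forall_eventually fun y hy => ?_
    exact hG.continuousAt.eventually_ne (by simpa [← key] using h0 y hy)
  filter_upwards [hl.eventually hev] with k hk y hy h1
  refine hk y hy ?_
  rw [← key]
  simp [u, h1]

end Pool.Agent.Lib.S3K
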