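import Mathlib

/-! Kit: holomorphic logarithms, the inequality of Harnack, a maximum principle over a disc. -/

open scoped Topology
open Set Filter Metric Complex

noncomputable section

namespace Pool.Agent.Lib.S3K

section hol

variable {X : Type} [NormedAddCommGroup X] [NormedSpace ℂ X]

/-- A holomorphic function without zero on a convex open set has a holomorphic logarithm. -/
theorem hlogC {U : Set X} (hU : IsOpen U) (hc : Convex ℝ U) {f : X → ℂ}
    (hf : DifferentiableOn ℂ f U) (h0 : ∀ x ∈ U, f x ≠ 0) :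
    ∃ L : X → ℂ, DifferentiableOn ℂ L U ∧ ∀ x ∈ U, exp (L x) = f x := by
  rcases U.eq_empty_or_nonempty with rfl | hne
  · exact ⟨0, differentiableOn_empty, fun x h => h.elim⟩
  have := hc.contractibleSpace hne
  have hs : IsSimplyConnected U := SimplyConnectedSpace.ofContractible U
  obtain ⟨L, hL, he⟩ := exists_continuousOn_eqOn_exp_comp hs hU hf.continuousOn
    (by rintro ⟨x, hx, h⟩; exact h0 x hx h)
  refine ⟨L, fun x hx => DifferentiableAt.differentiableWithinAt ?_, fun x hx => he hx⟩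
  have hx' := hU.mem_nhds hx
  have h1 : ∀ᶠ y in 𝓝 x, L y ∈ ball (L x) 1 := (hL.continuousAt hx') (ball_mem_nhds _ one_pos)
  have h2 : L =ᶠ[𝓝 x] fun y => L x + log (f y / f x) := by
    filter_upwards [h1, hx'] with y hy hyU
    have h3 : |(L y - L x).im| < 1 :=
      (abs_im_le_norm _).trans_lt (by rwa [mem_ball, dist_eq_norm] at hy)
    have e1 : f y = exp (L y) := (he hyU).symm
    have e2 : f x = exp (L x) := (he hx).symm
    rw [e1, e2, ← exp_sub, log_exp (by linarith [(abs_lt.1 h3).1, Real.pi_gt_three])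
      (by linarith [(abs_lt.1 h3).2, Real.pi_gt_three]), add_sub_cancel]
  refine DifferentiableAt.congr_of_eventuallyEq ?_ h2
  have h4 : DifferentiableAt ℂ (fun y => f y / f x) x := by
    simp only [div_eq_mul_inv]
    exact (hf.differentiableAt hx').mul_const _
  refine (h4.clog ?_).const_add _
  rw [div_self (h0 x hx)]
  exact one_mem_slitPlane

/-- The inequality of Harnack for the real part of a holomorphic function. -/
theorem harn_re {a y : X} {R M : ℝ} {L : X → ℂ} (hR : 0 < R) (hL : DifferentiableOn ℂ L (ball a R))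
    (hM : ∀ x ∈ ball a R, (L x).re ≤ M) (hy : ‖y - a‖ ≤ R / 2) :
    M - (L y).re ≤ 3 * (M - (L a).re) := by
  have hm : ∀ t ∈ ball (0 : ℂ) 2, a + t • (y - a) ∈ ball a R := by
    intro t ht
    rw [mem_ball_zero_iff] at ht
    rw [mem_ball, dist_eq_norm, add_sub_cancel_left, norm_smul]
    nlinarith [norm_nonneg t, norm_nonneg (y - a)]
  have ha := hM a (mem_ball_self hR)
  refine le_of_forall_pos_le_add fun ε hε => ?_
  have h := borelCaratheodory_zero (f := fun t : ℂ => L (a + t • (y - a)) - L a)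
    (M := M - (L a).re + ε / 2) (R := 2) (z := 1) (by linarith)
    ((hL.comp (by fun_prop) hm).sub_const _)
    (fun t ht => by
      have := hM _ (hm t ht)
      simp only [mem_ofPred_eq, sub_re]
      linarith) two_pos (by simp) (by simp)
  simp only [one_smul, add_sub_cancel, norm_one] at h
  have h2 := (abs_le.1 ((abs_re_le_norm _).trans h)).1
  rw [sub_re] at h2
  linarith

/-- The symmetric form, on the ball of one fifth of the radius. -/
theorem harn_re' {a x y : X} {R M : ℝ} {L : X → ℂ} (hL : DifferentiableOn ℂ L (ball a R))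
    (hM : ∀ x ∈ ball a R, (L x).re ≤ M) (hx : x ∈ ball a (R / 5)) (hy : y ∈ ball a (R / 5)) :
    M - (L y).re ≤ 3 * (M - (L x).re) := by
  rw [mem_ball] at hx hy
  have hR : 0 < R := by linarith [dist_nonneg (x := x) (y := a)]
  have hs : ball x (4 * R / 5) ⊆ ball a R := ball_subset_ball' (by linarith)
  refine harn_re (R := 4 * R / 5) (by linarith) (hL.mono hs) (fun z hz => hM z (hs hz)) ?_
  rw [← dist_eq_norm]
  linarith [dist_triangle_right y x a]

/-- The inequality of Harnack for a holomorphic function without zero. -/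
theorem harn {a x y : X} {R M : ℝ} {f : X → ℂ} (hf : DifferentiableOn ℂ f (ball a R))
    (h0 : ∀ x ∈ ball a R, f x ≠ 0) (hM : ∀ x ∈ ball a R, Real.log ‖f x‖ ≤ M)
    (hx : x ∈ ball a (R / 5)) (hy : y ∈ ball a (R / 5)) :
    M - Real.log ‖f y‖ ≤ 3 * (M - Real.log ‖f x‖) := by
  obtain ⟨L, hL, he⟩ := hlogC isOpen_ball (convex_ball a R) hf h0
  have h1 : ∀ z ∈ ball a R, Real.log ‖f z‖ = (L z).re := fun z hz => by
    rw [← he z hz, norm_exp, Real.log_exp]
  have hR : 0 < R := by linarith [dist_nonneg (x := x) (y := a), mem_ball.1 hx]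
  have hs : ball a (R / 5) ⊆ ball a R := ball_subset_ball (by linarith)
  rw [h1 x (hs hx), h1 y (hs hy)]
  exact harn_re' hL (fun z hz => h1 z hz ▸ hM z hz) hx hy

end hol

/-- From a local to a global inequality of Harnack on a connected set. -/
theorem conn {X ι : Type} [TopologicalSpace X] {S K K' : Set X} (hS : IsPreconnected S)
    (U : Filter ι) (lam : ι → X → ℝ)
    (h : ∀ p ∈ S, ∃ N ∈ 𝓝[S] p, ∀ b : ℝ, ∃ b' : ℝ, ∀ᶠ q in U, ∀ x ∈ N, ∀ y ∈ N,
      b ≤ lam q x → b' ≤ lam q y)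
    (hK : IsCompact K) (hKS : K ⊆ S) (hK' : IsCompact K') (hKS' : K' ⊆ S) (b : ℝ) :
    ∃ b' : ℝ, ∀ᶠ q in U, ∀ x ∈ K, ∀ y ∈ K', b ≤ lam q x → b' ≤ lam q y := by
  let H : Set X → Set X → Prop := fun A B => ∀ b : ℝ, ∃ b' : ℝ, ∀ᶠ q in U, ∀ x ∈ A, ∀ y ∈ B,
    b ≤ lam q x → b' ≤ lam q y
  have mo : ∀ A A' B B', A' ⊆ A → B' ⊆ B → H A B → H A' B' := fun A A' B B' hA hB k b =>
    (k b).imp fun b' k' => k'.mono fun q k'' x hx y hy => k'' x (hA hx) y (hB hy)
  have tr : ∀ A B p, H A {p} → H {p} B → H A B := fun A B p k1 k2 b => by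
    obtain ⟨b1, k3⟩ := k1 b
    obtain ⟨b2, k4⟩ := k2 b1
    refine ⟨b2, ?_⟩
    filter_upwards [k3, k4] with q k5 k6 x hx y hy k7
    exact k6 p rfl y hy (k5 x hx p rfl k7)
  have pt : ∀ x ∈ S, ∀ y ∈ S, H {x} {y} := fun x hx y hy => by
    refine hS.induction₂' (fun x y => H {x} {y}) (fun p hp => ?_)
      (fun a b c _ _ _ => tr _ _ b) hx hy
    obtain ⟨N, hN, k⟩ := h p hp
    have hp' := singleton_subset_iff.2 (mem_of_mem_nhdsWithin hp hN)
    filter_upwards [hN] with z hz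
    exact ⟨mo N _ N _ hp' (singleton_subset_iff.2 hz) k, mo N _ N _ (singleton_subset_iff.2 hz) hp' k⟩
  have un : ∀ A B A' B' A'' B'', H A B → H A' B' →
      (∀ x ∈ A'', ∀ y ∈ B'', (x ∈ A ∧ y ∈ B) ∨ (x ∈ A' ∧ y ∈ B')) → H A'' B'' :=
    fun A B A' B' A'' B'' k1 k2 k b => by
      obtain ⟨b1, k3⟩ := k1 b
      obtain ⟨b2, k4⟩ := k2 b
      refine ⟨min b1 b2, ?_⟩
      filter_upwards [k3, k4] with q k5 k6 x hx y hy k7
      rcases k x hx y hy with k8 | k8
      · exact (min_le_left _ _).trans (k5 x k8.1 y k8.2 k7)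
      · exact (min_le_right _ _).trans (k6 x k8.1 y k8.2 k7)
  refine hK.induction_on (p := fun A => H A K') (fun b => ⟨0, .of_forall fun q x hx => hx.elim⟩)
    (fun A A' k => mo _ _ _ _ k subset_rfl)
    (fun A A' k k' => un _ _ _ _ _ _ k k' fun x hx y hy => hx.imp (⟨·, hy⟩) (⟨·, hy⟩))
    (fun p hp => ?_) b
  obtain ⟨N, hN, k⟩ := h p (hKS hp)
  refine ⟨N, nhdsWithin_mono _ hKS hN, tr _ _ p (mo N _ N _ subset_rfl
    (singleton_subset_iff.2 (mem_of_mem_nhdsWithin (hKS hp) hN)) k) ?_⟩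
  refine hK'.induction_on (p := fun B => H {p} B)
    (fun b => ⟨0, .of_forall fun q x _ y hy => hy.elim⟩) (fun A A' k => mo _ _ _ _ subset_rfl k)
    (fun A A' k k' => un _ _ _ _ _ _ k k' fun x hx y hy => hy.imp (⟨hx, ·⟩) (⟨hx, ·⟩))
    (fun p' hp' => ?_)
  obtain ⟨N', hN', k'⟩ := h p' (hKS' hp')
  exact ⟨N', nhdsWithin_mono _ hKS' hN', tr _ _ p' (pt p (hKS hp) p' (hKS' hp')) (mo N' _ N' _
    (singleton_subset_iff.2 (mem_of_mem_nhdsWithin (hKS' hp') hN')) subset_rfl k')⟩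

/-- A circle on which a polynomial is bounded below by a constant that depends only on the degree,
the radius and the leading coefficient. -/
theorem circ (P : Polynomial ℂ) {r : ℝ} (hr : 0 < r) : ∃ r' ∈ Icc (r / 2) r, ∀ t : ℂ, ‖t‖ = r' →
    ‖P.leadingCoeff‖ * (r / (4 * (P.natDegree + 1))) ^ P.natDegree ≤ ‖P.eval t‖ := by
  classical
  set e := P.natDegree with he
  set g : ℝ := r / (4 * (e + 1)) with hg
  have hg0 : 0 < g := by positivity
  have hgr : 4 * (e + 1) * g = r := by rw [hg]; field_simp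
  have hcard : P.roots.card = e := IsAlgClosed.card_roots_eq_natDegree
  obtain ⟨j, hj, hj'⟩ : ∃ j ∈ Finset.range (e + 1),
      j ∉ P.roots.toFinset.image fun z => ⌊(‖z‖ - r / 2) / (2 * g)⌋₊ := by
    refine Finset.exists_mem_notMem_of_card_lt_card ?_
    rw [Finset.card_range]
    exact Nat.lt_succ_of_le (Finset.card_image_le.trans ((Multiset.toFinset_card_le _).trans hcard.le))
  have hje : (j : ℝ) ≤ e := by exact_mod_cast Nat.lt_succ_iff.1 (Finset.mem_range.1 hj)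
  have hj0 : (0 : ℝ) ≤ j := j.cast_nonneg
  refine ⟨r / 2 + (2 * j + 1) * g, ⟨by nlinarith, by nlinarith⟩, fun t ht => ?_⟩
  rw [(IsAlgClosed.splits P).eval_eq_prod_roots, norm_mul]
  refine mul_le_mul_of_nonneg_left ?_ (norm_nonneg _)
  have hz : ∀ z ∈ P.roots, g ≤ ‖t - z‖ := fun z hz => by
    by_contra hlt
    have h1 := abs_lt.1 ((abs_norm_sub_norm_le t z).trans_lt (not_le.1 hlt))
    refine hj' (Finset.mem_image.2 ⟨z, Multiset.mem_toFinset.2 hz, ?_⟩)
    have h2 : (j : ℝ) ≤ (‖z‖ - r / 2) / (2 * g) := by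
      rw [le_div_iff₀ (by positivity)]; linarith [h1.2]
    have h3 : (‖z‖ - r / 2) / (2 * g) < j + 1 := by
      rw [div_lt_iff₀ (by positivity)]; linarith [h1.1]
    exact (Nat.floor_eq_iff (hj0.trans h2)).2 ⟨h2, h3⟩
  rw [← hcard]
  generalize P.roots = s at hz
  induction s using Multiset.induction_on with
  | empty => simp
  | cons a s ih =>
    rw [Multiset.map_cons, Multiset.prod_cons, norm_mul, Multiset.card_cons, pow_succ']
    exact mul_le_mul (hz a (Multiset.mem_cons_self _ _))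
      (ih fun z h => hz z (Multiset.mem_cons_of_mem h)) (by positivity) (norm_nonneg _)

/-- The maximum principle on a compact space spread over a disc, with a removable set given by the
zeros of a holomorphic function `P`. -/
theorem line {X : Type} [TopologicalSpace X] {T : Set X} (hT : IsCompact T) {ζ : X → ℂ}
    {G : X → ℝ} {P : ℂ → ℂ} {r : ℝ} (hζ : ContinuousOn ζ T) (hG : ContinuousOn G T)
    (hG0 : ∀ p ∈ T, 0 ≤ G p) (hr : ∀ p ∈ T, ‖ζ p‖ ≤ r) (hP : Differentiable ℂ P)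
    (hs : ∀ p ∈ T, ‖ζ p‖ < r → P (ζ p) ≠ 0 → G p ≠ 0 → ∃ (σ : ℂ → X) (L : ℂ → ℂ), σ (ζ p) = p ∧
      ∀ᶠ t in 𝓝 (ζ p), σ t ∈ T ∧ ζ (σ t) = t ∧ DifferentiableAt ℂ L t ∧
        G (σ t) = Real.exp (L t).re)
    {p : X} (hp : p ∈ T) (hp0 : P (ζ p) ≠ 0) (hp1 : G p ≠ 0) :
    ∃ p' ∈ T, ‖ζ p'‖ = r ∧ G p ≤ G p' := by
  have hN : ContinuousOn (fun x => ‖P (ζ x)‖) T := (hP.continuous.comp_continuousOn hζ).norm
  have key : ∀ ε : ℝ, 0 < ε → ∃ p' ∈ T, ‖ζ p'‖ = r ∧
      G p * ‖P (ζ p)‖ ^ ε ≤ G p' * ‖P (ζ p')‖ ^ ε := by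
    intro ε hε
    have hφ : ContinuousOn (fun x => G x * ‖P (ζ x)‖ ^ ε) T :=
      hG.mul (hN.rpow_const fun _ _ => Or.inr hε.le)
    obtain ⟨a, ha, hmax⟩ := hT.exists_isMaxOn ⟨p, hp⟩ hφ
    have hT' : IsCompact (T ∩ (fun x => G x * ‖P (ζ x)‖ ^ ε) ⁻¹' {G a * ‖P (ζ a)‖ ^ ε}) := by
      have : CompactSpace T := isCompact_iff_compactSpace.1 hT
      have h1 : IsCompact ((fun x : T => G x * ‖P (ζ x)‖ ^ ε) ⁻¹' {G a * ‖P (ζ a)‖ ^ ε}) :=
        (isClosed_singleton.preimage (continuousOn_iff_continuous_domRestrict.1 hφ)).isCompact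
      have h2 := h1.image continuous_subtype_val
      rwa [show (fun x : T => G x * ‖P (ζ x)‖ ^ ε) =
        (fun x => G x * ‖P (ζ x)‖ ^ ε) ∘ Subtype.val from rfl, preimage_comp,
        Subtype.image_preimage_coe] at h2
    obtain ⟨b, ⟨hb, hb'⟩, hmb⟩ := hT'.exists_isMaxOn ⟨a, ha, rfl⟩
      (hζ.mono inter_subset_left).norm
    have hb'' : G b * ‖P (ζ b)‖ ^ ε = G a * ‖P (ζ a)‖ ^ ε := hb'
    have hpa : G p * ‖P (ζ p)‖ ^ ε ≤ G a * ‖P (ζ a)‖ ^ ε := hmax hp
    refine ⟨b, hb, (hr b hb).eq_of_not_lt fun hlt => ?_, hb'' ▸ hpa⟩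
    have hpos : 0 < G b * ‖P (ζ b)‖ ^ ε := hb'' ▸ lt_of_lt_of_le (mul_pos
      ((hG0 p hp).lt_of_ne' hp1) (Real.rpow_pos_of_pos (norm_pos_iff.2 hp0) _)) hpa
    have hb0 : P (ζ b) ≠ 0 := fun h => by
      rw [h, norm_zero, Real.zero_rpow hε.ne', mul_zero] at hpos
      exact lt_irrefl _ hpos
    have hb1 : G b ≠ 0 := fun h => by
      rw [h, zero_mul] at hpos
      exact lt_irrefl _ hpos
    obtain ⟨σ, L, hσ, hev⟩ := hs b hb hlt hb0 hb1
    obtain ⟨δ, hδ, hball⟩ := Metric.eventually_nhds_iff_ball.1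
      (hP.continuous.continuousAt.eventually_ne hb0)
    obtain ⟨l, hl, hle⟩ := hlogC isOpen_ball (convex_ball (ζ b) δ) hP.differentiableOn hball
    have hbn := ball_mem_nhds (ζ b) hδ
    have hnorm : ∀ᶠ t in 𝓝 (ζ b), ‖exp (L t + ε * l t)‖ = G (σ t) * ‖P (ζ (σ t))‖ ^ ε := by
      filter_upwards [hev, hbn] with t ht ht'
      rw [ht.2.1, ht.2.2.2, ← hle t ht', norm_exp, norm_exp, add_re, Real.exp_add, re_ofReal_mul,
        ← Real.exp_mul, mul_comm ε]
    have hloc := eventually_eq_of_isLocalMax_norm (f := fun t => exp (L t + ε * l t)) (c := ζ b)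
      (by
        filter_upwards [hev, isOpen_ball.eventually_mem (mem_ball_self hδ)] with t ht ht'
        exact (ht.2.2.1.add ((hl.differentiableAt (isOpen_ball.mem_nhds ht')).const_mul _)).cexp)
      (by
        filter_upwards [hev, hnorm] with t ht ht'
        simp only [Function.comp]
        rw [ht', hnorm.self_of_nhds, hσ, hb'']
        exact hmax ht.1)
    have hle' : IsLocalMax (norm ∘ fun t : ℂ => t) (ζ b) := by
      filter_upwards [hev, hnorm, hloc] with t ht ht' ht''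
      have h1 : G (σ t) * ‖P (ζ (σ t))‖ ^ ε = G a * ‖P (ζ a)‖ ^ ε := by
        rw [← ht', ht'', hnorm.self_of_nhds, hσ, hb'']
      have h2 : ‖ζ (σ t)‖ ≤ ‖ζ b‖ := hmb ⟨ht.1, h1⟩
      rwa [ht.2.1] at h2
    have h3 := eventually_eq_of_isLocalMax_norm (.of_forall fun _ => differentiableAt_id) hle'
    obtain ⟨t, ht, ht'⟩ := ((h3.filter_mono nhdsWithin_le_nhds).and
      (self_mem_nhdsWithin (s := {ζ b}ᶜ))).exists
    exact ht' ht
  have : CompactSpace T := isCompact_iff_compactSpace.1 hT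
  have hC : IsCompact ((fun x : T => ‖ζ x‖) ⁻¹' {r}) :=
    (isClosed_singleton.preimage (continuousOn_iff_continuous_domRestrict.1 hζ).norm).isCompact
  obtain ⟨a, ha, ha', -⟩ := key 1 one_pos
  obtain ⟨m, hm, hmax⟩ := hC.exists_isMaxOn (f := fun x : T => G x) ⟨⟨a, ha⟩, ha'⟩
    (continuousOn_iff_continuous_domRestrict.1 hG).continuousOn
  obtain ⟨C, hC'⟩ := hT.exists_bound_of_continuousOn (hP.continuous.comp_continuousOn hζ)
  have hC0 : 0 < C := (norm_pos_iff.2 hp0).trans_le (hC' p hp)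
  refine ⟨m, m.2, hm, ?_⟩
  have t1 : Tendsto (fun ε : ℝ => G p * ‖P (ζ p)‖ ^ ε) (𝓝[>] 0) (𝓝 (G p * ‖P (ζ p)‖ ^ (0 : ℝ))) :=
    ((Real.continuousAt_const_rpow (norm_ne_zero_iff.2 hp0)).tendsto.const_mul _).mono_left
      nhdsWithin_le_nhds
  have t2 : Tendsto (fun ε : ℝ => G m * C ^ ε) (𝓝[>] 0) (𝓝 (G m * C ^ (0 : ℝ))) :=
    ((Real.continuousAt_const_rpow hC0.ne').tendsto.const_mul _).mono_left nhdsWithin_le_nhds
  rw [Real.rpow_zero, mul_one] at t1 t2
  refine le_of_tendsto_of_tendsto t1 t2 ?_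
  filter_upwards [self_mem_nhdsWithin] with ε hε
  obtain ⟨b, hb, hb1, hb2⟩ := key ε hε
  exact hb2.trans (mul_le_mul (hmax (a := ⟨b, hb⟩) hb1)
    (Real.rpow_le_rpow (norm_nonneg _) (hC' b hb) (le_of_lt hε))
    (Real.rpow_nonneg (norm_nonneg _) _) (hG0 m m.2))

end Pool.Agent.Lib.S3K
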