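import Pool.Agent.Lib.SV.Hol85

/-! Kit PATCH: an almost holomorphic root of a function without zero, near a compact set. -/

open scoped Classical Topology ContDiff
open Set Complex Metric Filter

noncomputable section

namespace Pool.Agent.Lib.S3K

namespace Patch

/-- Simultaneous approximation of unit complex numbers. -/
theorem diri (κ : Type) [Fintype κ] {δ : ℝ} (hδ : 0 < δ) (x : ℕ) : ∃ n₀ : ℕ, ∀ ζ : κ → ℂ,
    (∀ j, ‖ζ j‖ = 1) → ∃ n, x < n ∧ n ≤ n₀ ∧ ∀ j, ‖ζ j ^ n - 1‖ ≤ δ := by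
  obtain ⟨t, -, ht, hc⟩ := finite_cover_balls_of_compact
    (isCompact_closedBall (0 : κ → ℂ) 1) (half_pos hδ)
  refine ⟨ht.toFinset.card * (x + 1), fun ζ hζ => ?_⟩
  have h1 : ∀ i : ℕ, ∃ c ∈ ht.toFinset, (fun j => ζ j ^ (i * (x + 1))) ∈ ball c (δ / 2) :=
    fun i => by
      have := hc (a := fun j => ζ j ^ (i * (x + 1))) (mem_closedBall_zero_iff.2
        ((pi_norm_le_iff_of_nonneg zero_le_one).2 fun j => by simp [hζ j]))
      simpa using this
  choose c c1 c2 using h1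
  have key : ∀ a b : ℕ, a < b → b ≤ ht.toFinset.card → c a = c b →
      ∃ n, x < n ∧ n ≤ ht.toFinset.card * (x + 1) ∧ ∀ j, ‖ζ j ^ n - 1‖ ≤ δ := by
    intro a b hab hb h
    obtain ⟨k, rfl⟩ := Nat.exists_eq_add_of_lt hab
    refine ⟨(k + 1) * (x + 1), by nlinarith, Nat.mul_le_mul_right _ (by omega), fun j => ?_⟩
    have d := (dist_le_pi_dist _ _ j).trans
      (dist_lt_add_of_nonempty_ball_inter_ball_aux (c2 (a + k + 1)) (h ▸ c2 a))
    rw [dist_eq_norm, show (a + k + 1) * (x + 1) = a * (x + 1) + (k + 1) * (x + 1) by ring,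
      pow_add, ← mul_sub_one, norm_mul, norm_pow, hζ j, one_pow, one_mul] at d
    exact d
  obtain ⟨a, ha, b, hb, hne, h⟩ := Finset.exists_ne_map_eq_of_card_lt_of_maps_to
    (s := Finset.range (ht.toFinset.card + 1)) (t := ht.toFinset) (by simp) (f := c)
    fun i _ => c1 i
  rw [Finset.mem_range] at ha hb
  rcases lt_or_gt_of_ne hne with k | k
  · exact key a b k (by omega) h
  · exact key b a k (by omega) h.symm
where
  dist_lt_add_of_nonempty_ball_inter_ball_aux {u v c : κ → ℂ} (hu : u ∈ ball c (δ / 2))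
      (hv : v ∈ ball c (δ / 2)) : dist u v ≤ δ := by
    have := dist_triangle_right u v c
    rw [mem_ball] at hu hv
    linarith

variable {E G : Type} [NormedAddCommGroup E] [NormedSpace ℂ E] [NormedAddCommGroup G]
  [NormedSpace ℂ G]

theorem cst {S : Set G} (hS : IsPreconnected S) {h : G → ℂ} (hc : ContinuousOn h S)
    (he : ∀ a ∈ S, exp (h a) = 1) {a b : G} (ha : a ∈ S) (hb : b ∈ S) : h a = h b :=
  isCoveringMap_exp.constOn_of_comp hS hc
    (fun u hu v hv => Subtype.ext ((he u hu).trans (he v hv).symm)) ha hb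

/-- A holomorphic logarithm on a ball. -/
theorem hlog {c : G} {ρ : ℝ} (hρ : 0 < ρ) {g : G → ℂ} (hg : DifferentiableOn ℂ g (ball c ρ))
    (h0 : ∀ v ∈ ball c ρ, g v ≠ 0) :
    ∃ L, DifferentiableOn ℂ L (ball c ρ) ∧ ∀ v ∈ ball c ρ, exp (L v) = g v := by
  have := (convex_ball c ρ).contractibleSpace (nonempty_ball.2 hρ)
  obtain ⟨L, h1, h2⟩ := exists_continuousOn_eqOn_exp_comp (U := ball c ρ)
    (show SimplyConnectedSpace (ball c ρ) from inferInstance) isOpen_ball hg.continuousOn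
    (fun ⟨v, hv, k⟩ => h0 v hv k)
  refine ⟨L, fun v hv => DifferentiableAt.differentiableWithinAt ?_, h2⟩
  have hn := isOpen_ball.mem_nhds hv
  have c1 : ContinuousAt (fun w => L w - L v) v := (h1.continuousAt hn).sub continuousAt_const
  have e1 : ∀ᶠ w in 𝓝 v, ‖L w - L v‖ < 1 := by
    have := c1.norm.eventually (gt_mem_nhds (show ‖L v - L v‖ < 1 by simp))
    exact this
  have d1 : DifferentiableAt ℂ (fun w => log (g w / g v) + L v) v :=
    (DifferentiableAt.clog (f := fun w => g w / g v) ((hg.differentiableAt hn).mul_const _)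
      (by rw [div_self (h0 v hv)]; exact one_mem_slitPlane)).add_const _
  refine d1.congr_of_eventuallyEq ?_
  filter_upwards [e1, hn] with w w1 w2
  have i1 := (abs_le.1 ((abs_im_le_norm _).trans w1.le))
  rw [← h2 w2, ← h2 hv, Function.comp, Function.comp, ← exp_sub,
    log_exp (by linarith [Real.pi_gt_three]) (by linarith [Real.pi_gt_three]), sub_add_cancel]

variable [FiniteDimensional ℂ E]

/-- Gluing with a partition of unity. -/
theorem glue {κ : Type} [Fintype κ] {N : κ → Set E} (hN : ∀ a, IsOpen (N a)) {θ : κ → E → ℝ}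
    (hθ : ∀ a, ContDiff ℝ ∞ (θ a)) (hs : ∀ a, tsupport (θ a) ⊆ N a) (h0 : ∀ a z, 0 ≤ θ a z)
    {e : κ → E → ℂ} (he : ∀ a, DifferentiableOn ℂ (e a) (N a)) :
    ContDiff ℝ ∞ (fun z => ∑ a, (θ a z : ℂ) * e a z) ∧ ∀ (z : E) (w : ℂ) (ε : ℝ), 0 ≤ ε →
      (∀ᶠ u in 𝓝 z, ∑ a, θ a u = 1) → (∀ a, z ∈ N a → ‖e a z - w‖ ≤ ε) →
      ‖∑ a, (θ a z : ℂ) * e a z - w‖ ≤ ε ∧ ∀ v,
        ‖fderiv ℝ (fun z => ∑ a, (θ a z : ℂ) * e a z) z v +
          I * fderiv ℝ (fun z => ∑ a, (θ a z : ℂ) * e a z) z (I • v)‖ ≤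
          ε * (2 * ∑ a, ‖fderiv ℝ (θ a) z‖) * ‖v‖ := by
  have z0 : ∀ a z, z ∉ N a → θ a =ᶠ[𝓝 z] 0 := fun a z hz =>
    notMem_tsupport_iff_eventuallyEq.1 fun h => hz (hs a h)
  have z1 : ∀ a z, z ∉ N a → (fun z => (θ a z : ℂ) * e a z) =ᶠ[𝓝 z] fun _ => 0 := fun a z hz =>
    (z0 a z hz).mono fun u hu => by simp [hu]
  refine ⟨ContDiff.sum fun a _ => contDiff_iff_contDiffAt.2 fun z => ?_, fun z w ε hε h1 h2 =>
    ⟨?_, fun v => ?_⟩⟩
  · by_cases hz : z ∈ N a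
    · exact (ofRealCLM.contDiff.comp (hθ a)).contDiffAt.mul
        (((SV.H85.contDiffOn_top (hN a) (he a)).contDiffAt ((hN a).mem_nhds hz)).restrict_scalars ℝ)
    · exact contDiffAt_const.congr_of_eventuallyEq (z1 a z hz)
  · have e1 : ∑ a, (θ a z : ℂ) * e a z - w = ∑ a, (θ a z : ℂ) * (e a z - w) := by
      simp only [mul_sub, Finset.sum_sub_distrib, ← Finset.sum_mul, ← ofReal_sum,
        h1.self_of_nhds, ofReal_one, one_mul]
    rw [e1, ← one_mul ε, ← h1.self_of_nhds, Finset.sum_mul]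
    refine (norm_sum_le _ _).trans (Finset.sum_le_sum fun a _ => ?_)
    rw [norm_mul, norm_real, Real.norm_of_nonneg (h0 a z)]
    by_cases hz : z ∈ N a
    · exact mul_le_mul_of_nonneg_left (h2 a hz) (h0 a z)
    · simp [(z0 a z hz).self_of_nhds]
  · have dθ : ∀ a, HasFDerivAt (θ a) (fderiv ℝ (θ a) z) z := fun a =>
      ((hθ a).differentiable (by simp) z).hasFDerivAt
    have t1 : ∀ a, ∃ T : E →L[ℝ] ℂ, HasFDerivAt (fun z => (θ a z : ℂ) * e a z) T z ∧
        T v + I * T (I • v) = e a z * (fderiv ℝ (θ a) z v + I * fderiv ℝ (θ a) z (I • v)) := by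
      intro a
      by_cases hz : z ∈ N a
      · have d2 := ((he a).differentiableAt ((hN a).mem_nhds hz)).hasFDerivAt
        refine ⟨_, (ofRealCLM.hasFDerivAt.comp z (dθ a)).fun_mul (d2.restrictScalars ℝ), ?_⟩
        simp only [add_apply, smul_apply, ContinuousLinearMap.coe_restrictScalars', map_smul,
          smul_eq_mul, ContinuousLinearMap.comp_apply, ofRealCLM_apply, Function.comp]
        linear_combination (θ a z : ℂ) * fderiv ℂ (e a) z v * I_mul_I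
      · refine ⟨0, (hasFDerivAt_const 0 z).congr_of_eventuallyEq (z1 a z hz), ?_⟩
        rw [(z0 a z hz).fderiv_eq]
        simp
    choose T t2 t3 using t1
    have s0 : ∑ a, fderiv ℝ (θ a) z = 0 := by
      rw [← (HasFDerivAt.fun_sum fun a _ => dθ a).fderiv,
        EventuallyEq.fderiv_eq (f := fun _ => (1 : ℝ)) h1]
      simp
    have s1 : ∀ u, ∑ a, (fderiv ℝ (θ a) z u : ℂ) = 0 := fun u => by
      rw [← ofReal_sum, ← sum_apply, s0]
      simp
    have e1 : ∑ a, T a v + I * ∑ a, T a (I • v) = ∑ a, (e a z - w) *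
        (fderiv ℝ (θ a) z v + I * fderiv ℝ (θ a) z (I • v)) := by
      simp only [sub_mul, Finset.sum_sub_distrib, ← t3, ← Finset.mul_sum, Finset.sum_add_distrib,
        s1, mul_zero, add_zero, sub_zero]
    rw [(HasFDerivAt.fun_sum fun a _ => t2 a).fderiv, sum_apply, sum_apply, e1, Finset.mul_sum,
      Finset.mul_sum, Finset.sum_mul]
    refine (norm_sum_le _ _).trans (Finset.sum_le_sum fun a _ => ?_)
    by_cases hz : z ∈ N a
    · rw [norm_mul, mul_assoc]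
      refine mul_le_mul (h2 a hz) ((norm_add_le _ _).trans ?_) (norm_nonneg _) hε
      have b1 := (fderiv ℝ (θ a) z).le_opNorm v
      have b2 := (fderiv ℝ (θ a) z).le_opNorm (I • v)
      rw [norm_smul, norm_I, one_mul] at b2
      rw [norm_mul, norm_I, one_mul, norm_real, norm_real]
      linarith
    · rw [(z0 a z hz).fderiv_eq]
      simp

/-- A partition of unity near a compact set. -/
theorem pou {K : Set E} (hK : IsCompact K) {N : K → Set E} (hN : ∀ p, N p ∈ 𝓝 p.1) :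
    ∃ (t : Finset K) (θ : t → E → ℝ), (∀ a, ContDiff ℝ ∞ (θ a) ∧ HasCompactSupport (θ a) ∧
      tsupport (θ a) ⊆ N a ∧ ∀ z, 0 ≤ θ a z) ∧ ∀ z ∈ K, ∀ᶠ u in 𝓝 z, ∑ a, θ a u = 1 := by
  have := FiniteDimensional.complexToReal E
  choose φ φ1 φ2 φ3 φ4 φ5 using fun p : K => exists_contDiff_tsupport_subset (n := ⊤) (hN p)
  have p0 : ∀ p z, 0 ≤ φ p z := fun p z => (φ4 p ⟨z, rfl⟩).1
  obtain ⟨t, ht⟩ := hK.elim_finite_subcover (fun p : K => {z | 1 / 2 < φ p z})
    (fun p => isOpen_lt continuous_const (φ3 p).continuous) fun z hz =>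
      mem_iUnion.2 ⟨⟨z, hz⟩, by rw [mem_ofPred_eq, φ5 ⟨z, hz⟩]; norm_num⟩
  let S : E → ℝ := fun z => ∑ a : t, φ a z
  have S1 : ContDiff ℝ ∞ S := ContDiff.sum fun a _ => φ3 a
  have S2 : ∀ z, 0 < S z + expNegInvGlue (1 / 2 - S z) := fun z => by
    have h : 0 ≤ S z := Finset.sum_nonneg fun a _ => p0 a z
    rcases h.eq_or_lt with k | k
    · rw [← k, zero_add]
      exact expNegInvGlue.pos_of_pos (by norm_num)
    · exact add_pos_of_pos_of_nonneg k (expNegInvGlue.nonneg _)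
  refine ⟨t, fun a z => φ a z * (S z + expNegInvGlue (1 / 2 - S z))⁻¹, fun a =>
    ⟨(φ3 a).mul ((S1.add (expNegInvGlue.contDiff.comp (contDiff_const.sub S1))).inv
      fun z => (S2 z).ne'), (φ2 a).mul_right, tsupport_mul_subset_left.trans (φ1 a),
      fun z => mul_nonneg (p0 a z) (inv_nonneg.2 (S2 z).le)⟩, fun z hz => ?_⟩
  obtain ⟨p, hp, h⟩ := mem_iUnion₂.1 (ht hz)
  have h1 : 1 / 2 < S z := lt_of_lt_of_le h (Finset.single_le_sum (f := fun a : t => φ a z)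
    (fun a _ => p0 a z) (Finset.mem_univ ⟨p, hp⟩))
  filter_upwards [S1.continuous.continuousAt.eventually (lt_mem_nhds h1)] with u hu
  rw [← Finset.sum_mul, expNegInvGlue.zero_of_nonpos (by linarith), add_zero]
  exact mul_inv_cancel₀ (by linarith : S u ≠ 0)

end Patch

open Patch in
/-- Roots of functions without zero on an étale set, up to a small error. -/
theorem patch {E G : Type} [NormedAddCommGroup E] [NormedSpace ℂ E] [FiniteDimensional ℂ E]
    [NormedAddCommGroup G] [NormedSpace ℂ G] (y : E →L[ℂ] G) {W K O : Set E} (hK : IsCompact K)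
    (hKW : K ⊆ W) (hO : IsOpen O) (hKO : K ⊆ O)
    (hr : ∀ p ∈ K, ∃ r : G → E, r (y p) = p ∧ (∀ᶠ v in 𝓝 (y p), DifferentiableAt ℂ r v ∧
      r v ∈ W ∧ y (r v) = v) ∧ ∀ᶠ z in 𝓝 p, z ∈ W → r (y z) = z)
    {δ : ℝ} (hδ : 0 < δ) (x : ℕ) : ∃ n₀ : ℕ, ∀ (q : ℝ) (f : E → ℂ),
      (∀ (U : Set G) (r : G → E), IsOpen U → DifferentiableOn ℂ r U → MapsTo r U (W ∩ O) →
        DifferentiableOn ℂ (fun v => f (r v)) U) → (∀ z ∈ W ∩ O, f z ≠ 0) →
      ∃ n : ℕ, x < n ∧ n ≤ n₀ ∧ ∃ V : E → ℂ, ContDiff ℝ ∞ V ∧ HasCompactSupport V ∧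
        tsupport V ⊆ O ∧ ∀ z ∈ K, |‖V z‖ - ‖f z‖ ^ (n / q)| ≤ δ * ‖f z‖ ^ (n / q) ∧
          ∀ v, ‖fderiv ℝ V z v + I * fderiv ℝ V z (I • v)‖ ≤ δ * ‖f z‖ ^ (n / q) * ‖v‖ := by
  have loc : ∀ p : K, ∃ (r : G → E) (ρ : ℝ) (N : Set E), 0 < ρ ∧ IsOpen N ∧ N ⊆ O ∧
      p.1 ∈ N ∩ y ⁻¹' ball (y p) ρ ∧ (∀ z ∈ N, z ∈ W → r (y z) = z) ∧
      ∀ v ∈ ball (y p) ρ, DifferentiableAt ℂ r v ∧ r v ∈ W ∧ y (r v) = v ∧ r v ∈ N := fun p => by
    obtain ⟨r, r1, r2, r3⟩ := hr p p.2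
    obtain ⟨N, n1, n2, n3⟩ := _root_.eventually_nhds_iff.1 (r3.and (hO.mem_nhds (hKO p.2)))
    obtain ⟨ρ, hρ, h⟩ := Metric.eventually_nhds_iff_ball.1 (r2.and
      (r2.self_of_nhds.1.continuousAt.eventually (n2.mem_nhds (by rwa [r1]))))
    exact ⟨r, ρ, N, hρ, n2, fun z hz => (n1 z hz).2, ⟨n3, mem_ball_self hρ⟩,
      fun z hz => (n1 z hz).1, fun v hv => ⟨(h v hv).1.1, (h v hv).1.2.1, (h v hv).1.2.2,
        (h v hv).2⟩⟩
  choose r ρ N hρ N1 N2 N3 N4 N5 using loc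
  have oN : ∀ p : K, IsOpen (N p ∩ y ⁻¹' ball (y p) (ρ p)) := fun p =>
    (N1 p).inter (isOpen_ball.preimage y.continuous)
  obtain ⟨t, θ, hθ, hs⟩ := pou hK fun p => (oN p).mem_nhds (N3 p)
  obtain ⟨C, hC⟩ := hK.bddAbove_image (f := fun z => 2 * ∑ a, ‖fderiv ℝ (θ a) z‖)
    (continuous_const.mul (continuous_finsetSum _ fun a _ =>
      ((hθ a).1.continuous_fderiv (by simp)).norm)).continuousOn
  set δ' := δ / (|C| + 1) with hδ'
  have d0 : 0 < δ' := by positivity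
  have d1 : δ' * (|C| + 1) = δ := div_mul_cancel₀ _ (by positivity)
  obtain ⟨n₀, hn⟩ := diri (t × t) d0 x
  refine ⟨n₀, fun q f hf f0 => ?_⟩
  have mp : ∀ p : K, MapsTo (r p) (ball (y p) (ρ p)) (W ∩ O) := fun p v hv =>
    ⟨(N5 p v hv).2.1, N2 p (N5 p v hv).2.2.2⟩
  choose L L1 L2 using fun p : K => hlog (hρ p) (hf _ (r p) isOpen_ball
    (fun v hv => (N5 p v hv).1.differentiableWithinAt) (mp p)) fun v hv => f0 _ (mp p hv)
  let A : K → Set E := fun p => W ∩ (N p ∩ y ⁻¹' ball (y p) (ρ p))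
  have ex : ∀ p, ∀ z ∈ A p, exp (L p (y z)) = f z := fun p z hz => by
    rw [L2 p _ hz.2.2, N4 p z hz.2.1 hz.1]
  have same : ∀ a b, ∀ z ∈ A a ∩ A b, ∀ z' ∈ A a ∩ A b,
      L a (y z) - L b (y z) = L a (y z') - L b (y z') := by
    intro a b z hz z' hz'
    have pc := ((convex_ball (y a) (ρ a)).inter (convex_ball (y b) (ρ b))).isPreconnected
    have ca : ∀ p : K, ∀ v ∈ ball (y p) (ρ p), ContinuousAt (r p) v := fun p v hv =>
      (N5 p v hv).1.continuousAt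
    have eq : ball (y a) (ρ a) ∩ ball (y b) (ρ b) ⊆ interior {v | r a v = r b v} := by
      refine pc.subset_of_closure_inter_subset isOpen_interior ⟨y z, ⟨hz.1.2.2, hz.2.2.2⟩, ?_⟩
        fun v hv => ?_
      rotate_left
      · have e1 : r a v = r b v := tendsto_nhds_unique_of_frequently_eq (ca a v hv.2.1)
          (ca b v hv.2.2) ((mem_closure_iff_frequently.1 hv.1).mono fun u hu =>
            interior_subset (s := {v | r a v = r b v}) hu)
        refine mem_interior_iff_mem_nhds.2 ?_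
        filter_upwards [(ca b v hv.2.2).eventually ((N1 a).mem_nhds (e1 ▸ (N5 a v hv.2.1).2.2.2)),
          isOpen_ball.mem_nhds hv.2.2] with u u1 u2
        have := N4 a _ u1 (N5 b u u2).2.1
        rwa [(N5 b u u2).2.2.1] at this
      · refine mem_interior_iff_mem_nhds.2 ?_
        filter_upwards [(ca b _ hz.2.2.2).eventually ((N1 a).mem_nhds
          (by rw [N4 b z hz.2.2.1 hz.2.1]; exact hz.1.2.1)), isOpen_ball.mem_nhds hz.2.2.2]
          with u u1 u2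
        have := N4 a _ u1 (N5 b u u2).2.1
        rwa [(N5 b u u2).2.2.1] at this
    refine cst pc (h := fun v => L a v - L b v) (((L1 a).continuousOn.mono inter_subset_left).sub
      ((L1 b).continuousOn.mono inter_subset_right)) (fun v hv => ?_) ⟨hz.1.2.2, hz.2.2.2⟩
      ⟨hz'.1.2.2, hz'.2.2.2⟩
    have e1 : r a v = r b v := interior_subset (s := {v | r a v = r b v}) (eq hv)
    rw [exp_sub, L2 a v hv.1, L2 b v hv.2, e1, div_self (f0 _ (mp b hv.2))]
  have zeta : ∀ a b : K, ∃ ζ : ℂ, ‖ζ‖ = 1 ∧ ∀ z ∈ A a ∩ A b,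
      ζ = exp ((L a (y z) - L b (y z)) / q) := fun a b => by
    by_cases h : (A a ∩ A b).Nonempty
    · obtain ⟨z, hz⟩ := h
      refine ⟨_, ?_, fun z' hz' => by rw [same a b z' hz' z hz]⟩
      have e1 : ‖exp (L a (y z) - L b (y z))‖ = 1 := by
        rw [exp_sub, ex a z hz.1, ex b z hz.2, div_self (f0 z ⟨hz.1.1, N2 a hz.1.2.1⟩), norm_one]
      rw [norm_exp, Real.exp_eq_one_iff] at e1 ⊢
      rw [div_ofReal_re, e1, zero_div]
    · exact ⟨1, norm_one, fun z hz => (h ⟨z, hz⟩).elim⟩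
  choose ζ ζ1 ζ2 using zeta
  obtain ⟨n, n1, n2, n3⟩ := hn (fun j => ζ j.1 j.2) fun j => ζ1 _ _
  obtain ⟨g1, g2⟩ := glue (fun a : t => oN a) (fun a => (hθ a).1) (fun a => (hθ a).2.2.1)
    (fun a => (hθ a).2.2.2) (e := fun a z => exp (n * (L a (y z) / q))) fun a =>
      ((((L1 a).comp y.differentiableOn inter_subset_right).mul_const _).const_mul _).cexp
  have sp : Function.support (fun z => ∑ a : t, (θ a z : ℂ) * exp (n * (L a (y z) / q))) ⊆
      ⋃ a, tsupport (θ a) := fun z hz => by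
    obtain ⟨a, -, ha⟩ := Finset.exists_ne_zero_of_sum_ne_zero hz
    exact mem_iUnion.2 ⟨a, subset_tsupport _ fun h => ha (by simp [h])⟩
  have cp : IsCompact (⋃ a, tsupport (θ a)) := isCompact_iUnion fun a => (hθ a).2.1
  refine ⟨n, n1, n2, _, g1, HasCompactSupport.of_support_subset_isCompact cp sp,
    (closure_minimal sp cp.isClosed).trans (iUnion_subset fun a z hz =>
      N2 a ((hθ a).2.2.1 hz).1), fun z hz => ?_⟩
  obtain ⟨b, -, hb⟩ := Finset.exists_ne_zero_of_sum_ne_zero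
    ((hs z hz).self_of_nhds.trans_ne one_ne_zero)
  have zb : z ∈ A b := ⟨hKW hz, (hθ b).2.2.1 (subset_tsupport _ hb)⟩
  have nb : ‖exp (n * (L b (y z) / q))‖ = ‖f z‖ ^ (n / q) := by
    rw [← ex b z zb, norm_exp, norm_exp, ← Real.exp_mul, ← ofReal_natCast, re_ofReal_mul,
      div_ofReal_re]
    congr 1
    ring
  have p0 : 0 ≤ ‖f z‖ ^ (n / q) := by positivity
  obtain ⟨k1, k2⟩ := g2 z (exp (n * (L b (y z) / q))) (δ' * ‖f z‖ ^ (n / q)) (by positivity)
    (hs z hz) fun a ha => by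
      have e1 : exp (n * (L a (y z) / q)) - exp (n * (L b (y z) / q)) =
          (ζ a b ^ n - 1) * exp (n * (L b (y z) / q)) := by
        rw [ζ2 a b z ⟨⟨hKW hz, ha⟩, zb⟩, ← exp_nat_mul, sub_mul, ← exp_add, one_mul]
        congr 2
        ring
      rw [e1, norm_mul, nb]
      exact mul_le_mul_of_nonneg_right (n3 (a, b)) p0
  have le1 : δ' ≤ δ := by nlinarith [abs_nonneg C]
  refine ⟨?_, fun v => (k2 v).trans (mul_le_mul_of_nonneg_right ?_ (norm_nonneg _))⟩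
  · rw [← nb] at k1 ⊢
    exact ((abs_norm_sub_norm_le _ _).trans k1).trans
      (mul_le_mul_of_nonneg_right le1 (norm_nonneg _))
  · have c1 : 2 * ∑ a, ‖fderiv ℝ (θ a) z‖ ≤ |C| + 1 :=
      (hC ⟨z, hz, rfl⟩).trans ((le_abs_self C).trans (by linarith))
    calc _ ≤ δ' * ‖f z‖ ^ (n / q) * (|C| + 1) := mul_le_mul_of_nonneg_left c1 (by positivity)
      _ = _ := by rw [← d1]; ring

end Pool.Agent.Lib.S3K
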