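import Pool.Agent.Lib.S3K.Sheet
import Pool.Agent.Lib.S3K.Noe

/-! Project S3, kit: a relation of bounded degree gives a quotient of forms of bounded degree. -/

open scoped nonZeroDivisors Polynomial
open Finset

noncomputable section

namespace Pool.Agent.Lib.S3K

namespace Ratio

/-- A conductor element. -/
theorem cond {R A : Type} [CommRing R] [CommRing A] [IsDomain R] [IsDomain A] [Algebra R A]
    [FaithfulSMul R A] [CharZero R] [Module.Finite R A] [IsIntegrallyClosed R]
    [IsNoetherianRing R] : ∃ Δ : A, Δ ≠ 0 ∧ ∀ x : FractionRing A, IsIntegral R x →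
      ∃ g : A, algebraMap A _ Δ * x = algebraMap A _ g := by
  classical
  let K := FractionRing R
  let L := FractionRing A
  let _ : Algebra K L := FractionRing.liftAlgebra R L
  have : IsScalarTower R K L := FractionRing.isScalarTower_liftAlgebra R L
  have : FiniteDimensional K L := .of_isLocalization R A R⁰
  have hf : Module.Finite R (integralClosure R L) := IsIntegralClosure.finite R K L _
  obtain ⟨S, hS⟩ := hf.fg_top
  obtain ⟨Δ, hΔ⟩ := IsLocalization.exist_integer_multiples A⁰ S fun x => (x : L)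
  refine ⟨Δ, nonZeroDivisors.ne_zero Δ.2, fun x hx => ?_⟩
  have hm : (⟨x, hx⟩ : integralClosure R L) ∈ Submodule.span R (S : Set _) := by
    rw [hS]; trivial
  have key : ∀ z ∈ Submodule.span R (S : Set (integralClosure R L)),
      ∃ g : A, algebraMap A L Δ * (z : L) = algebraMap A L g := by
    intro z hz
    induction hz using Submodule.span_induction with
    | mem z hz =>
      obtain ⟨g, hg⟩ := hΔ z hz
      exact ⟨g, by rw [hg, Algebra.smul_def]⟩
    | zero => exact ⟨0, by simp⟩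
    | add z w _ _ h1 h2 =>
      obtain ⟨g, hg⟩ := h1
      obtain ⟨g', hg'⟩ := h2
      exact ⟨g + g', by rw [map_add, ← hg, ← hg', Subalgebra.coe_add, mul_add]⟩
    | smul r z _ h1 =>
      obtain ⟨g, hg⟩ := h1
      refine ⟨algebraMap R A r * g, ?_⟩
      rw [map_mul, ← hg, ← IsScalarTower.algebraMap_apply, Subalgebra.coe_smul, Algebra.smul_def]
      ring
  exact key _ hm

/-- The quotient in a domain. -/
theorem quo {R A : Type} [CommRing R] [CommRing A] [IsDomain R] [IsDomain A] [Algebra R A]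
    [FaithfulSMul R A] [CharZero R] [Module.Finite R A] [IsIntegrallyClosed R]
    [IsNoetherianRing R] : ∃ Δ : A, Δ ≠ 0 ∧ ∀ (m : ℕ) (P P' : A) (a : ℕ → R), P' ≠ 0 →
      (∃ i ≤ m, a i ≠ 0) → ∑ i ∈ range (m + 1), algebraMap R A (a i) * P ^ i * P' ^ (m - i) = 0 →
      ∃ i, a i ≠ 0 ∧ ∃ g, Δ * algebraMap R A (a i) * P = g * P' := by
  obtain ⟨Δ, h0, hΔ⟩ := cond (R := R) (A := A)
  refine ⟨Δ, h0, fun m P P' a hP ⟨i, hi, hai⟩ h => ?_⟩
  let L := FractionRing A
  have hP' : algebraMap A L P' ≠ 0 := (map_ne_zero_iff _ (IsFractionRing.injective A L)).2 hP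
  let p : R[X] := ∑ i ∈ range (m + 1), Polynomial.monomial i (a i)
  have hc : ∀ j ≤ m, p.coeff j = a j := fun j hj => by
    simp only [p, Polynomial.finsetSum_coeff, Polynomial.coeff_monomial]
    rw [sum_ite_eq', if_pos (mem_range.2 (by omega))]
  have hp0 : p ≠ 0 := fun h0 => hai (by rw [← hc i hi, h0, Polynomial.coeff_zero])
  have hd : p.natDegree ≤ m := Polynomial.natDegree_sum_le_of_forall_le _ _ fun j hj =>
    (Polynomial.natDegree_monomial_le _).trans (by have := mem_range.1 hj; omega)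
  have hr : Polynomial.aeval (algebraMap A L P / algebraMap A L P') p = 0 := by
    have h1 := congrArg (algebraMap A L) h
    rw [map_zero, map_sum] at h1
    apply mul_right_cancel₀ (pow_ne_zero m hP')
    rw [zero_mul, ← h1]
    simp only [p, map_sum, Polynomial.aeval_monomial]
    rw [Finset.sum_mul]
    refine sum_congr rfl fun j hj => ?_
    obtain ⟨k, rfl⟩ := Nat.exists_eq_add_of_le (show j ≤ m by have := mem_range.1 hj; omega)
    rw [map_mul, map_mul, map_pow, map_pow, ← IsScalarTower.algebraMap_apply, Nat.add_sub_cancel_left,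
      pow_add, div_pow, mul_assoc, ← mul_assoc (_ / _), div_mul_cancel₀ _ (pow_ne_zero j hP'),
      mul_assoc]
  obtain ⟨g, hg⟩ := hΔ _ (isIntegral_leadingCoeff_smul p _ hr)
  refine ⟨p.natDegree, ?_, g, IsFractionRing.injective A L ?_⟩
  · rw [← hc _ hd]
    exact Polynomial.leadingCoeff_ne_zero.2 hp0
  · rw [← hc _ hd, map_mul, map_mul, map_mul, ← hg, Algebra.smul_def,
      ← IsScalarTower.algebraMap_apply]
    rw [mul_assoc, mul_assoc, mul_assoc, div_mul_cancel₀ _ hP']
    rfl

/-- Components of a product with a form. -/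
theorem comp_mul {σ : Type} {Q : MvPolynomial σ ℂ} {d : ℕ} (hQ : Q.IsHomogeneous d)
    (P : MvPolynomial σ ℂ) (e : ℕ) : MvPolynomial.homogeneousComponent (e + d) (P * Q) =
      MvPolynomial.homogeneousComponent e P * Q := by
  classical
  conv_lhs => rw [← MvPolynomial.sum_homogeneousComponent P]
  rw [Finset.sum_mul, map_sum]
  have key : ∀ i, MvPolynomial.homogeneousComponent (e + d)
      (MvPolynomial.homogeneousComponent i P * Q) =
        if e = i then MvPolynomial.homogeneousComponent i P * Q else 0 := fun i => by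
    rw [MvPolynomial.homogeneousComponent_of_mem
      ((MvPolynomial.homogeneousComponent_isHomogeneous i P).mul hQ)]
    simp
  simp only [key]
  rw [sum_ite_eq]
  split_ifs with h
  · rfl
  · rw [MvPolynomial.homogeneousComponent_eq_zero e P (by simpa using h), zero_mul]

end Ratio

open MvPolynomial

/-- The quotient of two forms with a relation of bounded degree. -/
theorem ratio {σ : Type} [Fintype σ] {V : Set (σ → ℂ)} (hV : ∀ a : ℂ, a ≠ 0 → ∀ p ∈ V, a • p ∈ V)
    (hne : V.Nonempty) (hp : ∀ P Q : MvPolynomial σ ℂ, (∀ x ∈ V, eval x P * eval x Q = 0) →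
      (∀ x ∈ V, eval x P = 0) ∨ ∀ x ∈ V, eval x Q = 0)
    {r : ℕ} (c : Fin r → σ → ℂ)
    (hi : ∀ Q : MvPolynomial (Fin r) ℂ, (∀ p ∈ V, eval (lm c p) Q = 0) → Q = 0)
    (hI : ∀ s, ∃ m : Polynomial (MvPolynomial (Fin r) ℂ), m.Monic ∧
      ∀ p ∈ V, m.eval₂ (eval (lm c p)) (p s) = 0) :
    ∃ e : ℕ, ∀ (m D : ℕ) (P P' : MvPolynomial σ ℂ) (a : ℕ → MvPolynomial (Fin r) ℂ),
      P.IsHomogeneous D → P'.IsHomogeneous D → (∃ x ∈ V, eval x P' ≠ 0) →
      (∀ i, (a i).IsHomogeneous m) → (∃ i ≤ m, a i ≠ 0) →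
      (∀ x ∈ V, ∑ i ∈ range (m + 1),
        eval (lm c x) (a i) * eval x P ^ i * eval x P' ^ (m - i) = 0) →
      ∃ p p' : MvPolynomial σ ℂ, p.IsHomogeneous (e + m) ∧ p'.IsHomogeneous (e + m) ∧
        (∃ x ∈ V, eval x p' ≠ 0) ∧ ∀ x ∈ V, eval x P * eval x p' = eval x P' * eval x p := by
  classical
  let I : Ideal (MvPolynomial σ ℂ) := ⨅ x ∈ V, RingHom.ker (eval x)
  have mem : ∀ f, f ∈ I ↔ ∀ x ∈ V, eval x f = 0 := fun f => by
    simp [I, RingHom.mem_ker]
  have hpr : I.IsPrime := ⟨fun h => by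
    obtain ⟨x, hx⟩ := hne
    simpa using (mem 1).1 (h ▸ Submodule.mem_top) x hx, fun {P Q} h => by
    simpa only [mem] using hp P Q fun x hx => by simpa using (mem _).1 h x hx⟩
  let y : Fin r → MvPolynomial σ ℂ := fun i => ∑ s, C (c i s) * X s
  have hy : ∀ x Q, eval x (aeval y Q) = eval (lm c x) Q := fun x Q => by
    have : (fun i => eval x (y i)) = lm c x := funext fun i => by simp [y, lm_apply]
    rw [← this, map_aeval]
    exact congrArg (fun φ => eval₂Hom φ (fun i => eval x (y i)) Q) (RingHom.ext fun t => by simp)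
  have hyh : ∀ i, (y i).IsHomogeneous 1 := fun i =>
    IsHomogeneous.sum _ _ _ fun s _ => by
      simpa using (isHomogeneous_C σ (c i s)).mul (isHomogeneous_X ℂ s)
  let _ := ((Ideal.Quotient.mk I).comp (aeval (R := ℂ) y).toRingHom).toAlgebra
  have : Module.Finite (MvPolynomial (Fin r) ℂ) (MvPolynomial σ ℂ ⧸ I) := Sheet.fin I y fun s => by
    obtain ⟨m, h1, h2⟩ := hI s
    refine ⟨m, h1, (mem _).2 fun x hx => ?_⟩
    rw [Polynomial.hom_eval₂, ← h2 x hx, eval_X]
    exact congrArg (fun φ => Polynomial.eval₂ φ (x s) m) (RingHom.ext fun Q => hy x Q)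
  have : FaithfulSMul (MvPolynomial (Fin r) ℂ) (MvPolynomial σ ℂ ⧸ I) :=
    (faithfulSMul_iff_algebraMap_injective _ _).2 ((injective_iff_map_eq_zero _).2 fun Q h =>
      hi Q fun x hx => (hy x Q).symm.trans ((mem _).1 (Ideal.Quotient.eq_zero_iff_mem.1 h) x hx))
  obtain ⟨Δ, h0, hΔ⟩ := Ratio.quo (R := MvPolynomial (Fin r) ℂ) (A := MvPolynomial σ ℂ ⧸ I)
  obtain ⟨Δ, rfl⟩ := Ideal.Quotient.mk_surjective Δ
  have : ∃ e, ∃ x ∈ V, eval x (homogeneousComponent e Δ) ≠ 0 := by
    by_contra hc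
    push Not at hc
    refine h0 (Ideal.Quotient.eq_zero_iff_mem.2 ((mem _).2 fun x hx => ?_))
    rw [← sum_homogeneousComponent Δ, map_sum]
    exact sum_eq_zero fun e _ => hc e x hx
  obtain ⟨e, he⟩ := this
  refine ⟨e, fun m D P P' a hP hP' h1 ha h2 h3 => ?_⟩
  obtain ⟨i, hi0, g, hg⟩ := hΔ m (Ideal.Quotient.mk I P) (Ideal.Quotient.mk I P') a
    (fun h => by
      obtain ⟨x, hx, h4⟩ := h1
      exact h4 ((mem _).1 (Ideal.Quotient.eq_zero_iff_mem.1 h) x hx)) h2 (by
      have : ∑ i ∈ range (m + 1), aeval y (a i) * P ^ i * P' ^ (m - i) ∈ I :=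
        (mem _).2 fun x hx => by simpa only [map_sum, map_mul, map_pow, hy] using h3 x hx
      simpa [RingHom.algebraMap_toAlgebra] using Ideal.Quotient.eq_zero_iff_mem.2 this)
  obtain ⟨g, rfl⟩ := Ideal.Quotient.mk_surjective g
  have hai : (aeval y (a i)).IsHomogeneous m := by simpa using (ha i).aeval y hyh
  have h5 : ∀ x ∈ V, eval x (Δ * (aeval y (a i) * P) - g * P') = 0 := (mem _).1 (by
    refine Ideal.Quotient.eq.1 ?_
    rw [← mul_assoc]
    exact hg)
  refine ⟨homogeneousComponent (e + m) g, homogeneousComponent e Δ * aeval y (a i),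
    homogeneousComponent_isHomogeneous _ _, (homogeneousComponent_isHomogeneous _ _).mul hai, ?_,
    fun x hx => ?_⟩
  · by_contra hc
    push Not at hc
    rcases hp _ _ (fun x hx => by simpa using hc x hx) with h | h
    · obtain ⟨x, hx, h4⟩ := he
      exact h4 (h x hx)
    · exact hi0 (hi _ fun x hx => (hy x _).symm.trans (h x hx))
  · have h6 := hom_comp_zero hV h5 (e + m + D) x hx
    rw [map_sub, add_assoc, Ratio.comp_mul (hai.mul hP), ← add_assoc, Ratio.comp_mul hP'] at h6
    simp only [map_sub, map_mul] at h6 ⊢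
    linear_combination h6

end Pool.Agent.Lib.S3K
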