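import Mathlib

/-! Tilting of probability measures on a compact space and concentration of the limits. -/

open scoped Classical Topology ENNReal
open Set Metric Filter MeasureTheory

noncomputable section

namespace Pool.Agent.Lib.S3K

variable {Z : Type} [MetricSpace Z] [CompactSpace Z] [MeasurableSpace Z] [BorelSpace Z]

/-- The measure with density proportional to `exp b`. -/
def tl (b : Z → ℝ) (ν : ProbabilityMeasure Z) : ProbabilityMeasure Z :=
  if h : Integrable (fun p => Real.exp (b p)) (ν : Measure Z) then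
    ⟨(ν : Measure Z).tilted b, isProbabilityMeasure_tilted h⟩ else ν

/-- The logarithm of the density `(f + η) ^ (-t)`. -/
def lgt (f : Z → ℝ) (t η : ℝ) : Z → ℝ := fun p => -t * Real.log (f p + η)

/-- The integral of `f ^ (-t)` diverges. -/
def Blow (f : Z → ℝ) (t : ℝ) (ν : Measure Z) : Prop :=
  ∀ R : ℝ, ∃ η, 0 < η ∧ R ≤ ∫ p, (f p + η) ^ (-t) ∂ν

theorem intc {f : Z → ℝ} (hf : Continuous f) (ν : Measure Z) [IsFiniteMeasure ν] :
    Integrable f ν :=
  integrableOn_univ.1 (hf.continuousOn.integrableOn_compact isCompact_univ)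

theorem tl_coe {b : Z → ℝ} (hb : Continuous b) (ν : ProbabilityMeasure Z) :
    (tl b ν : Measure Z) = (ν : Measure Z).tilted b := by
  have h : Integrable (fun p => Real.exp (b p)) (ν : Measure Z) :=
    intc (Real.continuous_exp.comp hb) _
  exact congrArg ProbabilityMeasure.toMeasure (dif_pos h : tl b ν = _)

theorem exp_pos' {b : Z → ℝ} (hb : Continuous b) (ν : ProbabilityMeasure Z) :
    0 < ∫ p, Real.exp (b p) ∂(ν : Measure Z) :=
  integral_exp_pos (intc (Real.continuous_exp.comp hb) _)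

theorem tl_int {b : Z → ℝ} (hb : Continuous b) (ν : ProbabilityMeasure Z) (g : Z → ℝ) :
    ∫ p, g p ∂(tl b ν : Measure Z) =
      (∫ p, Real.exp (b p) * g p ∂(ν : Measure Z)) / ∫ p, Real.exp (b p) ∂(ν : Measure Z) := by
  rw [tl_coe hb, integral_tilted, ← integral_div]
  exact integral_congr_ae (Eventually.of_forall fun p => by simp only [smul_eq_mul]; ring)

theorem cont_int {g : Z → ℝ} (hg : Continuous g) :
    Continuous fun ν : ProbabilityMeasure Z => ∫ p, g p ∂(ν : Measure Z) :=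
  continuous_iff_continuousAt.2 fun _ => ProbabilityMeasure.tendsto_iff_forall_integral_tendsto.1
    tendsto_id (BoundedContinuousFunction.mkOfCompact ⟨g, hg⟩)

theorem tl_cont {b : Z → ℝ} (hb : Continuous b) : Continuous (tl b) := by
  refine continuous_iff_continuousAt.2 fun ν =>
    ProbabilityMeasure.tendsto_iff_forall_integral_tendsto.2 fun g => ?_
  simp only [tl_int hb]
  exact (((cont_int ((Real.continuous_exp.comp hb).mul g.continuous)).tendsto ν).div
    ((cont_int (Real.continuous_exp.comp hb)).tendsto ν) (exp_pos' hb ν).ne')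

theorem tl_tl {b b' : Z → ℝ} (hb : Continuous b) (hb' : Continuous b')
    (ν : ProbabilityMeasure Z) : tl b' (tl b ν) = tl (b + b') ν := by
  apply Subtype.ext
  change (tl b' (tl b ν) : Measure Z) = (tl (b + b') ν : Measure Z)
  rw [tl_coe hb', tl_coe hb, tl_coe (hb.add hb'),
    tilted_tilted (intc (Real.continuous_exp.comp hb) _)]

theorem tl_null {b : Z → ℝ} (hb : Continuous b) (ν : ProbabilityMeasure Z) (S : Set Z) :
    (tl b ν : Measure Z) S = 0 ↔ (ν : Measure Z) S = 0 := by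
  rw [tl_coe hb]
  exact ⟨fun h => absolutelyContinuous_tilted (intc (Real.continuous_exp.comp hb) _) h,
    fun h => tilted_absolutelyContinuous _ _ h⟩

theorem closed_null {U : Set Z} (hU : IsOpen U) :
    IsClosed {ν : ProbabilityMeasure Z | (ν : Measure Z) U = 0} := by
  refine isClosed_iff_ultrafilter.2 fun ν u hu hm => ?_
  have h0 : Tendsto id (u : Filter (ProbabilityMeasure Z)) (𝓝 ν) := hu
  have h1 := ProbabilityMeasure.le_liminf_measure_open_of_tendsto h0 hU
  have h2 : ∀ᶠ i in (u : Filter (ProbabilityMeasure Z)),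
    ((id i : ProbabilityMeasure Z) : Measure Z) U = 0 := hm
  rw [liminf_congr h2, liminf_const] at h1
  exact le_zero_iff.1 h1

/-- Tilting maps the closure of a family into the closure of the tilted family. -/
theorem tl_mem {b : Z → ℝ} (hb : Continuous b) {A B : Set (ProbabilityMeasure Z)}
    (h : ∀ ν ∈ A, tl b ν ∈ closure B) {ν : ProbabilityMeasure Z} (hν : ν ∈ closure A) :
    tl b ν ∈ closure B :=
  closure_minimal (t := tl b ⁻¹' closure B) h (isClosed_closure.preimage (tl_cont hb)) hν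

variable {f : Z → ℝ} {t : ℝ}

omit [CompactSpace Z] [MeasurableSpace Z] [BorelSpace Z] in
theorem lgt_cont (hf : Continuous f) (h0 : ∀ p, 0 ≤ f p) (t : ℝ) {η : ℝ} (hη : 0 < η) :
    Continuous (lgt f t η) :=
  continuous_const.mul ((hf.add continuous_const).log fun p => (by linarith [h0 p] :
    0 < f p + η).ne')

omit [MetricSpace Z] [CompactSpace Z] [MeasurableSpace Z] [BorelSpace Z] in
theorem exp_lgt (h0 : ∀ p, 0 ≤ f p) (t : ℝ) {η : ℝ} (hη : 0 < η) (p : Z) :
    Real.exp (lgt f t η p) = (f p + η) ^ (-t) := by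
  rw [Real.rpow_def_of_pos (by linarith [h0 p]), lgt, mul_comm]

omit [CompactSpace Z] [MeasurableSpace Z] [BorelSpace Z] in
theorem pw_cont (hf : Continuous f) (h0 : ∀ p, 0 ≤ f p) (t : ℝ) {η : ℝ} (hη : 0 < η) :
    Continuous fun p => (f p + η) ^ (-t) := by
  simp only [← exp_lgt h0 t hη]
  exact Real.continuous_exp.comp (lgt_cont hf h0 t hη)

/-- The rule: if the integral diverges, a limit of the tilted measures lives on the zero set. -/
theorem rule (hf : Continuous f) (h0 : ∀ p, 0 ≤ f p) (ht : 0 < t) (ν : ProbabilityMeasure Z)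
    (hB : Blow f t (ν : Measure Z)) : ∃ ν' ∈ closure {μ | ∃ η, 0 < η ∧ μ = tl (lgt f t η) ν},
      (ν' : Measure Z) {p | f p ≠ 0} = 0 ∧
      ∀ U, IsOpen U → (ν : Measure Z) U = 0 → (ν' : Measure Z) U = 0 := by
  choose η h1 h2 using fun k : ℕ => hB (k + 1)
  obtain ⟨ν', -, h3⟩ := isCompact_univ.ultrafilter_le_nhds
    ((hyperfilter ℕ).map fun k => tl (lgt f t (η k)) ν) (by simp)
  have h4 : Tendsto (fun k => tl (lgt f t (η k)) ν) (hyperfilter ℕ) (𝓝 ν') := h3
  have h5 : ν' ∈ closure {μ | ∃ η, 0 < η ∧ μ = tl (lgt f t η) ν} :=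
    mem_closure_of_tendsto h4 (Eventually.of_forall fun k => ⟨η k, h1 k, rfl⟩)
  refine ⟨ν', h5, ?_, fun U hU hν => closure_minimal (t := {μ : ProbabilityMeasure Z |
    (μ : Measure Z) U = 0}) ?_ (closed_null hU) h5⟩
  · have hc : Continuous fun p => f p ^ t := hf.rpow_const fun _ => Or.inr ht.le
    have hn : ∀ p, 0 ≤ f p ^ t := fun p => Real.rpow_nonneg (h0 p) t
    have h6 : ∀ k : ℕ, ∫ p, f p ^ t ∂(tl (lgt f t (η k)) ν : Measure Z) ≤ 1 / ((k : ℝ) + 1) := by
      intro k
      rw [tl_int (lgt_cont hf h0 t (h1 k))]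
      simp only [exp_lgt h0 t (h1 k)]
      refine div_le_div₀ zero_le_one ?_ (by positivity) (h2 k)
      refine (integral_mono (intc ((pw_cont hf h0 t (h1 k)).mul hc) _) (integrable_const 1)
        fun p => ?_).trans (by simp)
      have h7 : 0 < f p + η k := by linarith [h0 p, h1 k]
      change (f p + η k) ^ (-t) * f p ^ t ≤ 1
      rw [Real.rpow_neg h7.le, inv_mul_le_iff₀ (Real.rpow_pos_of_pos h7 t), mul_one]
      exact Real.rpow_le_rpow (h0 p) (by linarith [h1 k]) ht.le
    have h8 : ∫ p, f p ^ t ∂(ν' : Measure Z) ≤ 0 :=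
      le_of_tendsto_of_tendsto' (((cont_int hc).tendsto ν').comp h4)
        (tendsto_one_div_add_atTop_nhds_zero_nat.mono_left Nat.hyperfilter_le_atTop) h6
    have h9 := (integral_eq_zero_iff_of_nonneg hn (intc hc _)).1
      (le_antisymm h8 (integral_nonneg hn))
    refine measure_mono_null (fun p hp => ?_) (ae_iff.1 h9)
    exact (Real.rpow_pos_of_pos (lt_of_le_of_ne (h0 p) (Ne.symm hp)) t).ne'
  · rintro _ ⟨e, he, rfl⟩
    exact (tl_null (lgt_cont hf h0 t he) ν U).2 hν

theorem low (hf : Continuous f) (h0 : ∀ p, 0 ≤ f p) (ht : 0 ≤ t) (ν : Measure Z)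
    [IsFiniteMeasure ν] (a : ℝ) {η : ℝ} (hη : 0 < η) :
    ν.real {p | f p ≤ a} * (a + η) ^ (-t) ≤ ∫ p, (f p + η) ^ (-t) ∂ν := by
  have hm : MeasurableSet {p | f p ≤ a} := (isClosed_le hf continuous_const).measurableSet
  have hi := intc (pw_cont hf h0 t hη) ν
  refine le_trans ?_ (setIntegral_le_integral (s := {p | f p ≤ a}) hi
    (Eventually.of_forall fun p => Real.rpow_nonneg (by linarith [h0 p]) _))
  rw [← smul_eq_mul, ← setIntegral_const]
  refine setIntegral_mono_on (integrable_const _) hi.integrableOn hm fun p hp => ?_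
  exact Real.rpow_le_rpow_of_nonpos (by linarith [h0 p]) (by linarith [show f p ≤ a from hp])
    (by linarith)

/-- A zero of high order at a point of positive density. -/
theorem blow_of_dens (hf : Continuous f) (h0 : ∀ p, 0 ≤ f p) (ht : 0 ≤ t) (ν : Measure Z)
    [IsFiniteMeasure ν] {c C : ℝ} {d M : ℕ} (hc : 0 < c) (hC : 0 < C) (hd : (d : ℝ) < t * M)
    (h : ∀ᶠ r in 𝓝[>] (0 : ℝ), c * r ^ d ≤ ν.real {p | f p ≤ C * r ^ M}) : Blow f t ν := by
  intro R
  have h1 : Tendsto (fun r : ℝ => c * (2 * C) ^ (-t) * r ^ ((d : ℝ) - t * M)) (𝓝[>] 0) atTop := by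
    refine Tendsto.const_mul_atTop (by positivity) ?_
    exact tendsto_rpow_neg_nhdsGT_zero (by linarith)
  obtain ⟨r, h2, h3, hr⟩ := (h.and ((h1.eventually_ge_atTop R).and self_mem_nhdsWithin)).exists
  have hr : 0 < r := hr
  refine ⟨C * r ^ M, by positivity, h3.trans (le_trans ?_ (low hf h0 ht ν (C * r ^ M)
    (by positivity)))⟩
  refine le_trans (le_of_eq ?_) (mul_le_mul_of_nonneg_right h2 (by positivity))
  rw [← two_mul, ← mul_assoc, Real.mul_rpow (by positivity) (by positivity : 0 ≤ r ^ M),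
    ← Real.rpow_natCast r M, ← Real.rpow_mul hr.le, ← Real.rpow_natCast r d, sub_eq_add_neg,
    Real.rpow_add hr, mul_neg, mul_comm t]
  ring

/-- A zero set of positive mass. -/
theorem blow_of_pos (hf : Continuous f) (h0 : ∀ p, 0 ≤ f p) (ht : 0 < t) (ν : Measure Z)
    [IsFiniteMeasure ν] (h : ν {p | f p = 0} ≠ 0) : Blow f t ν := by
  refine blow_of_dens hf h0 ht.le ν (c := ν.real {p | f p = 0}) (C := 1) (d := 0) (M := 1)
    (ENNReal.toReal_pos h (measure_ne_top _ _)) one_pos (by simpa using ht) ?_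
  filter_upwards [self_mem_nhdsWithin] with r hr
  rw [pow_zero, mul_one]
  exact measureReal_mono fun p hp => by
    have h1 : f p = 0 := hp
    have h2 : 0 < r := hr
    simp [h1, h2.le]

/-- If the integral converges, thin shells have small mass. -/
theorem shell (hf : Continuous f) (h0 : ∀ p, 0 ≤ f p) (ht : 0 < t) (ν : Measure Z)
    [IsFiniteMeasure ν] (hB : ¬ Blow f t ν) {K : ℝ} (hK : 0 ≤ K) :
    Tendsto (fun η => ∫ p in {p | f p ≤ K * η}, (f p + η) ^ (-t) ∂ν) (𝓝[>] 0) (𝓝 0) := by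
  let G : ℝ → ℝ := fun η => ∫ p, (f p + η) ^ (-t) ∂ν
  have hm : ∀ {a b : ℝ}, 0 < a → a ≤ b → ∀ p, (f p + b) ^ (-t) ≤ (f p + a) ^ (-t) :=
    fun ha hab p => Real.rpow_le_rpow_of_nonpos (by linarith [h0 p]) (by linarith) (by linarith)
  have hG : AntitoneOn G (Ioi 0) := fun a ha b hb hab =>
    integral_mono (intc (pw_cont hf h0 t hb) ν) (intc (pw_cont hf h0 t ha) ν) (hm ha hab)
  obtain ⟨R, hR⟩ : ∃ R, ∀ η, 0 < η → G η < R := by
    by_contra hc
    refine hB fun R => ?_
    by_contra h1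
    exact hc ⟨R, fun η hη => lt_of_not_ge fun h2 => h1 ⟨η, hη, h2⟩⟩
  have h1 : Tendsto G (𝓝[>] 0) (𝓝 (sSup (G '' Ioo 0 1))) :=
    AntitoneOn.tendsto_nhdsWithin_Ioo_right (nonempty_Ioo.2 one_pos) (hG.mono Ioo_subset_Ioi_self)
      ⟨R, by rintro _ ⟨η, hη, rfl⟩; exact (hR η hη.1).le⟩
  have h2 : Tendsto (fun η : ℝ => (K + 2) * η) (𝓝[>] 0) (𝓝[>] 0) := by
    refine tendsto_nhdsWithin_iff.2 ⟨?_, ?_⟩
    · have : Tendsto (fun η : ℝ => (K + 2) * η) (𝓝 0) (𝓝 ((K + 2) * 0)) :=
        (continuous_const.mul continuous_id).tendsto 0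
      rw [mul_zero] at this
      exact this.mono_left nhdsWithin_le_nhds
    · filter_upwards [self_mem_nhdsWithin] with η hη
      exact mul_pos (by linarith : 0 < K + 2) hη
  have h3 : 0 < 1 - (2 : ℝ) ^ (-t) :=
    sub_pos.2 (Real.rpow_lt_one_of_one_lt_of_neg one_lt_two (by linarith))
  have h4 := (h1.sub (h1.comp h2)).div_const (1 - (2 : ℝ) ^ (-t))
  rw [sub_self, zero_div] at h4
  refine tendsto_of_tendsto_of_tendsto_of_le_of_le' tendsto_const_nhds h4 ?_ ?_
  · filter_upwards [self_mem_nhdsWithin] with η hη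
    have hη : 0 < η := hη
    exact integral_nonneg fun p => Real.rpow_nonneg (by linarith [h0 p]) _
  · filter_upwards [self_mem_nhdsWithin] with η hη
    have hη : 0 < η := hη
    have hη' : 0 < (K + 2) * η := mul_pos (by linarith) hη
    have i1 := intc (pw_cont hf h0 t hη) ν
    have i2 := intc (pw_cont hf h0 t hη') ν
    rw [le_div_iff₀ h3, ← integral_mul_const]
    change _ ≤ ∫ p, (f p + η) ^ (-t) ∂ν - ∫ p, (f p + (K + 2) * η) ^ (-t) ∂ν
    rw [← integral_sub i1 i2]
    refine le_trans (setIntegral_mono_on (i1.mul_const _).integrableOn (i1.sub i2).integrableOn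
      (isClosed_le hf continuous_const).measurableSet fun p hp => ?_)
      (setIntegral_le_integral (i1.sub i2) (Eventually.of_forall fun p =>
        sub_nonneg.2 (hm hη (by nlinarith) p)))
    have h5 : f p ≤ K * η := hp
    have h6 : (f p + (K + 2) * η) ^ (-t) ≤ (2 * (f p + η)) ^ (-t) :=
      Real.rpow_le_rpow_of_nonpos (by linarith [h0 p]) (by linarith) (by linarith)
    rw [Real.mul_rpow zero_le_two (by linarith [h0 p])] at h6
    change (f p + η) ^ (-t) * (1 - 2 ^ (-t)) ≤ (f p + η) ^ (-t) - (f p + (K + 2) * η) ^ (-t)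
    linarith

end Pool.Agent.Lib.S3K
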