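import Mathlib

/-! Project S3, kit: the monotonicity lemma and a limit lemma for strict inequalities. -/

open Filter Topology MeasureTheory Set
open scoped ENNReal

noncomputable section

namespace Pool.Agent.Lib.S3K

variable {Y : Type*} [MeasurableSpace Y] {ν : Measure Y}

/-- The error integrand. -/
def fA (θ e b b' : ℝ) : ℝ := e * b' * (b + e) ^ (-2 - θ)

/-- The main integrand. -/
def fB (θ e b b' : ℝ) : ℝ := θ * (b * b' * (b + e) ^ (-2 - θ))

/-- The primitive. -/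
def fK (θ e b : ℝ) : ℝ := b * e ^ θ * (b + e) ^ (-1 - θ)

theorem fK_der {θ e b : ℝ} (he : 0 < e) (hb : 0 ≤ b) :
    HasDerivAt (fun e => fK θ e b) (e ^ (θ - 1) * (fB θ e b b - fA θ e b b)) e := by
  have hp : 0 < b + e := by linarith
  have h1 := (Real.hasDerivAt_rpow_const (p := θ) (Or.inl he.ne')).const_mul b
  have h2 := ((hasDerivAt_id' e).const_add b).rpow_const (p := -1 - θ) (Or.inl hp.ne')
  refine (h1.mul h2).congr_deriv ?_
  have e1 : (b + e) ^ (-1 - θ) = (b + e) * (b + e) ^ (-2 - θ) := by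
    rw [show -1 - θ = 1 + (-2 - θ) by ring, Real.rpow_add hp, Real.rpow_one]
  have e2 : e ^ θ = e * e ^ (θ - 1) := by
    rw [show e * e ^ (θ - 1) = e ^ (1 : ℝ) * e ^ (θ - 1) by rw [Real.rpow_one],
      ← Real.rpow_add he]
    ring_nf
  rw [e1, e2, show -1 - θ - 1 = -2 - θ by ring, fA, fB]
  ring

theorem pw_le {θ e b : ℝ} (hθ : 0 ≤ θ) (he : 0 < e) (hb : 0 ≤ b) (c : ℝ) :
    (b + e) ^ c * (b + e) ^ (-c - θ) ≤ e ^ (-θ) := by
  have hp : 0 < b + e := by linarith
  rw [← Real.rpow_add hp, show c + (-c - θ) = -θ by ring]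
  exact Real.rpow_le_rpow_of_nonpos he (by linarith) (by linarith)

theorem fA_nn {θ e b b' : ℝ} (he : 0 < e) (hb : 0 ≤ b) (hb' : 0 ≤ b') : 0 ≤ fA θ e b b' := by
  unfold fA
  positivity

theorem fB_nn {θ e b b' : ℝ} (hθ : 0 ≤ θ) (he : 0 < e) (hb : 0 ≤ b) (hb' : 0 ≤ b') :
    0 ≤ fB θ e b b' := by
  unfold fB
  positivity

theorem fA_le {θ e b b' : ℝ} (hθ : 0 ≤ θ) (he : 0 < e) (hb : 0 ≤ b) (hb' : 0 ≤ b') :
    fA θ e b b' ≤ e ^ (-1 - θ) * b' := by
  have h : (b + e) ^ (-2 - θ) ≤ e ^ (-2 - θ) :=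
    Real.rpow_le_rpow_of_nonpos he (by linarith) (by linarith)
  have e1 : e ^ (-1 - θ) = e * e ^ (-2 - θ) := by
    rw [show -1 - θ = 1 + (-2 - θ) by ring, Real.rpow_add he, Real.rpow_one]
  rw [e1, fA, mul_right_comm]
  gcongr

theorem fAB_le {θ e b : ℝ} (hθ : 0 ≤ θ) (he : 0 < e) (hb : 0 ≤ b) :
    fA θ e b b ≤ e ^ (-θ) ∧ fB θ e b b ≤ θ * e ^ (-θ) := by
  have h := pw_le hθ he hb 2
  have h0 : 0 ≤ (b + e) ^ (-2 - θ) := by positivity
  rw [Real.rpow_two] at h
  refine ⟨le_trans ?_ h, mul_le_mul_of_nonneg_left (le_trans ?_ h) hθ⟩ <;>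
    exact mul_le_mul_of_nonneg_right (by nlinarith) h0

theorem fK_le {θ e b : ℝ} (hθ : 0 ≤ θ) (he : 0 < e) (hb : 0 ≤ b) : 0 ≤ fK θ e b ∧ fK θ e b ≤ 1 := by
  have h := pw_le hθ he hb 1
  have h0 : 0 ≤ (b + e) ^ (-1 - θ) := by positivity
  have h1 : 0 < e ^ θ := by positivity
  rw [Real.rpow_one, Real.rpow_neg he.le] at h
  refine ⟨by unfold fK; positivity, ?_⟩
  calc fK θ e b = e ^ θ * (b * (b + e) ^ (-1 - θ)) := by rw [fK]; ring
    _ ≤ e ^ θ * (e ^ θ)⁻¹ := mul_le_mul_of_nonneg_left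
        ((mul_le_mul_of_nonneg_right (by linarith) h0).trans h) h1.le
    _ = 1 := mul_inv_cancel₀ h1.ne'

/-- Some value of the parameter makes the main term larger than the error term. -/
theorem kmono [IsFiniteMeasure ν] (hν : ν ≠ 0) {b : Y → ℝ} (hm : AEMeasurable b ν)
    (hb : ∀ᵐ y ∂ν, 0 < b y) {θ : ℝ} (hθ : 0 < θ) :
    ∃ e > 0, ∫ y, fA θ e (b y) (b y) ∂ν < ∫ y, fB θ e (b y) (b y) ∂ν := by
  by_contra hc
  push Not at hc
  have mA : ∀ e, AEStronglyMeasurable (fun y => fA θ e (b y) (b y)) ν := fun e =>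
    (((hm.const_mul e).mul ((hm.add_const e).pow_const _))).aestronglyMeasurable
  have mB : ∀ e, AEStronglyMeasurable (fun y => fB θ e (b y) (b y)) ν := fun e =>
    (((hm.mul hm).mul ((hm.add_const e).pow_const _)).const_mul θ).aestronglyMeasurable
  have mK : ∀ e, AEStronglyMeasurable (fun y => fK θ e (b y)) ν := fun e =>
    ((hm.mul_const _).mul ((hm.add_const e).pow_const _)).aestronglyMeasurable
  have iK : ∀ e > 0, Integrable (fun y => fK θ e (b y)) ν := fun e he =>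
    .of_bound (mK e) 1 (hb.mono fun y hy => by
      rw [Real.norm_of_nonneg (fK_le hθ.le he hy.le).1]; exact (fK_le hθ.le he hy.le).2)
  have iA : ∀ e > 0, Integrable (fun y => fA θ e (b y) (b y)) ν := fun e he =>
    .of_bound (mA e) _ (hb.mono fun y hy => by
      rw [Real.norm_of_nonneg (fA_nn he hy.le hy.le)]; exact (fAB_le hθ.le he hy.le).1)
  have iB : ∀ e > 0, Integrable (fun y => fB θ e (b y) (b y)) ν := fun e he =>
    .of_bound (mB e) _ (hb.mono fun y hy => by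
      rw [Real.norm_of_nonneg (fB_nn hθ.le he hy.le hy.le)]; exact (fAB_le hθ.le he hy.le).2)
  have der : ∀ e > 0, HasDerivAt (fun e => ∫ y, fK θ e (b y) ∂ν)
      (∫ y, e ^ (θ - 1) * (fB θ e (b y) (b y) - fA θ e (b y) (b y)) ∂ν) e := fun e he => by
    have hs : Ioo (e / 2) (2 * e) ∈ 𝓝 e := Ioo_mem_nhds (by linarith) (by linarith)
    refine (hasDerivAt_integral_of_dominated_loc_of_deriv_le (bound := fun _ => (θ + 1) * (2 / e))
      hs (.of_forall mK) (iK e he) (((mB e).sub (mA e)).const_mul _) ?_ (integrable_const _)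
      (hb.mono fun y hy s hs => fK_der (by linarith [hs.1]) hy.le)).2
    refine hb.mono fun y hy s hs => ?_
    have s0 : 0 < s := by linarith [hs.1]
    obtain ⟨a1, a2⟩ := fAB_le hθ.le s0 hy.le
    have a3 := fA_nn (θ := θ) s0 hy.le hy.le
    have a4 := fB_nn hθ.le s0 hy.le hy.le
    have a5 : |fB θ s (b y) (b y) - fA θ s (b y) (b y)| ≤ (θ + 1) * s ^ (-θ) :=
      abs_le.2 ⟨by nlinarith, by nlinarith⟩
    have a6 : s ^ (θ - 1) * s ^ (-θ) = s⁻¹ := by
      rw [← Real.rpow_add s0, show θ - 1 + -θ = -1 by ring, Real.rpow_neg_one]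
    have a7 : s⁻¹ ≤ 2 / e := by
      rw [← inv_div]
      exact inv_anti₀ (by linarith) hs.1.le
    rw [norm_mul, Real.norm_of_nonneg (by positivity), Real.norm_eq_abs]
    calc _ ≤ s ^ (θ - 1) * ((θ + 1) * s ^ (-θ)) := by gcongr
      _ = (θ + 1) * s⁻¹ := by rw [← a6]; ring
      _ ≤ _ := by gcongr
  have anti : AntitoneOn (fun e => ∫ y, fK θ e (b y) ∂ν) (Ioi 0) :=
    antitoneOn_of_deriv_nonpos (convex_Ioi 0)
      (fun e he => (der e he).continuousAt.continuousWithinAt)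
      (fun e he => (der e (interior_subset he)).differentiableAt.differentiableWithinAt)
      fun e he => by
        have he' : 0 < e := interior_subset he
        rw [(der e he').deriv, integral_const_mul, integral_sub (iB e he') (iA e he')]
        exact mul_nonpos_of_nonneg_of_nonpos (by positivity) (sub_nonpos.2 (hc e he'))
  have lim : Tendsto (fun e => ∫ y, fK θ e (b y) ∂ν) (𝓝[>] 0) (𝓝 (∫ _, (0 : ℝ) ∂ν)) := by
    refine tendsto_integral_filter_of_dominated_convergence (fun _ => 1) (.of_forall mK) ?_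
      (integrable_const _) (hb.mono fun y hy => ?_)
    · filter_upwards [self_mem_nhdsWithin] with e he
      exact hb.mono fun y hy => by
        rw [Real.norm_of_nonneg (fK_le hθ.le he hy.le).1]; exact (fK_le hθ.le he hy.le).2
    · have c : ContinuousAt (fun e => fK θ e (b y)) 0 :=
        (continuousAt_const.mul (Real.continuousAt_rpow_const _ _ (Or.inr hθ.le))).mul
          ((continuousAt_const.add continuousAt_id).rpow_const (Or.inl (by simpa using hy.ne')))
      have := c.tendsto.mono_left (nhdsWithin_le_nhds (s := Ioi 0))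
      simpa [fK, hθ.ne'] using this
  have pos : 0 < ∫ y, fK θ 1 (b y) ∂ν := by
    rw [integral_pos_iff_support_of_nonneg_ae (hb.mono fun y hy => (fK_le hθ.le one_pos hy.le).1)
      (iK 1 one_pos)]
    have : Function.support (fun y => fK θ 1 (b y)) ∈ ae ν := hb.mono fun y hy => by
      have : 0 < fK θ 1 (b y) := by unfold fK; positivity
      exact this.ne'
    rw [measure_congr (ae_eq_univ.2 this)]
    exact Measure.measure_univ_pos.2 hν
  rw [integral_zero] at lim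
  refine pos.not_ge (ge_of_tendsto lim ?_)
  filter_upwards [Ioc_mem_nhdsGT one_pos] with e he using anti he.1 (mem_Ioi.2 one_pos) he.2

/-- A strict inequality between the limits holds eventually. -/
theorem lim2 [IsFiniteMeasure ν] {f g : ℕ → Y → ℝ} {f₀ g₀ : Y → ℝ} {C : ℝ≥0∞} (hC : C ≠ ⊤)
    (hf : ∀ k, AEMeasurable (f k) ν) (hg : ∀ k, AEMeasurable (g k) ν)
    (h2 : ∀ k, ∫⁻ y, ENNReal.ofReal (f k y ^ 2) ∂ν ≤ C)
    (h1 : ∀ᵐ y ∂ν, Tendsto (f · y) atTop (𝓝 (f₀ y)) ∧ Tendsto (g · y) atTop (𝓝 (g₀ y)))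
    (h : ∫⁻ y, ENNReal.ofReal (f₀ y) ∂ν < ∫⁻ y, ENNReal.ofReal (g₀ y) ∂ν) :
    ∀ᶠ k in atTop, ∫⁻ y, ENNReal.ofReal (f k y) ∂ν < ∫⁻ y, ENNReal.ofReal (g k y) ∂ν := by
  obtain ⟨c, c1, c2⟩ := exists_between h
  obtain ⟨c', c3, c4⟩ := exists_between c1
  have a1 : ∀ᶠ k in atTop, c < ∫⁻ y, ENNReal.ofReal (g k y) ∂ν := by
    refine eventually_lt_of_lt_liminf (c2.trans_le (le_trans (le_of_eq ?_)
      (lintegral_liminf_le' fun k => (hg k).ennreal_ofReal)))
    exact lintegral_congr_ae (h1.mono fun y hy => (ENNReal.tendsto_ofReal hy.2).liminf_eq.symm)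
  have t1 : Tendsto (fun R : ℕ => c' + ((R : ℝ≥0∞))⁻¹ * C) atTop (𝓝 (c' + 0 * C)) :=
    tendsto_const_nhds.add (ENNReal.Tendsto.mul_const ENNReal.tendsto_inv_nat_nhds_zero
      (Or.inr hC))
  rw [zero_mul, add_zero] at t1
  obtain ⟨R, R1, R0⟩ := ((t1.eventually (gt_mem_nhds c4)).and (eventually_gt_atTop 0)).exists
  have r0 : (0 : ℝ) < R := Nat.cast_pos.2 R0
  have a2 : Tendsto (fun k => ∫⁻ y, ENNReal.ofReal (min (f k y) R) ∂ν) atTop
      (𝓝 (∫⁻ y, ENNReal.ofReal (min (f₀ y) R) ∂ν)) :=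
    tendsto_lintegral_of_dominated_convergence' (fun _ => ENNReal.ofReal R)
      (fun k => ((hf k).min aemeasurable_const).ennreal_ofReal)
      (fun k => .of_forall fun y => ENNReal.ofReal_le_ofReal (min_le_right _ _))
      (by simp [ENNReal.mul_ne_top]) (h1.mono fun y hy =>
        ENNReal.tendsto_ofReal (hy.1.min tendsto_const_nhds))
  filter_upwards [a1, a2.eventually (gt_mem_nhds ((lintegral_mono fun y =>
    ENNReal.ofReal_le_ofReal (min_le_left _ _)).trans_lt c3))] with k k1 k2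
  refine lt_trans (lt_of_le_of_lt ?_ R1) k1
  calc _ ≤ ∫⁻ y, ENNReal.ofReal (min (f k y) R) + (R : ℝ≥0∞)⁻¹ * ENNReal.ofReal (f k y ^ 2) ∂ν := by
        refine lintegral_mono fun y => ?_
        rw [← ENNReal.ofReal_natCast, ← ENNReal.ofReal_inv_of_pos r0,
          ← ENNReal.ofReal_mul (by positivity)]
        refine le_trans (ENNReal.ofReal_le_ofReal ?_) ENNReal.ofReal_add_le
        rcases le_total (f k y) R with a | a
        · rw [min_eq_left a]
          exact le_add_of_nonneg_right (by positivity)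
        · rw [min_eq_right a, inv_mul_eq_div, ← sub_le_iff_le_add', le_div_iff₀ r0]
          nlinarith
    _ ≤ _ := by
        rw [lintegral_add_left' ((hf k).min aemeasurable_const).ennreal_ofReal,
          lintegral_const_mul'' _ ((hf k).pow_const 2).ennreal_ofReal]
        gcongr
        exact h2 k

end Pool.Agent.Lib.S3K
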