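import Pool.Agent.Lib.S3K.TelA

/-! Project S3, kit: compact families of functions with integrable negative powers. -/

open Filter Topology MeasureTheory Set
open scoped ENNReal

noncomputable section

namespace Pool.Agent.Lib.S3K

variable {Y : Type*} [MeasurableSpace Y] {ν : Measure Y}

/-- A family of functions whose powers of exponent `-t` have bounded integrals. -/
structure Fam {T : Type*} [TopologicalSpace T] (ν : Measure Y) (t : ℝ) (C : ℝ≥0∞)
    (φ : T → Y → ℝ) : Prop where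
  cont : ∀ y, Continuous (φ · y)
  meas : ∀ τ, AEMeasurable (φ τ) ν
  pos : ∀ τ, ∀ᵐ y ∂ν, 0 < φ τ y ∧ φ τ y ≤ 1
  int : ∀ τ, ∫⁻ y, ENNReal.ofReal (Real.exp (t * -Real.log (φ τ y))) ∂ν ≤ C

theorem exp_sum_le (s : Finset ℕ) (w u : ℕ → ℝ) (h0 : ∀ m ∈ s, 0 ≤ w m) (h1 : ∑ m ∈ s, w m ≤ 1) :
    Real.exp (∑ m ∈ s, w m * u m) ≤ 1 + ∑ m ∈ s, w m * Real.exp (u m) := by
  set S := ∑ m ∈ s, w m * u m with hS
  have k : ∀ v, Real.exp S * (v - S + 1) ≤ Real.exp v := fun v => by
    have := mul_le_mul_of_nonneg_left (Real.add_one_le_exp (v - S)) (Real.exp_pos S).le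
    rwa [← Real.exp_add, add_sub_cancel] at this
  have a := Finset.sum_le_sum fun m hm => mul_le_mul_of_nonneg_left (k (u m)) (h0 m hm)
  have e : ∑ m ∈ s, w m * (Real.exp S * (u m - S + 1)) =
      Real.exp S * (S + (1 - S) * ∑ m ∈ s, w m) := by
    conv_rhs => rw [mul_add, ← mul_assoc, Finset.mul_sum]
    nth_rewrite 4 [hS]
    rw [Finset.mul_sum, ← Finset.sum_add_distrib]
    exact Finset.sum_congr rfl fun m _ => by ring
  have b := mul_le_mul_of_nonneg_left (k 0) (sub_nonneg.2 h1)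
  have c := Finset.sum_nonneg h0
  rw [e] at a
  rw [Real.exp_zero] at b
  nlinarith

variable {T : Type*} [TopologicalSpace T] {t : ℝ} {C : ℝ≥0∞} {φ : T → Y → ℝ}

theorem Fam.mlog (h : Fam ν t C φ) (τ : T) : AEMeasurable (fun y => Real.log (φ τ y)) ν :=
  Real.measurable_log.comp_aemeasurable (h.meas τ)

theorem Fam.jensen (h : Fam ν t C φ) (ht : 0 < t) (s : Finset ℕ) (c : ℕ → ℝ) (σ : ℕ → T)
    (h0 : ∀ m ∈ s, 0 ≤ c m) (h1 : ∑ m ∈ s, c m ≤ t) :
    ∫⁻ y, ENNReal.ofReal (Real.exp (∑ m ∈ s, c m * -Real.log (φ (σ m) y))) ∂ν ≤ ν univ + C := by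
  have w0 : ∀ m ∈ s, 0 ≤ c m / t := fun m hm => div_nonneg (h0 m hm) ht.le
  have w1 : ∑ m ∈ s, c m / t ≤ 1 := by rwa [← Finset.sum_div, div_le_one ht]
  have me : ∀ m, AEMeasurable
      (fun y => ENNReal.ofReal (Real.exp (t * -Real.log (φ (σ m) y)))) ν := fun m =>
    (Real.measurable_exp.comp_aemeasurable ((h.mlog _).neg.const_mul t)).ennreal_ofReal
  calc _ ≤ ∫⁻ y, 1 + ∑ m ∈ s, ENNReal.ofReal (c m / t) *
        ENNReal.ofReal (Real.exp (t * -Real.log (φ (σ m) y))) ∂ν := by
        refine lintegral_mono fun y => ?_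
        have := exp_sum_le s (fun m => c m / t) (fun m => t * -Real.log (φ (σ m) y)) w0 w1
        rw [Finset.sum_congr rfl fun m _ => show c m / t * (t * -Real.log (φ (σ m) y)) =
          c m * -Real.log (φ (σ m) y) by field_simp] at this
        refine (ENNReal.ofReal_le_ofReal this).trans (ENNReal.ofReal_add_le.trans ?_)
        rw [ENNReal.ofReal_one, ENNReal.ofReal_sum_of_nonneg fun m hm =>
          mul_nonneg (w0 m hm) (Real.exp_pos _).le]
        exact add_le_add le_rfl (Finset.sum_le_sum fun m hm => (ENNReal.ofReal_mul (w0 m hm)).le)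
    _ ≤ ν univ + ∑ m ∈ s, ENNReal.ofReal (c m / t) * C := by
        rw [lintegral_add_left measurable_const, lintegral_one,
          lintegral_finsetSum' _ fun m _ => (me m).const_mul _]
        refine add_le_add le_rfl (Finset.sum_le_sum fun m _ => ?_)
        rw [lintegral_const_mul'' _ (me m)]
        exact mul_le_mul_right (h.int _) _
    _ ≤ _ := by
        rw [← Finset.sum_mul, ← ENNReal.ofReal_sum_of_nonneg w0]
        exact add_le_add le_rfl (mul_le_of_le_one_left' (ENNReal.ofReal_le_one.2 w1))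

theorem Fam.sq (h : Fam ν t C φ) (ht : 0 < t) (τ : T) :
    ∫⁻ y, ENNReal.ofReal (Real.log (φ τ y) ^ 2) ∂ν ≤ ENNReal.ofReal (2 / t ^ 2) * C := by
  refine le_trans (lintegral_mono_ae ((h.pos τ).mono fun y hy => ?_))
    ((lintegral_const_mul' _ _ ENNReal.ofReal_ne_top).trans_le (mul_le_mul_right (h.int τ) _))
  have a : 0 ≤ t * -Real.log (φ τ y) :=
    mul_nonneg ht.le (neg_nonneg.2 (Real.log_nonpos hy.1.le hy.2))
  have b := Real.quadratic_le_exp_of_nonneg a
  rw [← ENNReal.ofReal_mul (by positivity)]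
  refine ENNReal.ofReal_le_ofReal ?_
  rw [div_mul_eq_mul_div, le_div_iff₀ (by positivity)]
  nlinarith

variable [IsFiniteMeasure ν]

theorem Fam.intg (h : Fam ν t C φ) (ht : 0 < t) (hC : C ≠ ⊤) (τ : T) :
    Integrable (fun y => Real.log (φ τ y)) ν := by
  refine MemLp.integrable one_le_two ((memLp_two_iff_integrable_sq
    (h.mlog τ).aestronglyMeasurable).2 ⟨((h.mlog τ).pow_const 2).aestronglyMeasurable, ?_⟩)
  rw [hasFiniteIntegral_iff_ofReal (.of_forall fun y => sq_nonneg _)]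
  exact (h.sq ht τ).trans_lt (ENNReal.mul_lt_top ENNReal.ofReal_lt_top hC.lt_top)

theorem Fam.cL1 [FirstCountableTopology T] (hν : ν ≠ 0) (h : Fam ν t C φ) (ht : 0 < t)
    (hC : C ≠ ⊤) : Continuous fun τ => (h.intg ht hC τ).toL1 _ := by
  refine continuous_iff_seqContinuous.2 fun σ τ hσ => Metric.tendsto_nhds.2 fun δ hδ => ?_
  have u0 : 0 < ν.real univ := ENNReal.toReal_pos (Measure.measure_univ_ne_zero.2 hν) (measure_ne_top _ _)
  have mm := fun k => ((h.mlog (σ k)).sub (h.mlog τ)).abs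
  have := lim2 (ν := ν) (f := fun k y => |Real.log (φ (σ k) y) - Real.log (φ τ y)|)
    (g := fun _ _ => δ / ν.real univ) (f₀ := fun _ => 0) (g₀ := fun _ => δ / ν.real univ)
    (C := 2 * (ENNReal.ofReal (2 / t ^ 2) * C) + 2 * (ENNReal.ofReal (2 / t ^ 2) * C))
    (by finiteness) mm (fun _ => aemeasurable_const) (fun k => ?_)
    ((h.pos τ).mono fun y hy => ⟨?_, tendsto_const_nhds⟩) ?_
  · filter_upwards [this] with k hk
    rw [lintegral_const, ← ofReal_measureReal, ← ENNReal.ofReal_mul (by positivity),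
      div_mul_cancel₀ _ u0.ne'] at hk
    rw [Function.comp_apply, dist_eq_norm, ← Integrable.toL1_sub, L1.norm_of_fun_eq_integral_norm,
      integral_eq_lintegral_of_nonneg_ae (.of_forall fun y => norm_nonneg _)
        (mm k).aestronglyMeasurable]
    exact ENNReal.toReal_lt_of_lt_ofReal hk
  · calc _ ≤ ∫⁻ y, 2 * ENNReal.ofReal (Real.log (φ (σ k) y) ^ 2) +
          2 * ENNReal.ofReal (Real.log (φ τ y) ^ 2) ∂ν := by
          refine lintegral_mono fun y => ?_
          rw [← ENNReal.ofReal_ofNat, ← ENNReal.ofReal_mul zero_le_two,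
            ← ENNReal.ofReal_mul zero_le_two]
          refine le_trans (ENNReal.ofReal_le_ofReal ?_) ENNReal.ofReal_add_le
          rw [sq_abs]
          nlinarith [sq_nonneg (Real.log (φ (σ k) y) + Real.log (φ τ y))]
      _ ≤ _ := by
          rw [lintegral_add_left' (((h.mlog _).pow_const 2).ennreal_ofReal.const_mul _),
            lintegral_const_mul' _ _ ENNReal.ofNat_ne_top,
            lintegral_const_mul' _ _ ENNReal.ofNat_ne_top]
          gcongr <;> exact h.sq ht _
  · have := ((((h.cont y).tendsto τ).comp hσ).log hy.1.ne').sub_const (Real.log (φ τ y))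
    simpa using this.abs
  · simp only [ENNReal.ofReal_zero, lintegral_const, zero_mul]
    exact ENNReal.mul_pos (ENNReal.ofReal_pos.2 (by positivity)).ne'
      (Measure.measure_univ_ne_zero.2 hν)

omit [IsFiniteMeasure ν] in
/-- Convergence in measure of the telescoping sums. -/
theorem conv {P : Type*} [TopologicalSpace P] [CompactSpace P] {g : P → Y → ℝ}
    (hi : ∀ p, Integrable (g p) ν) (hc : Continuous fun p => (hi p).toL1 _) (σ : ℕ → P) :
    ∃ U : Y → ℝ, AEMeasurable U ν ∧ ∀ (s : ℕ → ℕ → P) (M : ℕ → ℕ), Tendsto s atTop (𝓝 σ) →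
      Tendsto M atTop atTop → TendstoInMeasure ν
        (fun k y => ∑ m ∈ Finset.range (M k), (1 / 2 : ℝ) ^ (m + 1) * g (s k m) y) atTop U := by
  obtain ⟨B, hB⟩ := isCompact_univ.exists_bound_of_continuousOn hc.continuousOn
  refine ⟨(∑' m, (1 / 2 : ℝ) ^ (m + 1) • (hi (σ m)).toL1 _ :), (Lp.aestronglyMeasurable _).aemeasurable,
    fun s M hs hM => ?_⟩
  have co : ∀ (p : ℕ → P) (N : ℕ), (∑ m ∈ Finset.range N, (1 / 2 : ℝ) ^ (m + 1) • (hi (p m)).toL1 _ :)
      =ᵐ[ν] fun y => ∑ m ∈ Finset.range N, (1 / 2 : ℝ) ^ (m + 1) * g (p m) y := fun p N => by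
    induction N with
    | zero =>
      simp only [Finset.range_zero, Finset.sum_empty]
      exact Lp.coeFn_zero ℝ 1 ν
    | succ N ih =>
      simp only [Finset.sum_range_succ]
      filter_upwards [ih, Lp.coeFn_add (∑ m ∈ Finset.range N, (1 / 2 : ℝ) ^ (m + 1) •
        (hi (p m)).toL1 _) ((1 / 2 : ℝ) ^ (N + 1) • (hi (p N)).toL1 _),
        Lp.coeFn_smul ((1 / 2 : ℝ) ^ (N + 1)) ((hi (p N)).toL1 _), (hi (p N)).coeFn_toL1]
        with y a b c d
      rw [b, Pi.add_apply, a, c, Pi.smul_apply, d, smul_eq_mul]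
  refine (tendstoInMeasure_of_tendsto_Lp (f := fun k => ∑ m ∈ Finset.range (M k),
    (1 / 2 : ℝ) ^ (m + 1) • (hi (s k m)).toL1 _) ?_).congr_left fun k => co (s k) (M k)
  have := tendsto_tsum_of_dominated_convergence (𝓕 := atTop)
    (f := fun k m => if m ∈ Finset.range (M k) then (1 / 2 : ℝ) ^ (m + 1) • (hi (s k m)).toL1 _
      else 0) (g := fun m => (1 / 2 : ℝ) ^ (m + 1) • (hi (σ m)).toL1 _)
    (bound := fun m => (1 / 2 : ℝ) ^ (m + 1) * |B|)
    (((summable_nat_add_iff 1).2 summable_geometric_two).mul_right _) (fun m => ?_)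
    (.of_forall fun k m => ?_)
  · refine this.congr fun k => ?_
    rw [tsum_eq_sum (s := Finset.range (M k)) fun m hm => if_neg hm]
    exact Finset.sum_congr rfl fun m hm => if_pos hm
  · refine (((hc.tendsto _).comp (tendsto_pi_nhds.1 hs m)).const_smul _).congr' ?_
    filter_upwards [hM.eventually_gt_atTop m] with k hk
    rw [if_pos (Finset.mem_range.2 hk)]
    rfl
  · split_ifs
    · rw [norm_smul, Real.norm_of_nonneg (by positivity)]
      exact mul_le_mul_of_nonneg_left ((hB _ (mem_univ _)).trans (le_abs_self B)) (by positivity)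
    · rw [norm_zero]
      positivity

end Pool.Agent.Lib.S3K
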