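import Pool.Agent.Lib.S3K.TelB

/-! Project S3, kit: the telescope. -/

open Filter Topology MeasureTheory Set
open scoped ENNReal

noncomputable section

namespace Pool.Agent.Lib.S3K

variable {Y : Type*} [MeasurableSpace Y] {ν : Measure Y}

/-- The integral of an exponential. -/
def IE (ν : Measure Y) (u : Y → ℝ) : ℝ≥0∞ := ∫⁻ y, ENNReal.ofReal (Real.exp (u y)) ∂ν

theorem IE_mono {u v : Y → ℝ} (h : ∀ᵐ y ∂ν, u y ≤ v y) : IE ν u ≤ IE ν v :=
  lintegral_mono_ae (h.mono fun _ hy => ENNReal.ofReal_le_ofReal (Real.exp_le_exp.2 hy))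

theorem IE_m {u : Y → ℝ} (h : AEMeasurable u ν) :
    AEMeasurable (fun y => ENNReal.ofReal (Real.exp (u y))) ν :=
  (Real.measurable_exp.comp_aemeasurable h).ennreal_ofReal

theorem IE_add {u v w : Y → ℝ} (hu : AEMeasurable u ν) (h : ∀ᵐ y ∂ν, 2 * w y ≤ u y + v y) :
    IE ν w ≤ IE ν u + IE ν v := by
  rw [IE, IE, IE, ← lintegral_add_left' (IE_m hu)]
  refine lintegral_mono_ae (h.mono fun y hy =>
    le_trans (ENNReal.ofReal_le_ofReal ?_) ENNReal.ofReal_add_le)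
  rcases le_total (u y) (v y) with a | a
  · exact (Real.exp_le_exp.2 (by linarith)).trans (le_add_of_nonneg_left (Real.exp_pos _).le)
  · exact (Real.exp_le_exp.2 (by linarith)).trans (le_add_of_nonneg_right (Real.exp_pos _).le)

theorem IE_const (c : ℝ) (u : Y → ℝ) :
    IE ν (fun y => c + u y) = ENNReal.ofReal (Real.exp c) * IE ν u := by
  rw [IE, IE, ← lintegral_const_mul' _ _ ENNReal.ofReal_ne_top]
  exact lintegral_congr fun y => by rw [Real.exp_add, ENNReal.ofReal_mul (Real.exp_pos _).le]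

theorem IE_lim {u : ℕ → Y → ℝ} {v : Y → ℝ} {A : ℝ≥0∞} (hu : ∀ k, AEMeasurable (u k) ν)
    (h : ∀ᵐ y ∂ν, Tendsto (u · y) atTop (𝓝 (v y))) (hA : ∀ k, IE ν (u k) ≤ A) : IE ν v ≤ A := by
  refine le_trans (le_trans (le_of_eq ?_) (lintegral_liminf_le' fun k => IE_m (hu k)))
    (liminf_le_of_frequently_le' (Frequently.of_forall (f := atTop) hA))
  exact lintegral_congr_ae (h.mono fun y hy =>
    (ENNReal.tendsto_ofReal ((Real.continuous_exp.tendsto _).comp hy)).liminf_eq.symm)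

/-- The strict inequality, in logarithmic variables. -/
def Ineq (ν : Measure Y) (K θ e : ℝ) (β β' ω : Y → ℝ) : Prop :=
  ∫⁻ y, ENNReal.ofReal (K * (fA θ e (Real.exp (β y)) (Real.exp (β' y)) * Real.exp (ω y))) ∂ν <
    ∫⁻ y, ENNReal.ofReal (fB θ e (Real.exp (β y)) (Real.exp (β' y)) * Real.exp (ω y)) ∂ν

theorem sq_le {f : Y → ℝ} {u : Y → ℝ} {K c : ℝ} (h : ∀ y, 0 ≤ f y ∧ f y ≤ c * Real.exp (u y)) :
    ∫⁻ y, ENNReal.ofReal ((K * f y) ^ 2) ∂ν ≤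
      ENNReal.ofReal ((K * c) ^ 2) * IE ν fun y => 2 * u y := by
  rw [IE, ← lintegral_const_mul' _ _ ENNReal.ofReal_ne_top]
  refine lintegral_mono fun y => ?_
  rw [← ENNReal.ofReal_mul (sq_nonneg _), two_mul, Real.exp_add, ← sq, mul_pow, mul_pow,
    mul_assoc, ← mul_pow c]
  exact ENNReal.ofReal_le_ofReal
    (mul_le_mul_of_nonneg_left (pow_le_pow_left₀ (h y).1 (h y).2 2) (sq_nonneg _))

theorem fAB_t {α : Type*} {l : Filter α} {θ e₀ b₀ c₀ : ℝ} {e b c : α → ℝ} (h : 0 < b₀ + e₀)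
    (he : Tendsto e l (𝓝 e₀)) (hb : Tendsto b l (𝓝 b₀)) (hc : Tendsto c l (𝓝 c₀)) :
    Tendsto (fun k => fA θ (e k) (b k) (c k)) l (𝓝 (fA θ e₀ b₀ c₀)) ∧
      Tendsto (fun k => fB θ (e k) (b k) (c k)) l (𝓝 (fB θ e₀ b₀ c₀)) :=
  ⟨(he.mul hc).mul ((hb.add he).rpow_const (Or.inl h.ne')),
    ((hb.mul hc).mul ((hb.add he).rpow_const (Or.inl h.ne'))).const_mul θ⟩

theorem fAB_m {β β' ω : Y → ℝ} (K θ e : ℝ) (h1 : AEMeasurable β ν) (h2 : AEMeasurable β' ν)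
    (h3 : AEMeasurable ω ν) :
    AEMeasurable (fun y => K * (fA θ e (Real.exp (β y)) (Real.exp (β' y)) * Real.exp (ω y))) ν ∧
      AEMeasurable (fun y => fB θ e (Real.exp (β y)) (Real.exp (β' y)) * Real.exp (ω y)) ν := by
  unfold fA fB
  constructor <;> fun_prop

variable [IsFiniteMeasure ν]

theorem Ineq.lim {K θ e : ℝ} {β β' ω : ℕ → Y → ℝ} {β₀ β₀' ω₀ : Y → ℝ} {A : ℝ≥0∞} (hθ : 0 ≤ θ)
    (he : 0 < e) (hA : A ≠ ⊤) (m1 : ∀ k, AEMeasurable (β k) ν) (m2 : ∀ k, AEMeasurable (β' k) ν)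
    (m3 : ∀ k, AEMeasurable (ω k) ν) (h2 : ∀ k, IE ν (fun y => 2 * (β' k y + ω k y)) ≤ A)
    (h1 : ∀ᵐ y ∂ν, Tendsto (β · y) atTop (𝓝 (β₀ y)) ∧ Tendsto (β' · y) atTop (𝓝 (β₀' y)) ∧
      Tendsto (ω · y) atTop (𝓝 (ω₀ y))) (h : Ineq ν K θ e β₀ β₀' ω₀) :
    ∀ᶠ k in atTop, Ineq ν K θ e (β k) (β' k) (ω k) := by
  refine lim2 (C := ENNReal.ofReal ((K * e ^ (-1 - θ)) ^ 2) * A) (by finiteness)
    (fun k => (fAB_m K θ e (m1 k) (m2 k) (m3 k)).1) (fun k => (fAB_m K θ e (m1 k) (m2 k) (m3 k)).2)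
    (fun k => (sq_le fun y => ⟨?_, ?_⟩).trans (mul_le_mul_right (h2 k) _))
    (h1.mono fun y hy => ?_) h
  · exact mul_nonneg (fA_nn he (Real.exp_pos _).le (Real.exp_pos _).le) (Real.exp_pos _).le
  · rw [Real.exp_add, ← mul_assoc]
    exact mul_le_mul_of_nonneg_right (fA_le hθ he (Real.exp_pos _).le (Real.exp_pos _).le)
      (Real.exp_pos _).le
  · have := fAB_t (θ := θ) (add_pos (Real.exp_pos _) he) tendsto_const_nhds hy.1.rexp hy.2.1.rexp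
    exact ⟨(this.1.mul hy.2.2.rexp).const_mul K, this.2.mul hy.2.2.rexp⟩

theorem Ineq.ex (hν : ν ≠ 0) (K : ℝ) {θ : ℝ} {β ω : Y → ℝ} (hθ : 0 < θ) (m1 : AEMeasurable β ν)
    (m3 : AEMeasurable ω ν) (h2 : IE ν (fun y => 2 * (-θ * β y + ω y)) ≠ ⊤) :
    ∃ e > 0, Ineq ν K θ e β β ω := by
  have p : ∀ n : ℕ, (0 : ℝ) < 1 / (n + 1) := fun n => by positivity
  have : ∀ᶠ n : ℕ in atTop, Ineq ν K θ (1 / (n + 1)) β β ω := by
    refine lim2 (C := ENNReal.ofReal ((K * 1) ^ 2) * IE ν fun y => 2 * (-θ * β y + ω y))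
      (f₀ := fun y => K * (fA θ 0 (Real.exp (β y)) (Real.exp (β y)) * Real.exp (ω y)))
      (g₀ := fun y => fB θ 0 (Real.exp (β y)) (Real.exp (β y)) * Real.exp (ω y))
      (by finiteness) (fun k => (fAB_m K θ _ m1 m1 m3).1) (fun k => (fAB_m K θ _ m1 m1 m3).2)
      (fun k => sq_le fun y => ⟨?_, ?_⟩) (.of_forall fun y => ?_) ?_
    · exact mul_nonneg (fA_nn (p k) (Real.exp_pos _).le (Real.exp_pos _).le) (Real.exp_pos _).le
    · have := (fAB_le hθ.le (Real.exp_pos (β y)) (p k).le).1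
      rw [← Real.exp_mul, mul_comm, fA, mul_comm (Real.exp (β y)), add_comm _ (Real.exp (β y))] at this
      rw [one_mul, Real.exp_add]
      exact mul_le_mul_of_nonneg_right this (Real.exp_pos _).le
    · have := fAB_t (θ := θ) (add_pos_of_pos_of_nonneg (Real.exp_pos (β y)) le_rfl)
        tendsto_one_div_add_atTop_nhds_zero_nat tendsto_const_nhds
        (tendsto_const_nhds (x := Real.exp (β y)))
      exact ⟨(this.1.mul_const _).const_mul K, this.2.mul_const _⟩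
    · simp only [fA, zero_mul, mul_zero, ENNReal.ofReal_zero, lintegral_const]
      rw [pos_iff_ne_zero, Ne, lintegral_eq_zero_iff' (fAB_m K θ 0 m1 m1 m3).2.ennreal_ofReal]
      intro h0
      have := ae_neBot.2 hν
      obtain ⟨y, hy⟩ := h0.exists
      exact (ENNReal.ofReal_pos.2 (by unfold fB; positivity)).ne' hy
  obtain ⟨n, hn⟩ := this.exists
  exact ⟨_, p n, hn⟩

theorem tail_le {u : ℕ → ℝ} (hu : ∀ m, 0 ≤ u m) (m0 M : ℕ) :
    ∑ m ∈ Finset.range M, (1 / 2 : ℝ) ^ (m + 1) * u m ≤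
      ∑ m ∈ Finset.range m0, u m + ∑ m ∈ Finset.Ico m0 M, (1 / 2 : ℝ) ^ (m + 1) * u m := by
  refine (Finset.sum_le_sum_of_subset_of_nonneg (t := Finset.range m0 ∪ Finset.Ico m0 M)
    (fun m => by simp only [Finset.mem_range, Finset.mem_union, Finset.mem_Ico]; omega)
    fun m _ _ => mul_nonneg (by positivity) (hu m)).trans ?_
  rw [Finset.sum_union (by rw [Finset.range_eq_Ico]; exact Finset.Ico_disjoint_Ico_consecutive ..)]
  exact add_le_add (Finset.sum_le_sum fun m _ =>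
    mul_le_of_le_one_left (hu m) (pow_le_one₀ (by norm_num) (by norm_num))) le_rfl

theorem geo_le (m0 M : ℕ) : ∑ m ∈ Finset.Ico m0 M, (1 / 2 : ℝ) ^ (m + 1) ≤ (1 / 2) ^ m0 := by
  have := geom_sum_Ico_le_of_lt_one (m := m0) (n := M) (x := (1 / 2 : ℝ)) (by norm_num)
    (by norm_num)
  simp only [pow_succ, ← Finset.sum_mul]
  rw [le_div_iff₀ (by norm_num)] at this
  linarith

omit [IsFiniteMeasure ν] in
theorem ae3 {f g h : ℕ → Y → ℝ} {f₀ g₀ h₀ : Y → ℝ} (hf : TendstoInMeasure ν f atTop f₀)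
    (hg : TendstoInMeasure ν g atTop g₀) (hh : TendstoInMeasure ν h atTop h₀) :
    ∃ n : ℕ → ℕ, StrictMono n ∧ ∀ᵐ y ∂ν, Tendsto (fun k => f (n k) y) atTop (𝓝 (f₀ y)) ∧
      Tendsto (fun k => g (n k) y) atTop (𝓝 (g₀ y)) ∧
      Tendsto (fun k => h (n k) y) atTop (𝓝 (h₀ y)) := by
  obtain ⟨n1, s1, a1⟩ := hf.exists_seq_tendsto_ae
  obtain ⟨n2, s2, a2⟩ := (hg.comp s1.tendsto_atTop).exists_seq_tendsto_ae
  obtain ⟨n3, s3, a3⟩ := (hh.comp (s1.comp s2).tendsto_atTop).exists_seq_tendsto_ae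
  refine ⟨(n1 ∘ n2) ∘ n3, (s1.comp s2).comp s3, ?_⟩
  filter_upwards [a1, a2, a3] with y b1 b2 b3
  exact ⟨b1.comp (s2.comp s3).tendsto_atTop, b2.comp s3.tendsto_atTop, b3⟩

end Pool.Agent.Lib.S3K
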