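import Pool.Agent.Lib.S3K.TelC

/-! Project S3, kit: the telescope theorem. -/

open Filter Topology MeasureTheory Set
open scoped ENNReal

noncomputable section

namespace Pool.Agent.Lib.S3K

variable {Y : Type*} [MeasurableSpace Y] {ν : Measure Y} [IsFiniteMeasure ν]
  {T T' : Type*} [TopologicalSpace T] [TopologicalSpace T'] [CompactSpace T] [CompactSpace T']
  [FirstCountableTopology T] [FirstCountableTopology T'] {t : ℝ} {C : ℝ≥0∞}
  {φ : T → Y → ℝ} {φ' : T' → Y → ℝ}

/-- The filler. -/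
def tlam (l r : ℕ → Y → ℝ) (j : ℕ) (η : ℝ) (y : Y) : ℝ :=
  (1 / 2) ^ j * Real.log (l j y + η * r j y)

/-- The normalised size of the corrected section. -/
def tb (P : ℕ → Y → ℝ) (l : ℕ → Y → ℝ) (m0 i : ℕ) (lam : Y → ℝ) (y : Y) : ℝ :=
  (∏ m ∈ Finset.range m0, P (i + m) y) * l i y * Real.exp (-(2 ^ i * lam y))

theorem tel (hν : ν ≠ 0) (h : Fam ν t C φ) (h' : Fam ν t C φ') (ht : 0 < t) (hC : C ≠ ⊤)
    (a : ℕ → T) (a' : ℕ → T') {l r : ℕ → Y → ℝ} (ml : ∀ i, AEMeasurable (l i) ν)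
    (mr : ∀ i, AEMeasurable (r i) ν) (r0 : ∀ i y, 0 ≤ r i y) (lb : ∀ i, ∃ B, ∀ y, l i y ≤ B)
    (l0 : ∀ᵐ y ∂ν, 0 < l 0 y)
    (hl : ∀ i, ∀ᵐ y ∂ν, l i y ^ 2 * φ' (a' i) y = l (i + 1) y * φ (a i) y) {x : ℝ} (hx : 0 ≤ x) :
    ∃ m0 : ℕ, ∃ θ₀ > 0, ∀ θ, 0 < θ → θ ≤ θ₀ → ∀ (K : ℝ) (N : ℕ) (J : ℕ → ℕ),
      ∃ i i' j : ℕ, N ≤ i ∧ i < i' ∧ J i' ≤ j ∧ ∃ e > 0, ∃ η > 0,
        ∫⁻ y, ENNReal.ofReal (K * (fA θ e (tb (fun m => φ' (a' m)) l m0 i (tlam l r j η) y)
          (tb (fun m => φ' (a' m)) l m0 i' (tlam l r j η) y) * Real.exp (x * tlam l r j η y))) ∂ν <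
        ∫⁻ y, ENNReal.ofReal (fB θ e (tb (fun m => φ' (a' m)) l m0 i (tlam l r j η) y)
          (tb (fun m => φ' (a' m)) l m0 i' (tlam l r j η) y) * Real.exp (x * tlam l r j η y)) ∂ν := by
  obtain ⟨m0, hm0⟩ := exists_pow_lt_of_lt_one (x := t / (4 * (x + 1))) (y := (1 / 2 : ℝ))
    (by positivity) (by norm_num)
  rw [lt_div_iff₀ (by positivity)] at hm0
  have q0 : (0 : ℝ) < (1 / 2) ^ m0 := by positivity
  refine ⟨m0, t / (8 * (m0 + 1)), by positivity, fun θ hθ hθ' K N J => ?_⟩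
  rw [le_div_iff₀ (by positivity)] at hθ'
  have m00 : (0 : ℝ) ≤ m0 := Nat.cast_nonneg _
  let g : T × T' → Y → ℝ := fun p y => Real.log (φ p.1 y) - Real.log (φ' p.2 y)
  let p : ℕ → T × T' := fun m => (a m, a' m)
  let S : ℕ → ℕ → Y → ℝ := fun i M y =>
    ∑ m ∈ Finset.range M, (1 / 2 : ℝ) ^ (m + 1) * g (p (i + m)) y
  let H : (ℕ → T × T') → Y → ℝ := fun s y => ∑ m ∈ Finset.range m0, Real.log (φ' (s m).2 y)
  let L : ℕ → Y → ℝ := fun j y => (1 / 2) ^ j * Real.log (l j y)
  let β : ℕ → (Y → ℝ) → Y → ℝ := fun i lam y =>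
    H (fun m => p (i + m)) y + (Real.log (l i y) - 2 ^ i * lam y)
  have hi : ∀ p, Integrable (g p) ν := fun p => (h.intg ht hC p.1).sub (h'.intg ht hC p.2)
  have hc : Continuous fun p => (hi p).toL1 _ :=
    (((h.cL1 hν ht hC).comp continuous_fst).sub ((h'.cL1 hν ht hC).comp continuous_snd)).congr
      fun p => (Integrable.toL1_sub _ _ (h.intg ht hC p.1) (h'.intg ht hC p.2)).symm
  have mL : ∀ j, AEMeasurable (L j) ν := fun j =>
    (Real.measurable_log.comp_aemeasurable (ml j)).const_mul _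
  have mH : ∀ s, AEMeasurable (H s) ν := fun s =>
    Finset.aemeasurable_fun_sum _ fun m _ => h'.mlog _
  have mβ : ∀ i lam, AEMeasurable lam ν → AEMeasurable (β i lam) ν := fun i lam hm =>
    (mH _).add ((Real.measurable_log.comp_aemeasurable (ml i)).sub (hm.const_mul _))
  have G : ∀ᵐ y ∂ν, (∀ m, 0 < l m y ∧ 0 < φ' (a' m) y ∧ 0 ≤ -Real.log (φ (a m) y) ∧
      0 ≤ -Real.log (φ' (a' m) y)) ∧ ∀ i j, i ≤ j → Real.log (l i y) - 2 ^ i * L j y =
        S i (j - i) y := by
    filter_upwards [l0, ae_all_iff.2 hl, ae_all_iff.2 fun m => h.pos (a m),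
      ae_all_iff.2 fun m => h'.pos (a' m)] with y y0 y1 y2 y3
    have lp : ∀ m, 0 < l m y := fun m => by
      induction m with
      | zero => exact y0
      | succ m ih =>
        exact (mul_pos_iff_of_pos_right (y2 m).1).1 (y1 m ▸ mul_pos (pow_pos ih 2) (y3 m).1)
    refine ⟨fun m => ⟨lp m, (y3 m).1, neg_nonneg.2 (Real.log_nonpos (y2 m).1.le (y2 m).2),
      neg_nonneg.2 (Real.log_nonpos (y3 m).1.le (y3 m).2)⟩, fun i j hij => ?_⟩
    obtain ⟨M, rfl⟩ := Nat.exists_eq_add_of_le hij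
    rw [add_tsub_cancel_left]
    have e2 : (2 : ℝ) ^ i * (1 / 2) ^ i = 1 := by rw [← mul_pow]; norm_num
    clear hij
    induction M with
    | zero => simp only [S, L, Finset.range_zero, Finset.sum_empty, add_zero, ← mul_assoc, e2,
        one_mul, sub_self]
    | succ M ih =>
      have e1 := congrArg Real.log (y1 (i + M))
      rw [Real.log_mul (pow_pos (lp _) 2).ne' (y3 _).1.ne', Real.log_mul (lp _).ne' (y2 _).1.ne',
        Real.log_pow] at e1
      simp only [S, L, g, p, Finset.sum_range_succ, ← add_assoc] at ih ⊢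
      rw [← ih, pow_succ, pow_succ, pow_add]
      push_cast at e1
      linear_combination (1 / 2) ^ M * (1 / 2) * e1 + (1 / 2) ^ M *
        (Real.log (l (i + M) y) - 1 / 2 * Real.log (l (i + M + 1) y)) * e2
  have nS : ∀ᵐ y ∂ν, ∀ i M, -S i M y ≤
      ∑ m ∈ Finset.range M, (1 / 2 : ℝ) ^ (m + 1) * -Real.log (φ (a (i + m)) y) :=
    G.mono fun y hy i M => by
      rw [← Finset.sum_neg_distrib]
      refine Finset.sum_le_sum fun m _ => ?_
      rw [← mul_neg]
      exact mul_le_mul_of_nonneg_left (by have := (hy.1 (i + m)).2.2.2; simp only [g, p]; linarith)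
        (by positivity)
  have g1 : ∀ M, ∑ m ∈ Finset.range M, (1 / 2 : ℝ) ^ (m + 1) ≤ 1 := fun M => by
    simpa only [Finset.range_eq_Ico, pow_zero] using geo_le 0 M
  have B1 : ∀ i j, i ≤ j → IE ν (fun y => 4 * β i (L j) y) ≤ ν univ + C := fun i j hij => by
    refine le_trans (IE_mono (G.mono fun y hy => ?_)) (h'.jensen ht (Finset.Ico m0 (j - i))
      (fun m => 4 * (1 / 2) ^ (m + 1)) (fun m => a' (i + m)) (fun m _ => by positivity) ?_)
    · have b1 := tail_le (fun m => (hy.1 (i + m)).2.2.2) m0 (j - i)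
      have b2 : S i (j - i) y ≤ ∑ m ∈ Finset.range (j - i),
          (1 / 2 : ℝ) ^ (m + 1) * -Real.log (φ' (a' (i + m)) y) :=
        Finset.sum_le_sum fun m _ => mul_le_mul_of_nonneg_left
          (by have := (hy.1 (i + m)).2.2.1; simp only [g, p]; linarith) (by positivity)
      simp only [β, H, p, hy.2 i j hij, mul_assoc, ← Finset.mul_sum]
      rw [Finset.sum_neg_distrib] at b1
      linarith
    · rw [← Finset.mul_sum]
      nlinarith [geo_le m0 (j - i)]
  obtain ⟨B, hB⟩ := lb m0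
  set A : ℝ≥0∞ := ENNReal.ofReal (Real.exp (4 * x * (1 / 2) ^ m0 * Real.log B)) * (ν univ + C)
    with hA
  have A0 : A ≠ ⊤ := by rw [hA]; finiteness
  have B2 : ∀ j, m0 ≤ j → IE ν (fun y => 4 * (x * L j y)) ≤ A := fun j hj => by
    refine le_trans (IE_mono ?_) ((IE_const _ _).trans_le (mul_le_mul_right (h.jensen ht
      (Finset.range (j - m0)) (fun m => 4 * x * (1 / 2) ^ m0 * (1 / 2) ^ (m + 1))
      (fun m => a (m0 + m)) (fun m _ => by positivity) ?_) _))
    · filter_upwards [G, nS] with y hy h1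
      have b1 := Real.log_le_log (hy.1 m0).1 (hB y)
      have b2 := hy.2 m0 j hj
      have e2 : (1 / 2 : ℝ) ^ m0 * 2 ^ m0 = 1 := by rw [← mul_pow]; norm_num
      have b3 : 4 * (x * L j y) = 4 * x * (1 / 2) ^ m0 * (Real.log (l m0 y) + -S m0 (j - m0) y) := by
        rw [← b2]
        linear_combination (-4 * x * L j y) * e2
      simp only [mul_assoc (4 * x * (1 / 2) ^ m0), ← Finset.mul_sum]
      rw [b3, ← mul_add]
      exact mul_le_mul_of_nonneg_left (add_le_add b1 (h1 _ _)) (by positivity)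
    · rw [← Finset.mul_sum]
      exact (mul_le_of_le_one_right (by positivity) (g1 _)).trans (by nlinarith)
  have B3 : ∀ i j, i ≤ j → IE ν (fun y => 4 * (-θ * β i (L j) y)) ≤
      (ν univ + C) + (ν univ + C) := fun i j hij => by
    refine le_trans (IE_add (Finset.aemeasurable_fun_sum _ fun m _ =>
      (h'.mlog _).neg.const_mul _) ?_) (add_le_add (h'.jensen ht (Finset.range m0)
      (fun _ => 8 * θ) (fun m => a' (i + m)) (fun m _ => by positivity) ?_) (h.jensen ht
      (Finset.range (j - i)) (fun m => 8 * θ * (1 / 2) ^ (m + 1)) (fun m => a (i + m))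
      (fun m _ => by positivity) ?_))
    · filter_upwards [G, nS] with y hy h1
      simp only [β, H, p, hy.2 i j hij, mul_assoc (8 * θ), ← Finset.mul_sum, Pi.neg_apply]
      rw [Finset.sum_neg_distrib]
      nlinarith [mul_le_mul_of_nonneg_left (h1 i (j - i)) hθ.le]
    · rw [Finset.sum_const, Finset.card_range, nsmul_eq_mul]
      nlinarith
    · rw [← Finset.mul_sum]
      exact (mul_le_of_le_one_right (by positivity) (g1 _)).trans (by nlinarith)
  obtain ⟨σ, -, ψ, hψ, hσ⟩ := isCompact_univ.tendsto_subseq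
    (x := fun i m => p (i + m)) fun _ => mem_univ _
  let j : ℕ → ℕ := fun k => J (ψ (k + 1)) + ψ (k + 1) + k + m0
  have ψ1 : ∀ k, ψ k < ψ (k + 1) := fun k => hψ k.lt_succ_self
  have j1 : ∀ k, ψ k ≤ j k := fun k => by have := ψ1 k; simp only [j]; omega
  have j2 : ∀ k, ψ (k + 1) ≤ j k := fun k => by simp only [j]; omega
  have j3 : ∀ k, m0 ≤ j k := fun k => by simp only [j]; omega
  have hσ' := hσ.comp (tendsto_add_atTop_nat 1)
  obtain ⟨U, mU, hU⟩ := conv hi hc σ
  obtain ⟨V, mV, hV⟩ := conv hi hc fun m => p (0 + m)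
  obtain ⟨n, hn, ha⟩ := ae3 (hU _ (fun k => j k - ψ k) hσ (tendsto_atTop_mono
      (fun k => by have := ψ1 k; simp only [j, id]; omega) tendsto_id))
    (hU _ (fun k => j k - ψ (k + 1)) hσ' (tendsto_atTop_mono
      (fun k => by simp only [j, id]; omega) tendsto_id))
    (hV (fun _ m => p (0 + m)) (fun k => j k - 0) tendsto_const_nhds (tendsto_atTop_mono
      (fun k => by simp only [j, id]; omega) tendsto_id))
  have T1 : ∀ᵐ y ∂ν,
      Tendsto (fun k => β (ψ (n k)) (L (j (n k))) y) atTop (𝓝 (H σ y + U y)) ∧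
      Tendsto (fun k => β (ψ (n k + 1)) (L (j (n k))) y) atTop (𝓝 (H σ y + U y)) ∧
      Tendsto (fun k => x * L (j (n k)) y) atTop (𝓝 (x * (Real.log (l 0 y) - V y))) := by
    filter_upwards [G, ha, ae_all_iff.2 fun m => h'.pos (σ m).2] with y hy h1 h2
    have c : ContinuousAt (H · y) σ := tendsto_finsetSum _ fun m _ =>
      (((h'.cont y).comp (continuous_snd.comp (continuous_apply m))).tendsto σ).log (h2 m).1.ne'
    refine ⟨((c.tendsto.comp (hσ.comp hn.tendsto_atTop)).add h1.1).congr fun k => ?_,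
      ((c.tendsto.comp (hσ'.comp hn.tendsto_atTop)).add h1.2.1).congr fun k => ?_,
      ((h1.2.2.const_sub _).const_mul x).congr fun k => ?_⟩
    · exact congrArg _ (hy.2 _ _ (j1 _)).symm
    · exact congrArg _ (hy.2 _ _ (j2 _)).symm
    · have := hy.2 0 (j (n k)) (Nat.zero_le _)
      rw [pow_zero, one_mul] at this
      exact congrArg _ (by simp only [S] at this; linarith)
  have mx : ∀ k, AEMeasurable (fun y => x * L k y) ν := fun k => (mL k).const_mul x
  obtain ⟨e, he, h1⟩ := Ineq.ex (ν := ν) hν K hθ (β := fun y => H σ y + U y)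
    (ω := fun y => x * (Real.log (l 0 y) - V y)) ((mH σ).add mU)
    (((Real.measurable_log.comp_aemeasurable (ml 0)).sub mV).const_mul x) (by
      refine ne_top_of_le_ne_top (b := (ν univ + C) + (ν univ + C) + A) (by finiteness) (IE_lim
        (u := fun k y => 2 * (-θ * β (ψ (n k)) (L (j (n k))) y + x * L (j (n k)) y))
        (fun k => (((mβ _ _ (mL _)).const_mul _).add (mx _)).const_mul _)
        (T1.mono fun y hy => ((hy.1.const_mul _).add hy.2.2).const_mul _) fun k => ?_)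
      exact (IE_add (((mβ _ _ (mL _)).const_mul _).const_mul _) (.of_forall fun y => by
        linarith)).trans (add_le_add (B3 _ _ (j1 _)) (B2 _ (j3 _))))
  have B4 : ∀ k, IE ν (fun y => 2 * (β (ψ (k + 1)) (L (j k)) y + x * L (j k) y)) ≤
      ν univ + C + A := fun k => (IE_add ((mβ _ _ (mL _)).const_mul _) (.of_forall fun y => by
        linarith)).trans (add_le_add (B1 _ _ (j2 _)) (B2 _ (j3 _)))
  have A1 : ν univ + C + A ≠ ⊤ := by finiteness
  obtain ⟨N', hN'⟩ := pow_unbounded_of_one_lt x (one_lt_two (α := ℝ))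
  obtain ⟨k, h2, h3⟩ := ((Ineq.lim hθ.le he A1 (fun k => mβ _ _ (mL _)) (fun k => mβ _ _ (mL _))
    (fun k => mx _) (fun k => B4 (n k)) T1 h1).and
    ((hψ.comp hn).tendsto_atTop.eventually_ge_atTop (N + N'))).exists
  have h4 : x ≤ 2 ^ ψ (n k + 1) := hN'.le.trans (pow_le_pow_right₀ one_le_two (by
    have := ψ1 (n k); simp only [Function.comp] at h3; omega))
  have p0 : ∀ u : ℕ, (0 : ℝ) < 1 / (u + 1) := fun u => by positivity
  have mt : ∀ η, AEMeasurable (tlam l r (j (n k)) η) ν := fun η =>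
    (Real.measurable_log.comp_aemeasurable ((ml _).add ((mr _).const_mul η))).const_mul _
  refine (Ineq.lim (β := fun u => β (ψ (n k)) (tlam l r (j (n k)) (1 / (u + 1))))
    (β' := fun u => β (ψ (n k + 1)) (tlam l r (j (n k)) (1 / (u + 1))))
    (ω := fun u y => x * tlam l r (j (n k)) (1 / (u + 1)) y) hθ.le he A1
    (fun u => mβ _ _ (mt _)) (fun u => mβ _ _ (mt _)) (fun u => (mt _).const_mul x)
    (fun u => le_trans (IE_mono (G.mono fun y hy => ?_)) (B4 (n k)))
    (G.mono fun y hy => ?_) h2).exists.elim fun u h5 => ?_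
  rotate_right
  · refine ⟨ψ (n k), ψ (n k + 1), j (n k), le_trans (Nat.le_add_right _ _) h3, ψ1 _,
      by simp only [j]; omega, e, he, _, p0 u, ?_⟩
    have E : ∀ᵐ y ∂ν, ∀ i lam, tb (fun m => φ' (a' m)) l m0 i lam y = Real.exp (β i lam y) :=
      G.mono fun y hy i lam => by
        simp only [tb, β, H, p]
        rw [Real.exp_add, Real.exp_sum, sub_eq_add_neg, Real.exp_add, Real.exp_log (hy.1 i).1,
          mul_assoc, Finset.prod_congr rfl fun m _ => Real.exp_log (hy.1 (i + m)).2.1]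
    refine lt_of_eq_of_lt (lintegral_congr_ae (E.mono fun y hy => ?_))
      (lt_of_lt_of_eq h5 (lintegral_congr_ae (E.mono fun y hy => ?_))) <;> simp only [hy]
  · have : L (j (n k)) y ≤ tlam l r (j (n k)) (1 / (u + 1)) y :=
      mul_le_mul_of_nonneg_left (Real.log_le_log (hy.1 _).1
        (le_add_of_nonneg_right (mul_nonneg (p0 u).le (r0 _ y)))) (by positivity)
    simp only [β]
    nlinarith [mul_le_mul_of_nonneg_left this (sub_nonneg.2 h4)]
  · have : Tendsto (fun u : ℕ => tlam l r (j (n k)) (1 / (u + 1)) y) atTop (𝓝 (L (j (n k)) y)) := by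
      have := (tendsto_one_div_add_atTop_nhds_zero_nat.mul_const (r (j (n k)) y)).const_add
        (l (j (n k)) y)
      rw [zero_mul, add_zero] at this
      exact (this.log (hy.1 _).1.ne').const_mul _
    exact ⟨((this.const_mul _).const_sub _).const_add _,
      ((this.const_mul _).const_sub _).const_add _, this.const_mul x⟩

end Pool.Agent.Lib.S3K
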